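import Pool.Agent.NUM.Defs

/-!
# [NUM-B0] basic lemmas
-/

set_option autoImplicit false

namespace Pool.Agent.NUM

open Finset

theorem log_pos' {X : ℝ} (hX : 1 < X) : 0 < Real.log X := Real.log_pos hX

theorem u_zero (X : ℝ) : u X 0 = 0 := by simp [u]

theorem u_one (X : ℝ) : u X 1 = 0 := by simp [u]

theorem u_nonneg {X : ℝ} (hX : 1 < X) (m : ℕ) : 0 ≤ u X m :=
  div_nonneg (Real.log_natCast_nonneg m) (log_pos' hX).le

theorem u_mul (X : ℝ) {m n : ℕ} (hm : m ≠ 0) (hn : n ≠ 0) : u X (m * n) = u X m + u X n := by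
  unfold u
  push_cast
  rw [Real.log_mul (by exact_mod_cast hm) (by exact_mod_cast hn), add_div]

theorem u_lt {X : ℝ} (hX : 1 < X) {m n : ℕ} (hm : m ≠ 0) (h : m < n) : u X m < u X n := by
  unfold u
  apply div_lt_div_of_pos_right _ (log_pos' hX)
  apply Real.log_lt_log
  · exact_mod_cast Nat.pos_of_ne_zero hm
  · exact_mod_cast h

theorem u_le {X : ℝ} (hX : 1 < X) {m n : ℕ} (h : m ≤ n) : u X m ≤ u X n := by
  rcases Nat.eq_zero_or_pos m with rfl | hm
  · rw [u_zero]; exact u_nonneg hX n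
  · unfold u
    apply div_le_div_of_nonneg_right _ (log_pos' hX).le
    apply Real.log_le_log
    · exact_mod_cast hm
    · exact_mod_cast h

theorem u_lt_iff {X : ℝ} (hX : 1 < X) {m n : ℕ} (hm : m ≠ 0) : u X m < u X n ↔ m < n :=
  ⟨fun h => by by_contra hc; exact absurd (u_le hX (not_lt.1 hc)) (not_le.2 h), fun h => u_lt hX hm h⟩

/-- `m ≤ X ^ t` in terms of exponents -/
theorem le_rpow_iff {X : ℝ} (hX : 1 < X) {m : ℕ} (hm : m ≠ 0) (t : ℝ) :
    (m : ℝ) ≤ X ^ t ↔ u X m ≤ t := by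
  have hm' : (0 : ℝ) < m := by exact_mod_cast Nat.pos_of_ne_zero hm
  have hX0 : 0 < X := by linarith
  unfold u
  rw [div_le_iff₀ (log_pos' hX), ← Real.log_rpow hX0, Real.log_le_log_iff hm' (Real.rpow_pos_of_pos hX0 t)]

theorem rpow_lt_iff {X : ℝ} (hX : 1 < X) {m : ℕ} (hm : m ≠ 0) (t : ℝ) :
    X ^ t < (m : ℝ) ↔ t < u X m := by
  rw [← not_le, le_rpow_iff hX hm, not_le]

theorem rpow_le_iff {X : ℝ} (hX : 1 < X) {m : ℕ} (hm : m ≠ 0) (t : ℝ) :
    X ^ t ≤ (m : ℝ) ↔ t ≤ u X m := by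
  have hm' : (0 : ℝ) < m := by exact_mod_cast Nat.pos_of_ne_zero hm
  have hX0 : 0 < X := by linarith
  unfold u
  rw [le_div_iff₀ (log_pos' hX), ← Real.log_rpow hX0, Real.log_le_log_iff (Real.rpow_pos_of_pos hX0 t) hm']

/-- membership in the range in terms of exponents -/
theorem mem_rng {X η : ℝ} (hX : 1 < X) (hη : η < 1) {n : ℕ} :
    n ∈ rng X η ↔ 2 - 2 * η < u X n ∧ u X n ≤ 2 - η := by
  have hX0 : 0 < X := by linarith
  unfold rng
  rw [Finset.mem_Ioc]
  rcases Nat.eq_zero_or_pos n with rfl | hn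
  · constructor
    · intro h; exact absurd h.1 (Nat.not_lt_zero _)
    · intro h
      rw [u_zero] at h
      exfalso; linarith [h.1]
  · rw [Nat.floor_lt (Real.rpow_pos_of_pos hX0 _).le, Nat.le_floor_iff (Real.rpow_pos_of_pos hX0 _).le,
      rpow_lt_iff hX hn.ne', le_rpow_iff hX hn.ne']

theorem ne_zero_of_mem_rng {X η : ℝ} (hX : 1 < X) (hη : η < 1) {n : ℕ} (h : n ∈ rng X η) : n ≠ 0 := by
  rintro rfl
  rw [mem_rng hX hη, u_zero] at h
  linarith [h.1]

/-- membership in `P` -/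
theorem mem_P {X α β : ℝ} (hX : 1 < X) (hβ : β ≤ 2) {q : ℕ} :
    q ∈ P X α β ↔ q.Prime ∧ α ≤ u X q ∧ u X q ≤ β := by
  have hX0 : 0 < X := by linarith
  unfold P
  rw [Finset.mem_filter, Finset.mem_Icc]
  constructor
  · intro h; exact h.2
  · intro h
    refine ⟨⟨h.1.one_le, ?_⟩, h⟩
    rw [Nat.le_floor_iff (Real.rpow_pos_of_pos hX0 _).le, le_rpow_iff hX h.1.ne_zero]
    linarith [h.2.2]

theorem prime_of_mem_P {X α β : ℝ} {q : ℕ} (h : q ∈ P X α β) : q.Prime := by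
  unfold P at h
  exact (Finset.mem_filter.1 h).2.1

theorem le_of_mem_P {X α β : ℝ} {q : ℕ} (h : q ∈ P X α β) : α ≤ u X q := by
  unfold P at h
  exact (Finset.mem_filter.1 h).2.2.1

theorem le_of_mem_P' {X α β : ℝ} {q : ℕ} (h : q ∈ P X α β) : u X q ≤ β := by
  unfold P at h
  exact (Finset.mem_filter.1 h).2.2.2

theorem P_subset {X α β α' β' : ℝ} (h1 : α' ≤ α) (h2 : β ≤ β') : P X α β ⊆ P X α' β' := by
  intro q hq
  unfold P at hq ⊢
  rw [Finset.mem_filter] at hq ⊢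
  exact ⟨hq.1, hq.2.1, h1.trans hq.2.2.1, hq.2.2.2.trans h2⟩

/-- the exponent of a squarefree number -/
theorem u_eq_sum (X : ℝ) {n : ℕ} (hn : Squarefree n) : u X n = ∑ q ∈ n.primeFactors, u X q := by
  conv_lhs => rw [← Nat.prod_primeFactors_of_squarefree hn]
  have : ∀ S : Finset ℕ, (∀ q ∈ S, q ≠ 0) → u X (∏ q ∈ S, q) = ∑ q ∈ S, u X q := by
    intro S
    induction S using Finset.induction_on with
    | empty => intro _; simp [u_one]
    | insert a S ha ih =>
      intro h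
      rw [Finset.prod_insert ha, Finset.sum_insert ha, u_mul X (h a (mem_insert_self a S)),
        ih (fun q hq => h q (mem_insert_of_mem hq))]
      exact Finset.prod_ne_zero_iff.2 (fun q hq => h q (mem_insert_of_mem hq))
  exact this _ (fun q hq => (Nat.prime_of_mem_primeFactors hq).ne_zero)

/-- membership in `A` -/
theorem mem_A {X η : ℝ} (hX : 1 < X) (hη : η < 1) {n : ℕ} :
    n ∈ A X η ↔ (2 - 2 * η < u X n ∧ u X n ≤ 2 - η) ∧ Squarefree n ∧ ∀ q ∈ n.primeFactors, a0 ≤ u X q := by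
  classical
  simp only [A, Finset.mem_filter, mem_rng hX hη]
  refine and_congr_right (fun _ => and_congr_right (fun _ => ?_))
  unfold Rough
  refine forall₂_congr (fun q hq => ?_)
  rw [rpow_le_iff hX (Nat.prime_of_mem_primeFactors hq).ne_zero]

theorem mem_Ak {X η : ℝ} {k n : ℕ} : n ∈ Ak X η k ↔ n ∈ A X η ∧ n.primeFactors.card = k := by
  classical
  simp only [Ak, Finset.mem_filter]

/-- membership in `R` -/
theorem mem_R {X : ℝ} (hX : 1 < X) {r : ℕ} {s : ℝ} (hs : r * a0 + s ≤ 2) {n : ℕ} :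
    n ∈ R X r s ↔ Squarefree n ∧ (∀ q ∈ n.primeFactors, a0 ≤ u X q) ∧
      n.primeFactors.card = r ∧ u X n ≤ r * a0 + s := by
  have hX0 : 0 < X := by linarith
  unfold R
  rw [Finset.mem_filter, Finset.mem_Icc]
  constructor
  · intro h; exact h.2
  · intro h
    refine ⟨⟨Nat.one_le_iff_ne_zero.2 h.1.ne_zero, ?_⟩, h⟩
    rw [Nat.le_floor_iff (Real.rpow_pos_of_pos hX0 _).le, le_rpow_iff hX h.1.ne_zero]
    linarith [h.2.2.2]

/-- `G` in terms of exponents -/
theorem G_eq {X e : ℝ} (hX : 1 < X) (n : ℕ) : G X e n =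
    1 - ∑ q ∈ n.primeFactors, (if u X q ≤ 1 - e then (1 : ℝ) else 0)
      + ∑ q ∈ n.primeFactors, ∑ q' ∈ n.primeFactors,
        (if q < q' ∧ u X q + u X q' ≤ 1 - e then min 1 (8 * (u X q + u X q') - 6) else 0) := by
  unfold G
  congr 1
  · congr 1
    refine Finset.sum_congr rfl (fun q hq => ?_)
    simp only [le_rpow_iff hX (Nat.prime_of_mem_primeFactors hq).ne_zero]
  · refine Finset.sum_congr rfl (fun q hq => Finset.sum_congr rfl (fun q' hq' => ?_))
    have h1 := (Nat.prime_of_mem_primeFactors hq).ne_zero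
    have h2 := (Nat.prime_of_mem_primeFactors hq').ne_zero
    simp only [le_rpow_iff hX (mul_ne_zero h1 h2), psi, u_mul X h1 h2]

theorem rho_nonneg (v : ℝ) : 0 ≤ rho v := le_max_left _ _

theorem half_le_log {X : ℝ} (hX : 2 ≤ X) : 1 / 2 ≤ Real.log X := by
  have h1 : Real.log 2 ≤ Real.log X := Real.log_le_log (by norm_num) hX
  have h2 := Real.log_two_gt_d9
  linarith

/-- products of two errors -/
theorem err_mul {X C D : ℝ} (hX : 2 ≤ X) (hC : 0 ≤ C) (hD : 0 ≤ D) :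
    C / Real.log X * (D / Real.log X) ≤ 2 * C * D / Real.log X := by
  have h := half_le_log hX
  have h0 : 0 < Real.log X := by linarith
  rw [div_mul_div_comm, div_le_div_iff₀ (by positivity) h0]
  have : 0 ≤ C * D * Real.log X * (2 * Real.log X - 1) := by
    apply mul_nonneg (mul_nonneg (mul_nonneg hC hD) h0.le)
    linarith
  nlinarith [this]

end Pool.Agent.NUM
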