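import Mathlib

/-!
# [NUM-D1] comparison of finite sums
-/

set_option autoImplicit false

namespace Pool.Agent.NUM

open Finset

/-- [D1] sums over fibres -/
theorem sum_fiber_le {ι κ : Type*} [DecidableEq ι] (A : Finset ι) (T : Finset κ) (φ : κ → ι) (g : ι → ℝ) (h : κ → ℝ)
    (hh : ∀ t ∈ T, 0 ≤ h t) (H : ∀ n ∈ A, g n ≤ ∑ t ∈ T.filter (fun t => φ t = n), h t) :
    ∑ n ∈ A, g n ≤ ∑ t ∈ T, h t := by
  calc ∑ n ∈ A, g n ≤ ∑ n ∈ A, ∑ t ∈ T.filter (fun t => φ t = n), h t := Finset.sum_le_sum H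
    _ = ∑ t ∈ T.filter (fun t => φ t ∈ A), h t := by
        rw [← Finset.sum_fiberwise_of_maps_to (s := T.filter (fun t => φ t ∈ A)) (t := A) (g := φ)
          (fun t ht => (Finset.mem_filter.1 ht).2)]
        refine Finset.sum_congr rfl (fun n hn => Finset.sum_congr ?_ (fun _ _ => rfl))
        ext t
        simp only [Finset.mem_filter]
        constructor
        · rintro ⟨h1, h2⟩; exact ⟨⟨h1, h2 ▸ hn⟩, h2⟩
        · rintro ⟨⟨h1, _⟩, h2⟩; exact ⟨h1, h2⟩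
    _ ≤ ∑ t ∈ T, h t := Finset.sum_le_sum_of_subset_of_nonneg (Finset.filter_subset _ _) (fun t ht _ => hh t ht)

/-- [D1] one representative in each fibre -/
theorem sum_choice_le {ι κ : Type*} [DecidableEq ι] (A : Finset ι) (T : Finset κ) (φ : κ → ι) (g : ι → ℝ) (h : κ → ℝ)
    (hh : ∀ t ∈ T, 0 ≤ h t) (H : ∀ n ∈ A, ∃ t ∈ T, φ t = n ∧ g n ≤ h t) :
    ∑ n ∈ A, g n ≤ ∑ t ∈ T, h t := by
  refine sum_fiber_le A T φ g h hh (fun n hn => ?_)
  obtain ⟨t, ht, h1, h2⟩ := H n hn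
  refine h2.trans (Finset.single_le_sum (f := h) (fun s hs => hh s (Finset.mem_filter.1 hs).1) ?_)
  exact Finset.mem_filter.2 ⟨ht, h1⟩

end Pool.Agent.NUM
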