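import Pool.Agent.NUM.M1

/-!
# [NUM-D2] power sums over primes
-/

set_option autoImplicit false

namespace Pool.Agent.NUM

open Finset

/-- the right derivative of the truncated power -/
theorem D2_deriv (k : ℕ) (v t : ℝ) :
    HasDerivWithinAt (fun x : ℝ => (max 0 (x - v)) ^ (k + 1))
      (if v ≤ t then ((k : ℝ) + 1) * (t - v) ^ k else 0) (Set.Ici t) t := by
  by_cases h : v ≤ t
  · rw [if_pos h]
    have h1 : HasDerivWithinAt (fun x : ℝ => (x - v) ^ (k + 1)) (((k : ℝ) + 1) * (t - v) ^ k) (Set.Ici t) t := by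
      have h2 := (((hasDerivAt_id' t).sub_const v).fun_pow (k + 1)).hasDerivWithinAt (s := Set.Ici t)
      simpa using h2
    refine h1.congr (fun x hx => ?_) ?_
    · have hx' : t ≤ x := hx
      rw [max_eq_right (by linarith)]
    · rw [max_eq_right (by linarith)]
  · rw [if_neg h]
    push Not at h
    have h1 : HasDerivAt (fun x : ℝ => (max 0 (x - v)) ^ (k + 1)) 0 t := by
      refine (hasDerivAt_const t (0 : ℝ)).congr_of_eventuallyEq ?_
      filter_upwards [eventually_lt_nhds h] with x hx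
      rw [max_eq_left (by linarith), zero_pow (Nat.succ_ne_zero k)]
    exact h1.hasDerivWithinAt

theorem D2_filter (X s t : ℝ) (hts : t ≤ s) (F : ℕ → ℝ) :
    ∑ q ∈ P X a0 (a0 + s), (if u X q - a0 ≤ t then F q else 0) = ∑ q ∈ P X a0 (a0 + t), F q := by
  rw [← Finset.sum_filter]
  refine Finset.sum_congr ?_ fun _ _ => rfl
  unfold P
  ext q
  simp only [Finset.mem_filter]
  constructor
  · rintro ⟨⟨h1, h2, h3, h4⟩, h5⟩
    exact ⟨h1, h2, h3, by linarith⟩
  · rintro ⟨h1, h2, h3, h4⟩
    exact ⟨⟨h1, h2, h3, by linarith⟩, by linarith⟩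

/-- [D2] Proof. `k = 0`: `last_upper` (`τ = a0`, `η = s`; `log (1 + s / a0) ≤ s / a0`). `k ≥ 1`: with `v = u X q - a0` in `[0, s]`:
`(s - v) ^ k = ∫ t in v..s, k (s - t) ^ (k - 1) = ∫ t in 0..s, k (s - t) ^ (k - 1) [v ≤ t]`; exchange the finite sum and the integral:
`∫ t in 0..s, k (s - t) ^ (k - 1) ∑ q ∈ P X a0 (a0 + t), 1 / q ≤ ∫ t in 0..s, k (s - t) ^ (k - 1) (t / a0 + C / log X)
= s ^ (k + 1) / ((k + 1) a0) + s ^ k C / log X`. (Any other proof is fine, e.g. induction on `k` via
`∑ (s - v) ^ (k + 1) / q = (k + 1) ∫ t in 0..s, ∑ q ∈ P X a0 (a0 + t), (t - v) ^ k / q`.) -/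
theorem pow_sum (k : ℕ) : ∃ C X0 : ℝ, 0 < C ∧ 2 ≤ X0 ∧ ∀ X : ℝ, X0 ≤ X → ∀ s : ℝ, 0 ≤ s → a0 + s ≤ 2 →
    ∑ q ∈ P X a0 (a0 + s), (a0 + s - u X q) ^ k / (q : ℝ) ≤ s ^ (k + 1) / ((k + 1) * a0) + C / Real.log X := by
  have ha0 : (0 : ℝ) < a0 := by unfold a0; norm_num
  induction k with
  | zero =>
    obtain ⟨C, X0, hC, hX0, H⟩ := last_upper
    refine ⟨C, X0, hC, hX0, fun X hX s hs h2 => ?_⟩
    have h := H X hX s a0 hs (by unfold a0; norm_num) h2
    simpa using h
  | succ k ih =>
    obtain ⟨C, X0, hC, hX0, H⟩ := ih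
    refine ⟨2 * (k + 1) * C, X0, by positivity, hX0, fun X hX s hs h2 => ?_⟩
    have hl : 0 < Real.log X := Real.log_pos (by linarith)
    set T := P X a0 (a0 + s) with hT
    have key : ∀ ⦃x : ℝ⦄, x ∈ Set.Icc 0 s → ∑ q ∈ T, (max 0 (x - (u X q - a0))) ^ (k + 1) / (q : ℝ) ≤
        x ^ (k + 2) / ((k + 2) * a0) + (k + 1) * (C / Real.log X) * x := by
      refine image_le_of_deriv_right_le_deriv_boundary
        (f := fun x => ∑ q ∈ T, (max 0 (x - (u X q - a0))) ^ (k + 1) / (q : ℝ))
        (f' := fun x => ∑ q ∈ T, (if u X q - a0 ≤ x then ((k : ℝ) + 1) * (x - (u X q - a0)) ^ k else 0) / (q : ℝ))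
        (B := fun x => x ^ (k + 2) / ((k + 2) * a0) + (k + 1) * (C / Real.log X) * x)
        (B' := fun x => (k + 1) * (x ^ (k + 1) / ((k + 1) * a0) + C / Real.log X)) ?_ ?_ ?_ ?_ ?_ ?_
      · refine Continuous.continuousOn ?_
        refine continuous_finsetSum _ fun q _ => ?_
        fun_prop
      · intro x hx
        refine HasDerivWithinAt.fun_sum fun q _ => ?_
        exact (D2_deriv k (u X q - a0) x).div_const _
      · have h0 : ∑ q ∈ T, (max 0 ((0 : ℝ) - (u X q - a0))) ^ (k + 1) / (q : ℝ) = 0 := by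
          refine Finset.sum_eq_zero fun q hq => ?_
          have hq' : a0 ≤ u X q := by
            rw [hT] at hq
            unfold P at hq
            exact (Finset.mem_filter.1 hq).2.2.1
          rw [max_eq_left (by linarith), zero_pow (Nat.succ_ne_zero k), zero_div]
        change ∑ q ∈ T, (max 0 ((0 : ℝ) - (u X q - a0))) ^ (k + 1) / (q : ℝ) ≤ _
        rw [h0]
        simp
      · refine Continuous.continuousOn ?_
        fun_prop
      · intro x hx
        have h3 : HasDerivAt (fun x : ℝ => x ^ (k + 2) / ((k + 2) * a0) + (k + 1) * (C / Real.log X) * x)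
            ((((k + 2 : ℕ) : ℝ) * x ^ (k + 2 - 1)) / ((k + 2) * a0) + (k + 1) * (C / Real.log X) * 1) x :=
          ((hasDerivAt_pow (k + 2) x).div_const _).add ((hasDerivAt_id x).const_mul _)
        have e : (((k + 2 : ℕ) : ℝ) * x ^ (k + 2 - 1)) / ((k + 2) * a0) + (k + 1) * (C / Real.log X) * 1 =
            (k + 1) * (x ^ (k + 1) / ((k + 1) * a0) + C / Real.log X) := by
          rw [show k + 2 - 1 = k + 1 by omega]
          push_cast
          field_simp
        rw [e] at h3
        exact h3.hasDerivWithinAt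
      · intro x hx
        have h3 := H X hX x hx.1 (by linarith [hx.2])
        have h4 := D2_filter X s x hx.2.le (fun q => (a0 + x - u X q) ^ k / (q : ℝ))
        rw [← h4] at h3
        have h5 : ∑ q ∈ T, (if u X q - a0 ≤ x then ((k : ℝ) + 1) * (x - (u X q - a0)) ^ k else 0) / (q : ℝ) =
            (k + 1) * ∑ q ∈ P X a0 (a0 + s), (if u X q - a0 ≤ x then (a0 + x - u X q) ^ k / (q : ℝ) else 0) := by
          rw [Finset.mul_sum]
          refine Finset.sum_congr rfl fun q _ => ?_
          have e : x - (u X q - a0) = a0 + x - u X q := by ring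
          rw [e]
          split_ifs
          · ring
          · simp
        change ∑ q ∈ T, (if u X q - a0 ≤ x then ((k : ℝ) + 1) * (x - (u X q - a0)) ^ k else 0) / (q : ℝ) ≤ _
        rw [h5]
        exact mul_le_mul_of_nonneg_left h3 (by positivity)
    have h6 := key (Set.right_mem_Icc.2 hs)
    have h7 : ∑ q ∈ T, (a0 + s - u X q) ^ (k + 1) / (q : ℝ) = ∑ q ∈ T, (max 0 (s - (u X q - a0))) ^ (k + 1) / (q : ℝ) := by
      refine Finset.sum_congr rfl fun q hq => ?_
      have hq' : u X q ≤ a0 + s := by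
        rw [hT] at hq
        unfold P at hq
        exact (Finset.mem_filter.1 hq).2.2.2
      rw [max_eq_right (by linarith)]
      congr 2
      ring
    rw [h7]
    refine h6.trans ?_
    have h8 : (k + 1) * (C / Real.log X) * s ≤ 2 * (k + 1) * C / Real.log X := by
      have h9 : s ≤ 2 := by linarith
      have h10 : 0 < C / Real.log X := by positivity
      calc (k + 1) * (C / Real.log X) * s ≤ (k + 1) * (C / Real.log X) * 2 :=
            mul_le_mul_of_nonneg_left h9 (by positivity)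
        _ = _ := by ring
    have e2 : s ^ (k + 1 + 1) / ((((k + 1 : ℕ) : ℝ) + 1) * a0) = s ^ (k + 2) / ((k + 2) * a0) := by
      push_cast
      ring_nf
    rw [e2]
    linarith

end Pool.Agent.NUM
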