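import Pool.Agent.NUM.D3w
import Pool.Agent.NUM.D1
import Pool.Agent.NUM.D2

/-!
# [NUM-D3] the mass of the rough numbers with `r` prime factors
-/

set_option autoImplicit false

namespace Pool.Agent.NUM

open Finset

/-- a squarefree number whose prime factors have exponent at least `a0` -/
theorem card_mul_a0_le {X : ℝ} {m : ℕ} (hm : Squarefree m)
    (h : ∀ q ∈ m.primeFactors, a0 ≤ u X q) : (m.primeFactors.card : ℝ) * a0 ≤ u X m := by
  rw [u_eq_sum X hm, ← nsmul_eq_mul]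
  exact Finset.card_nsmul_le_sum _ _ _ h

/-- the induction step -/
theorem R_step {X : ℝ} (hX1 : 1 < X) (r : ℕ) {s : ℝ} (hs : ((r + 1 : ℕ) : ℝ) * a0 + s ≤ 2) :
    ((r + 1 : ℕ) : ℝ) * ∑ n ∈ R X (r + 1) s, 1 / (n : ℝ) ≤
      ∑ q ∈ P X a0 (a0 + s), 1 / (q : ℝ) * ∑ m ∈ R X r (a0 + s - u X q), 1 / (m : ℝ) := by
  have ha0 : a0 = 333 / 1000 := rfl
  have ha0p : 0 < a0 := by rw [ha0]; norm_num
  have hr0 : (0 : ℝ) ≤ r := Nat.cast_nonneg r
  have hs' : ((r : ℝ) + 1) * a0 + s ≤ 2 := by push_cast at hs; exact hs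
  let T : Finset (Σ _ : ℕ, ℕ) := (P X a0 (a0 + s)).sigma (fun q => R X r (a0 + s - u X q))
  have hstep : ∑ n ∈ R X (r + 1) s, ((r + 1 : ℕ) : ℝ) * (1 / (n : ℝ)) ≤
      ∑ t ∈ T, 1 / ((t.1 : ℝ) * t.2) := by
    apply sum_fiber_le (R X (r + 1) s) T (fun t => t.1 * t.2)
      (fun n => ((r + 1 : ℕ) : ℝ) * (1 / (n : ℝ))) (fun t => 1 / ((t.1 : ℝ) * t.2))
    · intro t _
      positivity
    · intro n hn
      rw [mem_R hX1 hs] at hn
      obtain ⟨h1, h2, h3, h4⟩ := hn
      apply count_le T (fun t => t.1 * t.2) (fun t => 1 / ((t.1 : ℝ) * t.2)) n (r + 1)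
        (fun q => ⟨q, n / q⟩)
      · intro q _ q' _ h
        have : (⟨q, n / q⟩ : Σ _ : ℕ, ℕ) = ⟨q', n / q'⟩ := h
        have h7 := congrArg (fun t : Σ _ : ℕ, ℕ => t.1) this
        exact h7
      · intro q hq
        obtain ⟨m, hm, hm1, hm2, hm0⟩ := erase_facts h1 hq
        have hqp := Nat.prime_of_mem_primeFactors hq
        have hnq : n / q = m := by rw [hm]; exact Nat.mul_div_cancel_left m hqp.pos
        have hu : u X n = u X q + u X m := by rw [hm, u_mul X hqp.ne_zero hm0]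
        have hq4 := h2 q hq
        have hmr : ∀ q' ∈ m.primeFactors, a0 ≤ u X q' := by
          intro q' hq'
          rw [hm2] at hq'
          exact h2 q' (Finset.mem_of_mem_erase hq')
        have hcard : m.primeFactors.card = r := by
          rw [hm2, Finset.card_erase_of_mem hq, h3]; rfl
        have hlow := card_mul_a0_le hm1 hmr
        rw [hcard] at hlow
        push_cast at h4
        have h5 : u X q ≤ a0 + s := by linarith
        simp only [T, Finset.mem_sigma]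
        rw [hnq, mem_P hX1 (by nlinarith), mem_R hX1 (by linarith)]
        exact ⟨⟨hqp, hq4, h5⟩, hm1, hmr, hcard, by linarith⟩
      · intro q hq
        exact Nat.mul_div_cancel' (Nat.dvd_of_mem_primeFactors hq)
      · intro t _ ht
        rw [← ht]
        push_cast
        rfl
      · exact h3
  have hin : ∑ t ∈ T, 1 / ((t.1 : ℝ) * t.2) =
      ∑ q ∈ P X a0 (a0 + s), 1 / (q : ℝ) * ∑ m ∈ R X r (a0 + s - u X q), 1 / (m : ℝ) := by
    simp only [T]
    rw [Finset.sum_sigma]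
    refine Finset.sum_congr rfl (fun q _ => ?_)
    rw [Finset.mul_sum]
    refine Finset.sum_congr rfl (fun m _ => ?_)
    rw [one_div_mul_one_div]
  rw [← hin, Finset.mul_sum]
  exact hstep

/-- [D3] Proof. Induction on `r`. `r = 0`: `R X 0 s = {1}`. Step: `(r + 1) ∑ n ∈ R X (r + 1) s, 1 / n = ∑ n, ∑ q ∈ n.primeFactors, 1 / n`, and `sum_fiber_le` with
the pairs `(q, m)`, `q ∈ P X a0 (a0 + s)`, `m ∈ R X r (s - (u X q - a0))`, `φ = q m`, `h = 1 / (q m)` (for `n` in `R X (r + 1) s` and `q ∣ n` the pair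
`(q, n / q)` is in the fibre; `u X (n / q) = u X n - u X q`, `(n / q).primeFactors = n.primeFactors.erase q`) gives
`(r + 1) ∑ 1 / n ≤ ∑ q, (1 / q) (((a0 + s - u X q) / a0) ^ r / (r!) ^ 2 + C / log X)`; then `pow_sum r` and `P_mass`. -/
theorem R_mass (r : ℕ) : ∃ C X0 : ℝ, 0 < C ∧ 2 ≤ X0 ∧ ∀ X : ℝ, X0 ≤ X → ∀ s : ℝ, 0 ≤ s → r * a0 + s ≤ 2 →
    ∑ n ∈ R X r s, 1 / (n : ℝ) ≤ (s / a0) ^ r / (r.factorial : ℝ) ^ 2 + C / Real.log X := by
  have ha0 : a0 = 333 / 1000 := rfl
  have ha0p : 0 < a0 := by rw [ha0]; norm_num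
  induction r with
  | zero =>
    refine ⟨1, 2, one_pos, le_rfl, ?_⟩
    intro X hX s hs hs2
    have hX1 : 1 < X := by linarith
    have hl : 0 < Real.log X := log_pos' hX1
    have hsub : R X 0 s ⊆ {1} := by
      intro n hn
      rw [mem_R hX1 hs2] at hn
      rw [Finset.mem_singleton]
      have h1 : n.primeFactors = ∅ := Finset.card_eq_zero.1 hn.2.2.1
      rw [Nat.primeFactors_eq_empty] at h1
      rcases h1 with h1 | h1
      · exact absurd h1 hn.1.ne_zero
      · exact h1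
    have : ∑ n ∈ R X 0 s, 1 / (n : ℝ) ≤ ∑ n ∈ ({1} : Finset ℕ), 1 / (n : ℝ) :=
      Finset.sum_le_sum_of_subset_of_nonneg hsub (fun n _ _ => by positivity)
    rw [Finset.sum_singleton] at this
    have h2 : 0 < 1 / Real.log X := by positivity
    simp only [pow_zero, Nat.factorial_zero, Nat.cast_one] at this ⊢
    linarith
  | succ r ih =>
    obtain ⟨C1, X1, hC1, hX1, H1⟩ := ih
    obtain ⟨C2, X2, hC2, hX2, H2⟩ := pow_sum r
    obtain ⟨X3, hX3, H3⟩ := P_mass
    have hfac : (0 : ℝ) < r.factorial := by exact_mod_cast r.factorial_pos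
    refine ⟨C2 / (a0 ^ r * (r.factorial : ℝ) ^ 2) + 4 * C1, max X1 (max X2 X3), by positivity,
      hX1.trans (le_max_left _ _), ?_⟩
    intro X hX s hs hs2
    have hXa := (le_max_left _ _).trans hX
    have hXb := (le_max_left _ _).trans ((le_max_right _ _).trans hX)
    have hXc := (le_max_right _ _).trans ((le_max_right _ _).trans hX)
    have hX1' : 1 < X := by linarith
    have hl : 0 < Real.log X := log_pos' hX1'
    have hr0 : (0 : ℝ) ≤ r := Nat.cast_nonneg r
    have hs2' : ((r : ℝ) + 1) * a0 + s ≤ 2 := by push_cast at hs2; exact hs2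
    have hstep := R_step hX1' r hs2
    have hbound : ∑ q ∈ P X a0 (a0 + s), 1 / (q : ℝ) * ∑ m ∈ R X r (a0 + s - u X q), 1 / (m : ℝ) ≤
        ∑ q ∈ P X a0 (a0 + s), ((1 / (a0 ^ r * (r.factorial : ℝ) ^ 2)) *
          ((a0 + s - u X q) ^ r / (q : ℝ)) + C1 / Real.log X * (1 / (q : ℝ))) := by
      refine Finset.sum_le_sum (fun q hq => ?_)
      have h1 := le_of_mem_P hq
      have h2 := le_of_mem_P' hq
      have h3 := H1 X hXa (a0 + s - u X q) (by linarith) (by linarith)
      calc 1 / (q : ℝ) * ∑ m ∈ R X r (a0 + s - u X q), 1 / (m : ℝ)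
          ≤ 1 / (q : ℝ) * (((a0 + s - u X q) / a0) ^ r / (r.factorial : ℝ) ^ 2 + C1 / Real.log X) :=
            mul_le_mul_of_nonneg_left h3 (by positivity)
        _ = _ := by
            rw [div_pow]
            field_simp
    rw [Finset.sum_add_distrib, ← Finset.mul_sum, ← Finset.mul_sum] at hbound
    have h4 := H2 X hXb s hs (by nlinarith)
    have h5 := H3 X hXc a0 (a0 + s) (by rw [ha0]; norm_num) (by nlinarith)
    have h6 : ((r + 1 : ℕ) : ℝ) * ∑ n ∈ R X (r + 1) s, 1 / (n : ℝ) ≤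
        1 / (a0 ^ r * (r.factorial : ℝ) ^ 2) * (s ^ (r + 1) / ((r + 1) * a0) + C2 / Real.log X) +
          C1 / Real.log X * 4 := by
      refine (hstep.trans hbound).trans (add_le_add ?_ ?_)
      · exact mul_le_mul_of_nonneg_left h4 (by positivity)
      · exact mul_le_mul_of_nonneg_left h5 (by positivity)
    have h7 : ∑ n ∈ R X (r + 1) s, 1 / (n : ℝ) ≤
        (1 / (a0 ^ r * (r.factorial : ℝ) ^ 2) * (s ^ (r + 1) / ((r + 1) * a0) + C2 / Real.log X) +
          C1 / Real.log X * 4) / ((r + 1 : ℕ) : ℝ) := by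
      rw [le_div_iff₀ (by positivity), mul_comm]
      exact h6
    refine h7.trans ?_
    have h8 : (1 / (a0 ^ r * (r.factorial : ℝ) ^ 2) * (s ^ (r + 1) / ((r + 1) * a0) + C2 / Real.log X) +
          C1 / Real.log X * 4) / ((r + 1 : ℕ) : ℝ) =
        (s / a0) ^ (r + 1) / ((r + 1).factorial : ℝ) ^ 2 +
        (C2 / (a0 ^ r * (r.factorial : ℝ) ^ 2) + 4 * C1) / Real.log X / ((r : ℝ) + 1) := by
      rw [Nat.factorial_succ, div_pow]
      push_cast
      field_simp
      ring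
    rw [h8]
    apply add_le_add le_rfl
    apply div_le_self (by positivity)
    linarith

end Pool.Agent.NUM
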