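import Pool.Agent.NUM.B0
import Pool.Agent.EPK.M1b

/-!
# [NUM-M1] Mertens upper bounds in terms of exponents
-/

set_option autoImplicit false

namespace Pool.Agent.NUM

open Finset

/-- [M1] the set of primes is contained in an interval, with bounds for its ends -/
theorem M1_aux {X : ℝ} (hX : Real.exp 40 ≤ X) {α β : ℝ} (hα : 1 / 10 ≤ α) :
    ∃ x y : ℕ, 2 ≤ x ∧ P X α β ⊆ (Ioc x y).filter Nat.Prime ∧
      α * Real.log X - 1 ≤ Real.log x ∧ (x ≤ y → Real.log y ≤ β * Real.log X) ∧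
      4 ≤ α * Real.log X := by
  have hX1 : 1 < X := lt_of_lt_of_le (Real.one_lt_exp_iff.2 (by norm_num)) hX
  have hX0 : 0 < X := by linarith
  have hl : 40 ≤ Real.log X := by
    have := Real.log_le_log (Real.exp_pos 40) hX
    rwa [Real.log_exp] at this
  have hw : 4 ≤ α * Real.log X := by nlinarith
  have hXα : X ^ α = Real.exp (α * Real.log X) := by
    rw [Real.rpow_def_of_pos hX0, mul_comm]
  have h1 : Real.exp (α * Real.log X) = Real.exp (α * Real.log X - 1) * Real.exp 1 := by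
    rw [← Real.exp_add, sub_add_cancel]
  have h2 : α * Real.log X ≤ Real.exp (α * Real.log X - 1) := by
    have := Real.add_one_le_exp (α * Real.log X - 1)
    linarith
  have h3 : 2 ≤ Real.exp 1 := by
    have := Real.add_one_le_exp (1 : ℝ)
    linarith
  have hc : 1 ≤ ⌈X ^ α⌉₊ := Nat.one_le_iff_ne_zero.2 (by
    intro h
    rw [Nat.ceil_eq_zero] at h
    exact absurd (Real.rpow_pos_of_pos hX0 α) (not_lt.2 h))
  have hxr : Real.exp (α * Real.log X - 1) ≤ ((⌈X ^ α⌉₊ - 1 : ℕ) : ℝ) := by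
    rw [Nat.cast_sub hc, Nat.cast_one]
    have h4 := Nat.le_ceil (X ^ α)
    rw [hXα, h1] at h4
    rw [hXα, h1]
    nlinarith
  refine ⟨⌈X ^ α⌉₊ - 1, ⌊X ^ β⌋₊, ?_, ?_, ?_, ?_, hw⟩
  · have h5 : (2 : ℝ) ≤ ((⌈X ^ α⌉₊ - 1 : ℕ) : ℝ) := by linarith
    exact_mod_cast h5
  · intro q hq
    have hp := prime_of_mem_P hq
    have h5 := (rpow_le_iff hX1 hp.ne_zero α).2 (le_of_mem_P hq)
    have h6 := (le_rpow_iff hX1 hp.ne_zero β).2 (le_of_mem_P' hq)
    rw [Finset.mem_filter, Finset.mem_Ioc]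
    refine ⟨⟨?_, Nat.le_floor h6⟩, hp⟩
    have h7 : ⌈X ^ α⌉₊ ≤ q := Nat.ceil_le.2 h5
    omega
  · have h5 := Real.log_le_log (Real.exp_pos _) hxr
    rwa [Real.log_exp] at h5
  · intro hxy
    have h5 : (2 : ℝ) ≤ ((⌈X ^ α⌉₊ - 1 : ℕ) : ℝ) := by linarith
    have h5' : 2 ≤ ⌈X ^ α⌉₊ - 1 := by exact_mod_cast h5
    have h6 : (0 : ℝ) < (⌊X ^ β⌋₊ : ℝ) := by
      have : 0 < ⌊X ^ β⌋₊ := by omega
      exact_mod_cast this
    have h7 := Real.log_le_log h6 (Nat.floor_le (Real.rpow_pos_of_pos hX0 β).le)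
    rwa [Real.log_rpow hX0] at h7

/-- [M1] Proof. Put `x = ⌈X ^ α⌉₊ - 1`, `y = ⌊X ^ β⌋₊`, `ℓ = log X`. A prime with `α ≤ u X q ≤ β` is in `(x, y]`
(`le_rpow_iff`, `rpow_le_iff`). If `x ≤ y` use `Pool.Agent.EPK.mertens_two` (`2 ≤ x` for `X` large as `α ≥ 1 / 10`); if
`y < x` the sum is empty. `log log y ≤ log (β ℓ)`; `log x ≥ α ℓ - 1` (as `X ^ α - 1 ≥ X ^ α / e`), so
`log log x ≥ log (α ℓ) + log (1 - 1 / (α ℓ)) ≥ log (α ℓ) - 2 / (α ℓ) ≥ log (α ℓ) - 20 / ℓ`, and `C / log x ≤ 2 C / (α ℓ)`. -/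
theorem m2_upper : ∃ C X0 : ℝ, 0 < C ∧ 2 ≤ X0 ∧ ∀ X : ℝ, X0 ≤ X → ∀ α β : ℝ, 1 / 10 ≤ α → α ≤ β → β ≤ 2 →
    ∑ q ∈ P X α β, 1 / (q : ℝ) ≤ Real.log (β / α) + C / Real.log X := by
  obtain ⟨C, hC, hM⟩ := Pool.Agent.EPK.mertens_two
  refine ⟨20 * (1 + C), Real.exp 40, by positivity, ?_, ?_⟩
  · have := Real.add_one_le_exp (40 : ℝ)
    linarith
  intro X hX α β hα hαβ hβ
  obtain ⟨x, y, hx, hsub, hlx, hly, hw⟩ := M1_aux (β := β) hX hα
  have hl : 40 ≤ Real.log X := by
    have := Real.log_le_log (Real.exp_pos 40) hX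
    rwa [Real.log_exp] at this
  have hα0 : 0 < α := by linarith
  have hβ0 : 0 < β := by linarith
  have hsum : ∑ q ∈ P X α β, 1 / (q : ℝ) ≤ ∑ l ∈ (Ioc x y).filter Nat.Prime, (1 : ℝ) / l :=
    Finset.sum_le_sum_of_subset_of_nonneg hsub fun _ _ _ => by positivity
  rcases le_or_gt x y with hxy | hxy
  · have h1 := (abs_le.1 (hM x y hx hxy)).2
    have h2 := hly hxy
    have hlog1 : 0 < Real.log x := by linarith
    have hxy' : Real.log x ≤ Real.log y :=
      Real.log_le_log (by exact_mod_cast (by omega : 0 < x)) (by exact_mod_cast hxy)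
    have h3 : Real.log (Real.log y) ≤ Real.log β + Real.log (Real.log X) := by
      rw [← Real.log_mul hβ0.ne' (by linarith)]
      exact Real.log_le_log (by linarith) h2
    have hw1 : 0 < α * Real.log X - 1 := by linarith
    have hw0 : 0 < α * Real.log X := by linarith
    have h4 : Real.log α + Real.log (Real.log X) - 2 / (α * Real.log X) ≤
        Real.log (Real.log x) := by
      have h5 : Real.log (α * Real.log X - 1) ≤ Real.log (Real.log x) := Real.log_le_log hw1 hlx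
      have h6 : Real.log α + Real.log (Real.log X) = Real.log (α * Real.log X) :=
        (Real.log_mul hα0.ne' (by linarith)).symm
      have h7 := Real.one_sub_inv_le_log_of_pos (div_pos hw1 hw0)
      rw [Real.log_div hw1.ne' hw0.ne', inv_div] at h7
      have h8 : α * Real.log X / (α * Real.log X - 1) ≤ 1 + 2 / (α * Real.log X) := by
        rw [div_le_iff₀ hw1]
        have h9 : (1 + 2 / (α * Real.log X)) * (α * Real.log X - 1) =
            α * Real.log X + 1 - 2 / (α * Real.log X) := by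
          field_simp
          ring
        rw [h9]
        have h10 : 2 / (α * Real.log X) ≤ 1 := by
          rw [div_le_one hw0]
          linarith
        linarith
      linarith
    have h5 : C / Real.log x ≤ 2 * C / (α * Real.log X) := by
      rw [div_le_div_iff₀ hlog1 hw0]
      nlinarith
    have h6 : 2 / (α * Real.log X) + 2 * C / (α * Real.log X) ≤ 20 * (1 + C) / Real.log X := by
      rw [← add_div, div_le_div_iff₀ hw0 (by linarith)]
      have : 0 ≤ (1 + C) * Real.log X := by positivity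
      nlinarith
    rw [Real.log_div hβ0.ne' hα0.ne']
    linarith
  · rw [Finset.Ioc_eq_empty (by omega), Finset.filter_empty, Finset.sum_empty] at hsum
    have h1 : 0 ≤ Real.log (β / α) := Real.log_nonneg ((one_le_div hα0).2 hαβ)
    have h2 : 0 ≤ 20 * (1 + C) / Real.log X := by positivity
    linarith

/-- [M1] the same for `∑ u X q / q = (1 / log X) ∑ log q / q` with `Pool.Agent.EPK.mertens_one`. -/
theorem m1_upper : ∃ C X0 : ℝ, 0 < C ∧ 2 ≤ X0 ∧ ∀ X : ℝ, X0 ≤ X → ∀ α β : ℝ, 1 / 10 ≤ α → α ≤ β → β ≤ 2 →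
    ∑ q ∈ P X α β, u X q / (q : ℝ) ≤ (β - α) + C / Real.log X := by
  refine ⟨6, Real.exp 40, by norm_num, ?_, ?_⟩
  · have := Real.add_one_le_exp (40 : ℝ)
    linarith
  intro X hX α β hα hαβ hβ
  obtain ⟨x, y, hx, hsub, hlx, hly, hw⟩ := M1_aux (β := β) hX hα
  have hl : 40 ≤ Real.log X := by
    have := Real.log_le_log (Real.exp_pos 40) hX
    rwa [Real.log_exp] at this
  have hl0 : 0 < Real.log X := by linarith
  have h0 : ∑ q ∈ P X α β, u X q / (q : ℝ) = (∑ q ∈ P X α β, Real.log q / (q : ℝ)) / Real.log X := by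
    rw [Finset.sum_div]
    refine Finset.sum_congr rfl fun q _ => ?_
    unfold u
    rw [div_right_comm]
  rw [h0, div_le_iff₀ hl0, add_mul, div_mul_cancel₀ _ hl0.ne']
  have hsum : ∑ q ∈ P X α β, Real.log q / (q : ℝ) ≤
      ∑ l ∈ (Ioc x y).filter Nat.Prime, Real.log l / (l : ℝ) :=
    Finset.sum_le_sum_of_subset_of_nonneg hsub fun l _ _ =>
      div_nonneg (Real.log_natCast_nonneg l) (Nat.cast_nonneg l)
  rcases le_or_gt x y with hxy | hxy
  · have h1 := (abs_le.1 (Pool.Agent.EPK.mertens_one x y (by omega) hxy)).2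
    have h2 := hly hxy
    nlinarith
  · rw [Finset.Ioc_eq_empty (by omega), Finset.filter_empty, Finset.sum_empty] at hsum
    nlinarith

/-- [M1] `log 20 < 3`, so this follows from `m2_upper`. -/
theorem P_mass : ∃ X0 : ℝ, 2 ≤ X0 ∧ ∀ X : ℝ, X0 ≤ X → ∀ α β : ℝ, 1 / 10 ≤ α → β ≤ 2 →
    ∑ q ∈ P X α β, 1 / (q : ℝ) ≤ 4 := by
  obtain ⟨C, X0, hC, hX0, h⟩ := m2_upper
  refine ⟨max X0 (Real.exp C), hX0.trans (le_max_left _ _), ?_⟩
  intro X hX α β hα hβ
  rcases le_or_gt α β with hαβ | hαβ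
  · have h1 := h X ((le_max_left _ _).trans hX) α β hα hαβ hβ
    have hα0 : 0 < α := by linarith
    have hl : C ≤ Real.log X := by
      have := Real.log_le_log (Real.exp_pos C) ((le_max_right _ _).trans hX)
      rwa [Real.log_exp] at this
    have h2 : C / Real.log X ≤ 1 := by
      rw [div_le_one (by linarith)]
      exact hl
    have h3 : β / α ≤ 20 := by
      rw [div_le_iff₀ hα0]
      linarith
    have h4 : Real.log (β / α) ≤ Real.log 20 :=
      Real.log_le_log (div_pos (by linarith) hα0) h3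
    have h5 : Real.log 20 ≤ 3 := by
      rw [Real.log_le_iff_le_exp (by norm_num)]
      have h6 : Real.exp 3 = Real.exp 1 ^ 3 := by
        rw [← Real.exp_nat_mul]
        norm_num
      rw [h6]
      have h7 := Real.exp_one_gt_d9
      calc (20 : ℝ) ≤ 2.7182818283 ^ 3 := by norm_num
        _ ≤ Real.exp 1 ^ 3 := pow_le_pow_left₀ (by norm_num) h7.le 3
    linarith
  · have h1 : P X α β = ∅ := by
      rw [Finset.eq_empty_iff_forall_notMem]
      intro q hq
      have h2 := le_of_mem_P hq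
      have h3 := le_of_mem_P' hq
      linarith
    rw [h1, Finset.sum_empty]
    norm_num

/-- [M1] the last prime variable: from `m2_upper` and `log (1 + t) ≤ t`. -/
theorem last_upper : ∃ C X0 : ℝ, 0 < C ∧ 2 ≤ X0 ∧ ∀ X : ℝ, X0 ≤ X → ∀ η τ : ℝ, 0 ≤ η → 1 / 10 ≤ τ → τ + η ≤ 2 →
    ∑ q ∈ P X τ (τ + η), 1 / (q : ℝ) ≤ η / τ + C / Real.log X := by
  obtain ⟨C, X0, hC, hX0, h⟩ := m2_upper
  refine ⟨C, X0, hC, hX0, ?_⟩
  intro X hX η τ hη hτ hτη
  have h1 := h X hX τ (τ + η) hτ (by linarith) hτη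
  have hτ0 : 0 < τ := by linarith
  have h2 : Real.log ((τ + η) / τ) ≤ η / τ := by
    have h3 := Real.log_le_sub_one_of_pos (div_pos (by linarith : 0 < τ + η) hτ0)
    rw [add_div, div_self hτ0.ne'] at h3
    rw [add_div, div_self hτ0.ne']
    linarith
  linarith

end Pool.Agent.NUM
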