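import Pool.Agent.NUM.W0
import Pool.Agent.NUM.D1
import Pool.Agent.NUM.M1

/-!
# [NUM-D3w] the mass of the members of `A` with `r + 1` prime factors
-/

set_option autoImplicit false

namespace Pool.Agent.NUM

open Finset

/-- removing a prime factor from a squarefree number -/
theorem erase_facts {n q : ℕ} (hn : Squarefree n) (hq : q ∈ n.primeFactors) :
    ∃ m : ℕ, n = q * m ∧ Squarefree m ∧ m.primeFactors = n.primeFactors.erase q ∧ m ≠ 0 := by
  have hqp := Nat.prime_of_mem_primeFactors hq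
  obtain ⟨m, hm⟩ := Nat.dvd_of_mem_primeFactors hq
  have hsq : Squarefree m := by
    rw [hm] at hn
    exact hn.squarefree_of_dvd (Dvd.intro_left q rfl)
  have hm0 : m ≠ 0 := hsq.ne_zero
  have hqm : ¬ q ∣ m := by
    intro h
    rw [hm] at hn
    have := hn q (mul_dvd_mul_left q h)
    exact hqp.not_isUnit this
  refine ⟨m, hm, hsq, ?_, hm0⟩
  rw [hm, Nat.primeFactors_mul hqp.ne_zero hm0, hqp.primeFactors]
  ext x
  simp only [Finset.mem_erase, Finset.mem_union, Finset.mem_singleton]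
  constructor
  · intro h
    refine ⟨?_, Or.inr h⟩
    rintro rfl
    exact hqm (Nat.dvd_of_mem_primeFactors h)
  · rintro ⟨h1, h2 | h2⟩
    · exact absurd h2 h1
    · exact h2

/-- double counting: pairs `(q, m)` with `q m = n` -/
theorem count_le {κ : Type*} [DecidableEq κ] (T : Finset κ) (φ : κ → ℕ) (h : κ → ℝ) (n k : ℕ)
    (f : ℕ → κ) (hf : Set.InjOn f n.primeFactors) (hT : ∀ q ∈ n.primeFactors, f q ∈ T)
    (hφ : ∀ q ∈ n.primeFactors, φ (f q) = n) (hh : ∀ t ∈ T, φ t = n → h t = 1 / (n : ℝ))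
    (hk : n.primeFactors.card = k) :
    (k : ℝ) * (1 / (n : ℝ)) ≤ ∑ t ∈ T.filter (fun t => φ t = n), h t := by
  rw [Finset.sum_congr rfl (g := fun _ => 1 / (n : ℝ)) (fun t ht =>
    hh t (Finset.mem_filter.1 ht).1 (Finset.mem_filter.1 ht).2), Finset.sum_const, nsmul_eq_mul]
  apply mul_le_mul_of_nonneg_right _ (by positivity)
  rw [← hk]
  have : (n.primeFactors.image f).card ≤ (T.filter (fun t => φ t = n)).card := by
    apply Finset.card_le_card
    intro t ht
    obtain ⟨q, hq, rfl⟩ := Finset.mem_image.1 ht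
    exact Finset.mem_filter.2 ⟨hT q hq, hφ q hq⟩
  rw [Finset.card_image_of_injOn hf] at this
  exact_mod_cast this

/-- [D3] Proof. As the step of `R_mass`, with the pairs `(q, m)`, `m ∈ R X r (2 - (r + 1) a0)`, `q ∈ P X (T1 - u X m) (T2 - u X m)`; for
`n ∈ AkW X T1 T2 (r + 1)`, `q ∣ n`, `m = n / q`: `u X m = u X n - u X q ≤ 2 - a0` (`= r a0 + (2 - (r + 1) a0)`); the inner sum is at most
`(T2 - T1) / (a0 - 2 / 100000) + C / log X` by `last_upper` (`τ = T1 - u X m ≥ a0 - 2 / 100000`). -/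
theorem AkW_mass (r : ℕ) (hr : r ≤ 5) : ∃ C X0 : ℝ, 0 < C ∧ 2 ≤ X0 ∧ ∀ X : ℝ, X0 ≤ X → ∀ T1 T2 : ℝ, 2 - 2 / 100000 ≤ T1 → T1 ≤ T2 →
    T2 ≤ 2 → ((r : ℝ) + 1) * ∑ n ∈ AkW X T1 T2 (r + 1), 1 / (n : ℝ) ≤
      ((T2 - T1) / (a0 - 2 / 100000) + C / Real.log X) * ∑ m ∈ R X r (2 - (r + 1) * a0), 1 / (m : ℝ) := by
  obtain ⟨C, X0, hC, hX0, H⟩ := last_upper
  refine ⟨C, X0, hC, hX0, ?_⟩
  intro X hX T1 T2 hT1 hT hT2
  obtain ⟨η, hηd⟩ : ∃ η : ℝ, η = T2 - T1 := ⟨_, rfl⟩
  rw [← hηd]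
  have hη : 0 ≤ η := by linarith
  have hX1 : 1 < X := by linarith
  have ha0 : a0 = 333 / 1000 := rfl
  have hs : (r : ℝ) * a0 + (2 - (r + 1) * a0) ≤ 2 := by rw [ha0]; linarith
  let T : Finset (Σ _ : ℕ, ℕ) := (R X r (2 - (r + 1) * a0)).sigma
    (fun m => P X (T1 - u X m) (T2 - u X m))
  have hstep : ∑ n ∈ AkW X T1 T2 (r + 1), ((r + 1 : ℕ) : ℝ) * (1 / (n : ℝ)) ≤
      ∑ t ∈ T, 1 / ((t.1 : ℝ) * t.2) := by
    apply sum_fiber_le (AkW X T1 T2 (r + 1)) T (fun t => t.2 * t.1)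
      (fun n => ((r + 1 : ℕ) : ℝ) * (1 / (n : ℝ))) (fun t => 1 / ((t.1 : ℝ) * t.2))
    · intro t _
      positivity
    · intro n hn
      rw [mem_AkW, mem_AW hX1 (by linarith)] at hn
      obtain ⟨⟨⟨h1, h2⟩, h3, h4⟩, h5⟩ := hn
      apply count_le T (fun t => t.2 * t.1) (fun t => 1 / ((t.1 : ℝ) * t.2)) n (r + 1)
        (fun q => ⟨n / q, q⟩)
      · intro q _ q' _ h
        have : (⟨n / q, q⟩ : Σ _ : ℕ, ℕ) = ⟨n / q', q'⟩ := h
        have h7 := congrArg (fun t : Σ _ : ℕ, ℕ => t.2) this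
        exact h7
      · intro q hq
        obtain ⟨m, hm, hm1, hm2, hm0⟩ := erase_facts h3 hq
        have hqp := Nat.prime_of_mem_primeFactors hq
        have hnq : n / q = m := by rw [hm]; exact Nat.mul_div_cancel_left m hqp.pos
        have hu : u X n = u X q + u X m := by rw [hm, u_mul X hqp.ne_zero hm0]
        have hq4 := h4 q hq
        simp only [T, Finset.mem_sigma]
        rw [hnq, mem_R hX1 hs, mem_P hX1 (by linarith [u_nonneg hX1 m])]
        refine ⟨⟨hm1, ?_, ?_, ?_⟩, hqp, ?_, ?_⟩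
        · intro q' hq'
          rw [hm2] at hq'
          exact h4 q' (Finset.mem_of_mem_erase hq')
        · rw [hm2, Finset.card_erase_of_mem hq, h5]; rfl
        · linarith
        · linarith
        · linarith
      · intro q hq
        exact Nat.mul_div_cancel' (Nat.dvd_of_mem_primeFactors hq)
      · intro t _ ht
        rw [← ht]
        push_cast
        rw [mul_comm]
      · exact h5
  have hin : ∑ t ∈ T, 1 / ((t.1 : ℝ) * t.2) ≤
      (η / (a0 - 2 / 100000) + C / Real.log X) * ∑ m ∈ R X r (2 - (r + 1) * a0), 1 / (m : ℝ) := by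
    simp only [T]
    rw [Finset.sum_sigma, Finset.mul_sum]
    refine Finset.sum_le_sum (fun m hm => ?_)
    have hm' := (mem_R hX1 hs).1 hm
    have hum : u X m ≤ 2 - a0 := by
      have := hm'.2.2.2
      linarith
    have h6 := H X hX η (T1 - u X m) hη (by rw [ha0] at hum; linarith)
      (by linarith [u_nonneg hX1 m])
    have e1 : T1 - u X m + η = T2 - u X m := by rw [hηd]; ring
    rw [e1] at h6
    have h7 : η / (T1 - u X m) ≤ η / (a0 - 2 / 100000) := by
      apply div_le_div_of_nonneg_left hη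
      · rw [ha0]; linarith
      · linarith
    have h8 : ∑ q ∈ P X (T1 - u X m) (T2 - u X m), 1 / ((m : ℝ) * q) =
        (1 / (m : ℝ)) * ∑ q ∈ P X (T1 - u X m) (T2 - u X m), 1 / (q : ℝ) := by
      rw [Finset.mul_sum]
      refine Finset.sum_congr rfl (fun q _ => ?_)
      rw [one_div_mul_one_div]
    rw [h8, mul_comm]
    apply mul_le_mul_of_nonneg_right _ (by positivity)
    linarith
  refine le_trans (le_of_eq ?_) (hstep.trans hin)
  rw [Finset.mul_sum]
  push_cast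
  rfl

end Pool.Agent.NUM
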