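import Mathlib

/-!
# [NUM-Defs] the numeric block of the sieve for primes `2 k p + 1`: definitions

`X` is the (large, real) scale, `u X m = log m / log X` is the exponent of `m`.
-/

set_option autoImplicit false

namespace Pool.Agent.NUM

open Finset

/-- the exponent of `m` with respect to `X` -/
noncomputable def u (X : ℝ) (m : ℕ) : ℝ := Real.log m / Real.log X

/-- the weight of a product of two primes -/
noncomputable def psi (X : ℝ) (m : ℕ) : ℝ := min 1 (8 * u X m - 6)

/-- the sieve weight of `n` at level `X ^ (1 - e)` -/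
noncomputable def G (X e : ℝ) (n : ℕ) : ℝ :=
  1 - ∑ q ∈ n.primeFactors, (if (q : ℝ) ≤ X ^ (1 - e) then (1 : ℝ) else 0)
    + ∑ q ∈ n.primeFactors, ∑ q' ∈ n.primeFactors,
        (if q < q' ∧ ((q * q' : ℕ) : ℝ) ≤ X ^ (1 - e) then psi X (q * q') else 0)

/-- the integers `X ^ (2 - 2 η) < n ≤ X ^ (2 - η)` -/
noncomputable def rng (X η : ℝ) : Finset ℕ := Finset.Ioc ⌊X ^ (2 - 2 * η)⌋₊ ⌊X ^ (2 - η)⌋₊

/-- all prime factors of `n` are at least `X ^ a` -/
def Rough (X a : ℝ) (n : ℕ) : Prop := ∀ q ∈ n.primeFactors, X ^ a ≤ (q : ℝ)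

/-- the sifting exponent -/
noncomputable def a0 : ℝ := 333 / 1000

/-- `n` is a product of two distinct primes larger than the level -/
def Gap (X e : ℝ) (n : ℕ) : Prop :=
  ∃ q q' : ℕ, q.Prime ∧ q'.Prime ∧ q < q' ∧ n = q * q' ∧ X ^ (1 - e) < (q : ℝ)

open Classical in
/-- the indicator function of `Gap` -/
noncomputable def gapI (X e : ℝ) (n : ℕ) : ℝ := if Gap X e n then 1 else 0

open Classical in
/-- the squarefree rough numbers of the range -/
noncomputable def A (X η : ℝ) : Finset ℕ :=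
  (rng X η).filter (fun n => Squarefree n ∧ Rough X a0 n)

/-- the members of `A` with `k` prime factors -/
noncomputable def Ak (X η : ℝ) (k : ℕ) : Finset ℕ :=
  (A X η).filter (fun n => n.primeFactors.card = k)

/-- the primes with exponent in `[α, β]` (for `β ≤ 2`) -/
noncomputable def P (X α β : ℝ) : Finset ℕ :=
  (Finset.Icc 1 ⌊X ^ (2 : ℝ)⌋₊).filter (fun q => q.Prime ∧ α ≤ u X q ∧ u X q ≤ β)

/-- the squarefree rough numbers up to `X ^ 2` with `r` prime factors and exponent at most `r a0 + s` -/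
noncomputable def R (X : ℝ) (r : ℕ) (s : ℝ) : Finset ℕ :=
  (Finset.Icc 1 ⌊X ^ (2 : ℝ)⌋₊).filter (fun n => Squarefree n ∧ (∀ q ∈ n.primeFactors, a0 ≤ u X q) ∧
    n.primeFactors.card = r ∧ u X n ≤ r * a0 + s)

/-- `ρ(v) = max 0 (7 - 8 v)` -/
noncomputable def rho (v : ℝ) : ℝ := max 0 (7 - 8 * v)

/-- the bound for one panel: `∑ 1 / (q (c - u q))` over the primes `q` with exponent in `[a, b]` -/
noncomputable def chi (a b c : ℝ) : ℝ :=
  (max 0 (c - a - b) * ((b ^ 2 - a ^ 2) / (2 * a * b)) + (b - a)) / ((c - a) * (c - b))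

/-- the sum over the third prime -/
noncomputable def BX (X v : ℝ) : ℝ :=
  ∑ q ∈ P X a0 ((2 - v) / 2), 1 / ((q : ℝ) * (2 - 2 / 100000 - v - u X q))

/-- the weight of a pair of primes (three prime factors): `v = u + u'` -/
noncomputable def F3 (X : ℝ) (q q' : ℕ) : ℝ :=
  rho (u X q + u X q') / (2 - 2 / 100000 - (u X q + u X q')) +
    (if 9999 / 10000 ≤ u X q + u X q' ∧ u X q + 2 * u X q' ≤ 2 then
      2 / (2 - 2 / 100000 - (u X q + u X q')) else 0)

/-- the weight of a pair of primes (four prime factors) -/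
noncomputable def F4 (X : ℝ) (q q' : ℕ) : ℝ :=
  rho (u X q + u X q') * BX X (u X q + u X q')

/-- the sum over the pairs of primes (three prime factors) -/
noncomputable def S3 (X : ℝ) : ℝ :=
  ∑ q ∈ P X a0 1, ∑ q' ∈ (P X a0 1).filter (fun q' => q < q'), F3 X q q' / ((q : ℝ) * q')

/-- the sum over the pairs of primes (four prime factors) -/
noncomputable def S4 (X : ℝ) : ℝ :=
  ∑ q ∈ P X a0 1, ∑ q' ∈ (P X a0 1).filter (fun q' => q < q'), F4 X q q' / ((q : ℝ) * q')

/-- the sum over the two largest prime factors `q3 < q4` when the product of the others has exponent `v` -/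
noncomputable def Q (X η v : ℝ) : ℝ :=
  ∑ q ∈ P X a0 ((2 - v) / 2), ∑ q' ∈ P X (2 - 2 * η - v - u X q) (2 - η - v - u X q), 1 / ((q : ℝ) * q')

/-- the mass of the pairs of primes `q`, `q'` with exponents `lo ≤ u ≤ d / 2`, `c ≤ u + u' ≤ d` -/
noncomputable def Mc (X lo c d : ℝ) : ℝ :=
  ∑ q ∈ P X lo (d / 2), ∑ q' ∈ P X (c - u X q) (d - u X q), 1 / ((q : ℝ) * q')

end Pool.Agent.NUM
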