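import Pool.Agent.NUM.B0

/-!
# [NUM-G1] sums over pairs
-/

set_option autoImplicit false

namespace Pool.Agent.NUM

open Finset

/-- the sum of a linear function over the pairs -/
theorem pair_lin (S : Finset ℕ) (w : ℕ → ℝ) (α β : ℝ) :
    ∑ q ∈ S, ∑ q' ∈ S, (if q < q' then α + β * (w q + w q') else 0) =
      α * ((S.card : ℝ) * (S.card - 1) / 2) + β * ((S.card - 1) * ∑ q ∈ S, w q) := by
  induction S using Finset.induction_on_max with
  | empty => simp
  | insert m S hm ih =>
    have hmS : m ∉ S := fun h => lt_irrefl m (hm m h)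
    have h1 : ∑ q' ∈ insert m S, (if m < q' then α + β * (w m + w q') else 0) = 0 := by
      refine Finset.sum_eq_zero (fun q' hq' => ?_)
      rw [Finset.mem_insert] at hq'
      rcases hq' with rfl | hq'
      · rw [if_neg (lt_irrefl _)]
      · rw [if_neg (not_lt.2 (hm q' hq').le)]
    have h2 : ∀ q ∈ S, ∑ q' ∈ insert m S, (if q < q' then α + β * (w q + w q') else 0) =
        (α + β * (w q + w m)) + ∑ q' ∈ S, (if q < q' then α + β * (w q + w q') else 0) := by
      intro q hq
      rw [Finset.sum_insert hmS, if_pos (hm q hq)]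
    have h3 : ∑ q ∈ S, (α + β * (w q + w m)) = S.card * α + β * (∑ q ∈ S, w q + S.card * w m) := by
      rw [Finset.sum_add_distrib, Finset.sum_const, nsmul_eq_mul, ← Finset.mul_sum, Finset.sum_add_distrib,
        Finset.sum_const, nsmul_eq_mul]
    rw [Finset.sum_insert hmS, h1, Finset.sum_congr rfl h2, Finset.sum_add_distrib, ih, h3,
      Finset.card_insert_of_notMem hmS, Finset.sum_insert hmS]
    push_cast
    ring

/-- explicit double sum over three elements -/
theorem pair_three (f : ℕ → ℕ → ℝ) {a b c : ℕ} (hab : a < b) (hbc : b < c) :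
    ∑ q ∈ ({a, b, c} : Finset ℕ), ∑ q' ∈ ({a, b, c} : Finset ℕ), (if q < q' then f q q' else 0) =
      f a b + f a c + f b c := by
  have hac := hab.trans hbc
  have na : a ∉ ({b, c} : Finset ℕ) := by
    simp only [Finset.mem_insert, Finset.mem_singleton]; omega
  have nb : b ∉ ({c} : Finset ℕ) := by
    simp only [Finset.mem_singleton]; omega
  simp only [Finset.sum_insert na, Finset.sum_insert nb, Finset.sum_singleton]
  rw [if_neg (lt_irrefl a), if_pos hab, if_pos hac, if_neg (not_lt.2 hab.le), if_neg (lt_irrefl b), if_pos hbc,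
    if_neg (not_lt.2 hac.le), if_neg (not_lt.2 hbc.le), if_neg (lt_irrefl c)]
  ring

/-- explicit double sum over four elements -/
theorem pair_four (f : ℕ → ℕ → ℝ) {a b c d : ℕ} (hab : a < b) (hbc : b < c) (hcd : c < d) :
    ∑ q ∈ ({a, b, c, d} : Finset ℕ), ∑ q' ∈ ({a, b, c, d} : Finset ℕ), (if q < q' then f q q' else 0) =
      f a b + f a c + f a d + f b c + f b d + f c d := by
  have hac := hab.trans hbc
  have had := hac.trans hcd
  have hbd := hbc.trans hcd
  have na : a ∉ ({b, c, d} : Finset ℕ) := by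
    simp only [Finset.mem_insert, Finset.mem_singleton]; omega
  have nb : b ∉ ({c, d} : Finset ℕ) := by
    simp only [Finset.mem_insert, Finset.mem_singleton]; omega
  have nc : c ∉ ({d} : Finset ℕ) := by
    simp only [Finset.mem_singleton]; omega
  simp only [Finset.sum_insert na, Finset.sum_insert nb, Finset.sum_insert nc, Finset.sum_singleton]
  rw [if_neg (lt_irrefl a), if_pos hab, if_pos hac, if_pos had,
    if_neg (not_lt.2 hab.le), if_neg (lt_irrefl b), if_pos hbc, if_pos hbd,
    if_neg (not_lt.2 hac.le), if_neg (not_lt.2 hbc.le), if_neg (lt_irrefl c), if_pos hcd,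
    if_neg (not_lt.2 had.le), if_neg (not_lt.2 hbd.le), if_neg (not_lt.2 hcd.le), if_neg (lt_irrefl d)]
  ring

/-- sorted enumeration of a nonempty set: the maximum and the rest -/
theorem max_split (S : Finset ℕ) (k : ℕ) (h : S.card = k + 1) :
    ∃ (m : ℕ) (T : Finset ℕ), S = insert m T ∧ T.card = k ∧ ∀ x ∈ T, x < m := by
  have hne : S.Nonempty := by
    rw [← Finset.card_pos]; omega
  refine ⟨S.max' hne, S.erase (S.max' hne), (Finset.insert_erase (S.max'_mem hne)).symm, ?_, ?_⟩
  · rw [Finset.card_erase_of_mem (S.max'_mem hne), h]; rfl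
  · intro x hx
    rw [Finset.mem_erase] at hx
    exact lt_of_le_of_ne (S.le_max' x hx.2) hx.1

/-- sorted enumeration of a set with three elements -/
theorem sorted_three (S : Finset ℕ) (h : S.card = 3) : ∃ a b c : ℕ, a < b ∧ b < c ∧ S = {a, b, c} := by
  obtain ⟨c, T, hS, hT, hc⟩ := max_split S 2 h
  obtain ⟨b, U, hT', hU, hb⟩ := max_split T 1 hT
  obtain ⟨a, hU'⟩ := Finset.card_eq_one.1 hU
  refine ⟨a, b, c, hb a (by rw [hU']; simp), hc b (by rw [hT']; simp), ?_⟩
  rw [hS, hT', hU']
  ext x
  simp only [Finset.mem_insert, Finset.mem_singleton]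
  tauto

/-- sorted enumeration of a set with four elements -/
theorem sorted_four (S : Finset ℕ) (h : S.card = 4) :
    ∃ a b c d : ℕ, a < b ∧ b < c ∧ c < d ∧ S = {a, b, c, d} := by
  obtain ⟨d, T, hS, hT, hd⟩ := max_split S 3 h
  obtain ⟨a, b, c, hab, hbc, hT'⟩ := sorted_three T hT
  refine ⟨a, b, c, d, hab, hbc, hd c (by rw [hT']; simp), ?_⟩
  rw [hS, hT']
  ext x
  simp only [Finset.mem_insert, Finset.mem_singleton]
  tauto

end Pool.Agent.NUM
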