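import Pool.Agent.NUM.W0
import Pool.Agent.NUM.G1

/-!
# [NUM-G2w] the sieve weight on numbers with at most three prime factors
-/

set_option autoImplicit false

namespace Pool.Agent.NUM

open Finset

/-- [G2] `Gap` forces exactly two prime factors. -/
theorem gapI_eq_zero {X e : ℝ} {n : ℕ} (h : n.primeFactors.card ≠ 2) : gapI X e n = 0 := by
  unfold gapI
  rw [if_neg]
  rintro ⟨q, q', hq, hq', hlt, hn, -⟩
  apply h
  rw [hn, Nat.primeFactors_mul hq.ne_zero hq'.ne_zero, hq.primeFactors, hq'.primeFactors]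
  exact Finset.card_pair hlt.ne

theorem G2_prime {n a : ℕ} (S : Finset ℕ) (hS : n.primeFactors = S) (ha : a ∈ S) :
    a.Prime := by
  rw [← hS] at ha
  exact Nat.prime_of_mem_primeFactors ha

/-- [G2] Proof. A squarefree `n` with one prime factor is prime; `u X n > T1 > 1 - e`, so the first sum is `0`, the second is empty. -/
theorem G_oneW {X e T1 T2 : ℝ} (hX : 1 < X) (he : 0 < e) (he' : e ≤ 1 / 25000) (hT1 : 2 - e / 2 ≤ T1) (hT2 : T2 ≤ 2) {n : ℕ}
    (h : n ∈ AkW X T1 T2 1) : n.Prime ∧ G X e n = 1 := by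
  rw [mem_AkW] at h
  obtain ⟨hA, hc⟩ := h
  rw [mem_AW hX (by linarith)] at hA
  obtain ⟨⟨h1, h2⟩, hsq, h3⟩ := hA
  obtain ⟨q, hq⟩ := Finset.card_eq_one.mp hc
  have hqp : q.Prime := G2_prime {q} hq (Finset.mem_singleton_self q)
  have hn : n = q := by
    have := Nat.prod_primeFactors_of_squarefree hsq
    rw [hq, Finset.prod_singleton] at this
    exact this.symm
  refine ⟨by rw [hn]; exact hqp, ?_⟩
  rw [G_eq hX, hq]
  simp only [Finset.sum_singleton, lt_irrefl, false_and, if_false, add_zero]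
  rw [hn] at h1
  rw [if_neg (by linarith)]
  ring

/-- [G2] Proof. `n = q q'`, `q < q'`, exponents `w ≤ w'`, `w + w' > T1 > 2 (1 - e)`: the pair is not counted, `w' > 1 - e`;
if `w ≤ 1 - e`, `G = 0` and `Gap` is false; else `G = 1` and `Gap` is true. -/
theorem G_twoW {X e T1 T2 : ℝ} (hX : 1 < X) (he : 0 < e) (he' : e ≤ 1 / 25000) (hT1 : 2 - e / 2 ≤ T1) (hT2 : T2 ≤ 2) {n : ℕ}
    (h : n ∈ AkW X T1 T2 2) : G X e n = gapI X e n := by
  rw [mem_AkW] at h
  obtain ⟨hA, hc⟩ := h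
  rw [mem_AW hX (by linarith)] at hA
  obtain ⟨⟨h1, h2⟩, hsq, h3⟩ := hA
  obtain ⟨a, b, hab, hS⟩ : ∃ a b : ℕ, a < b ∧ n.primeFactors = {a, b} := by
    obtain ⟨a, b, hne, hS⟩ := Finset.card_eq_two.mp hc
    rcases lt_or_gt_of_ne hne with h | h
    · exact ⟨a, b, h, hS⟩
    · exact ⟨b, a, h, by rw [hS, Finset.pair_comm]⟩
  have hap : a.Prime := G2_prime _ hS (by simp)
  have hbp : b.Prime := G2_prime _ hS (by simp)
  have hn : n = a * b := by
    have := Nat.prod_primeFactors_of_squarefree hsq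
    rw [hS, Finset.prod_pair hab.ne] at this
    exact this.symm
  have hu : u X n = u X a + u X b := by rw [hn, u_mul X hap.ne_zero hbp.ne_zero]
  have hlt : u X a < u X b := u_lt hX hap.ne_zero hab
  rw [hu] at h1 h2
  have hG : G X e n = 1 - (if u X a ≤ 1 - e then (1 : ℝ) else 0) := by
    rw [G_eq hX, hS]
    rw [Finset.sum_pair hab.ne, Finset.sum_pair hab.ne, Finset.sum_pair hab.ne,
      Finset.sum_pair hab.ne]
    have e1 : ¬ (a < a ∧ u X a + u X a ≤ 1 - e) := fun h => lt_irrefl _ h.1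
    have e2 : ¬ (a < b ∧ u X a + u X b ≤ 1 - e) := fun h => by linarith [h.2]
    have e3 : ¬ (b < a ∧ u X b + u X a ≤ 1 - e) := fun h => by linarith [h.2]
    have e4 : ¬ (b < b ∧ u X b + u X b ≤ 1 - e) := fun h => lt_irrefl _ h.1
    rw [if_neg (by linarith : ¬ u X b ≤ 1 - e), if_neg e1, if_neg e2, if_neg e3, if_neg e4]
    ring
  rw [hG]
  unfold gapI
  by_cases ha : u X a ≤ 1 - e
  · rw [if_pos ha, if_neg]
    · ring
    · rintro ⟨q, q', hq, hq', hqq, hn', hlt'⟩
      rw [rpow_lt_iff hX hq.ne_zero] at hlt'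
      have hS' : n.primeFactors = {q, q'} := by
        rw [hn', Nat.primeFactors_mul hq.ne_zero hq'.ne_zero, hq.primeFactors, hq'.primeFactors]
        rfl
      rw [hS] at hS'
      have hqa : a ∈ ({q, q'} : Finset ℕ) := by rw [← hS']; simp
      have hqb : b ∈ ({q, q'} : Finset ℕ) := by rw [← hS']; simp
      rw [Finset.mem_insert, Finset.mem_singleton] at hqa hqb
      have haq : a = q := by omega
      rw [haq] at ha
      linarith
  · rw [if_neg ha, if_pos]
    · ring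
    · exact ⟨a, b, hap, hbp, hab, hn, (rpow_lt_iff hX hap.ne_zero _).mpr (not_le.mp ha)⟩

/-- [G2] Proof. Exponents `w1 ≤ w2 ≤ w3`, all `≥ a0`, sum `T` in `(T1, T2]`, `lam = 1 - e`. `w2 ≤ lam` (else `T > a0 + 2 lam > 2`).
If `w3 ≤ lam` then every pair has exponent `T - (third) ≥ T - lam > lam`, so `G = 1 - 3 = -2` and `w1 + w2 ≥ T1 - lam ≥ 9999 / 10000`.
If `w3 > lam` then the pairs with `w3` are not counted and `G = 1 - 2 + [w1 + w2 ≤ lam] min 1 (8 (w1 + w2) - 6)`; so `G ≤ 0` and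
`-G = rho (w1 + w2)` or (when `w1 + w2 > lam ≥ 9999 / 10000`) `-G = 1`. -/
theorem G_threeW {X e T1 T2 : ℝ} (hX : 1 < X) (he : 0 < e) (he' : e ≤ 1 / 25000) (hT1 : 2 - e / 2 ≤ T1) (hT2 : T2 ≤ 2) {n : ℕ}
    (h : n ∈ AkW X T1 T2 3) : G X e n ≤ 0 ∧ ∃ q1 q2 q3 : ℕ, q1.Prime ∧ q2.Prime ∧ q3.Prime ∧ q1 < q2 ∧ q2 < q3 ∧ n = q1 * q2 * q3 ∧
      a0 ≤ u X q1 ∧
      -G X e n ≤ rho (u X q1 + u X q2) + (if 9999 / 10000 ≤ u X q1 + u X q2 then 2 else 0) := by
  rw [mem_AkW] at h
  obtain ⟨hA, hc⟩ := h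
  rw [mem_AW hX (by linarith)] at hA
  obtain ⟨⟨h1, h2⟩, hsq, h3⟩ := hA
  obtain ⟨a, b, c, hab, hbc, hS⟩ := sorted_three _ hc
  have hap : a.Prime := G2_prime _ hS (by simp)
  have hbp : b.Prime := G2_prime _ hS (by simp)
  have hcp : c.Prime := G2_prime _ hS (by simp)
  have hab' : a ≠ b := hab.ne
  have hac' : a ≠ c := (hab.trans hbc).ne
  have hbc' : b ≠ c := hbc.ne
  have hn : n = a * b * c := by
    have := Nat.prod_primeFactors_of_squarefree hsq
    rw [hS, Finset.prod_insert (by simp [hab', hac']), Finset.prod_pair hbc'] at this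
    rw [← this]; ring
  have hu : u X n = u X a + u X b + u X c := by
    rw [hn, u_mul X (mul_ne_zero hap.ne_zero hbp.ne_zero) hcp.ne_zero,
      u_mul X hap.ne_zero hbp.ne_zero]
  have hlt1 : u X a < u X b := u_lt hX hap.ne_zero hab
  have hlt2 : u X b < u X c := u_lt hX hbp.ne_zero hbc
  have ha0 : a0 ≤ u X a := h3 a (by rw [hS]; simp)
  have ha0' : (333 : ℝ) / 1000 ≤ u X a := ha0
  rw [hu] at h1 h2
  have hb : u X b ≤ 1 - e := by
    by_contra hcon
    rw [not_le] at hcon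
    linarith
  have hab2 : u X a ≤ 1 - e := by linarith
  have hG : G X e n = 1 - (1 + 1 + (if u X c ≤ 1 - e then (1 : ℝ) else 0)) +
      (if u X a + u X b ≤ 1 - e then min 1 (8 * (u X a + u X b) - 6) else 0) := by
    rw [G_eq hX, hS]
    rw [Finset.sum_insert (by simp [hab', hac']), Finset.sum_pair hbc', if_pos hab2, if_pos hb]
    have hp := pair_three (fun q q' => if u X q + u X q' ≤ 1 - e then
      min 1 (8 * (u X q + u X q') - 6) else 0) hab hbc
    simp only [ite_and] at hp ⊢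
    rw [hp, if_neg (by linarith : ¬ u X a + u X c ≤ 1 - e),
      if_neg (by linarith : ¬ u X b + u X c ≤ 1 - e)]
    ring
  have hrho0 := rho_nonneg (u X a + u X b)
  by_cases hc1 : u X c ≤ 1 - e
  · have hv : ¬ u X a + u X b ≤ 1 - e := by linarith
    rw [if_pos hc1, if_neg hv] at hG
    refine ⟨by rw [hG]; norm_num, a, b, c, hap, hbp, hcp, hab, hbc, hn, ha0, ?_⟩
    rw [hG, if_pos (by linarith)]
    linarith
  · rw [if_neg hc1] at hG
    by_cases hv : u X a + u X b ≤ 1 - e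
    · rw [if_pos hv] at hG
      have hm : min 1 (8 * (u X a + u X b) - 6) ≤ 1 := min_le_left _ _
      refine ⟨by rw [hG]; linarith, a, b, c, hap, hbp, hcp, hab, hbc, hn, ha0, ?_⟩
      have hr : 1 - min 1 (8 * (u X a + u X b) - 6) ≤ rho (u X a + u X b) := by
        unfold rho
        rcases min_choice 1 (8 * (u X a + u X b) - 6) with h | h
        · rw [h]
          refine le_trans (by norm_num) (le_max_left _ _)
        · rw [h]
          refine le_trans (by linarith) (le_max_right _ _)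
      have hi : (0 : ℝ) ≤ (if 9999 / 10000 ≤ u X a + u X b then 2 else 0) := by
        split_ifs <;> norm_num
      rw [hG]
      linarith
    · rw [if_neg hv] at hG
      refine ⟨by rw [hG]; norm_num, a, b, c, hap, hbp, hcp, hab, hbc, hn, ha0, ?_⟩
      rw [hG, if_pos (by linarith)]
      linarith

end Pool.Agent.NUM
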