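import Pool.Agent.NUM.W0
import Pool.Agent.NUM.G1

/-!
# [NUM-G3w] the sieve weight on numbers with four prime factors
-/

set_option autoImplicit false

namespace Pool.Agent.NUM

open Finset

/-- the cost of a partition of the four primes into two pairs, `v` the smaller of the two exponents -/
noncomputable def sig (e v : ℝ) : ℝ := rho v + (if 1 - e < v then 1 else 0)

/-- the weight of a pair of exponent `v` -/
private noncomputable def G3_ph (e v : ℝ) : ℝ := if v ≤ 1 - e then min 1 (8 * v - 6) else 0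

private theorem G3_ph_eq {e v : ℝ} (he' : e ≤ 1 / 25000) : G3_ph e v = 1 - sig e v := by
  unfold G3_ph sig rho
  by_cases h : v ≤ 1 - e
  · rw [if_pos h, if_neg (not_lt.2 h), add_zero]
    rcases le_total (8 * v - 6) 1 with h1 | h1
    · rw [min_eq_right h1, max_eq_right (by linarith)]
      ring
    · rw [min_eq_left h1, max_eq_left (by linarith)]
      ring
  · rw [if_neg h, if_pos (not_le.1 h), max_eq_left]
    · ring
    · rw [not_le] at h
      linarith

private theorem G3_sig_ge {e v : ℝ} : 7 - 8 * v ≤ sig e v := by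
  unfold sig rho
  have h1 : 7 - 8 * v ≤ max 0 (7 - 8 * v) := le_max_right _ _
  split_ifs <;> linarith

private theorem G3_sig_nonneg {e v : ℝ} : 0 ≤ sig e v := by
  unfold sig rho
  have h1 : 0 ≤ max 0 (7 - 8 * v) := le_max_left _ _
  split_ifs <;> linarith

/-- the real computation -/
private theorem G3_real {e T1 T2 w1 w2 w3 w4 g : ℝ} (he : 0 < e) (he' : e ≤ 1 / 25000) (hT1 : 2 - e / 2 ≤ T1)
    (hT2 : T2 ≤ 2) (ha : a0 ≤ w1) (h12 : w1 ≤ w2) (h23 : w2 ≤ w3) (h34 : w3 ≤ w4)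
    (hT : T1 < w1 + w2 + w3 + w4) (hT' : w1 + w2 + w3 + w4 ≤ T2)
    (hg : g = 1 - ((if w1 ≤ 1 - e then (1 : ℝ) else 0) + (if w2 ≤ 1 - e then (1 : ℝ) else 0) +
      (if w3 ≤ 1 - e then (1 : ℝ) else 0) + (if w4 ≤ 1 - e then (1 : ℝ) else 0)) +
      (G3_ph e (w1 + w2) + G3_ph e (w1 + w3) + G3_ph e (w1 + w4) + G3_ph e (w2 + w3) +
        G3_ph e (w2 + w4) + G3_ph e (w3 + w4))) :
    g ≤ 0 ∧ -g ≤ sig e (min (w1 + w2) (w3 + w4)) + sig e (min (w1 + w3) (w2 + w4)) +
      sig e (min (w1 + w4) (w2 + w3)) := by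
  unfold a0 at ha
  have hw3 : w3 ≤ 1 - e := by
    by_contra hc
    rw [not_le] at hc
    linarith
  have hw2 : w2 ≤ 1 - e := h23.trans hw3
  have hw1 : w1 ≤ 1 - e := h12.trans hw2
  have hbig : ∀ v : ℝ, (w1 + w2 + w3 + w4) / 2 ≤ v → G3_ph e v = 0 := by
    intro v hv
    unfold G3_ph
    rw [if_neg]
    rw [not_le]
    linarith
  have e34 : G3_ph e (w3 + w4) = 0 := hbig _ (by linarith)
  have e24 : G3_ph e (w2 + w4) = 0 := hbig _ (by linarith)
  have m1 : min (w1 + w2) (w3 + w4) = w1 + w2 := min_eq_left (by linarith)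
  have m2 : min (w1 + w3) (w2 + w4) = w1 + w3 := min_eq_left (by linarith)
  have e14 : G3_ph e (w1 + w4) + G3_ph e (w2 + w3) = G3_ph e (min (w1 + w4) (w2 + w3)) := by
    rcases le_total (w1 + w4) (w2 + w3) with h | h
    · rw [min_eq_left h, hbig (w2 + w3) (by linarith), add_zero]
    · rw [min_eq_right h, hbig (w1 + w4) (by linarith), zero_add]
  have hg2 : g = 1 - (3 + (if w4 ≤ 1 - e then (1 : ℝ) else 0)) +
      (3 - (sig e (w1 + w2) + sig e (w1 + w3) + sig e (min (w1 + w4) (w2 + w3)))) := by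
    rw [hg, if_pos hw1, if_pos hw2, if_pos hw3, e34, e24]
    have h5 : G3_ph e (w1 + w2) + G3_ph e (w1 + w3) + G3_ph e (w1 + w4) + G3_ph e (w2 + w3) + 0 +
        0 = G3_ph e (w1 + w2) + G3_ph e (w1 + w3) + (G3_ph e (w1 + w4) + G3_ph e (w2 + w3)) := by
      ring
    rw [h5, e14, G3_ph_eq he', G3_ph_eq he', G3_ph_eq he']
    ring
  rw [m1, m2]
  have s1 := G3_sig_nonneg (e := e) (v := w1 + w2)
  have s2 := G3_sig_nonneg (e := e) (v := w1 + w3)
  have s3 := G3_sig_nonneg (e := e) (v := min (w1 + w4) (w2 + w3))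
  have t1 := G3_sig_ge (e := e) (v := w1 + w2)
  have t2 := G3_sig_ge (e := e) (v := w1 + w3)
  have t3 := G3_sig_ge (e := e) (v := min (w1 + w4) (w2 + w3))
  have t4 : min (w1 + w4) (w2 + w3) ≤ w2 + w3 := min_le_right _ _
  by_cases h4 : w4 ≤ 1 - e
  · rw [if_pos h4] at hg2
    constructor <;> linarith
  · rw [if_neg h4] at hg2
    rw [not_le] at h4
    constructor <;> linarith

/-- [G3] Proof. Exponents `w1 ≤ w2 ≤ w3 ≤ w4`, all `≥ a0`, sum `T` in `(T1, T2]`, `lam = 1 - e`, `φ v = [v ≤ lam] min 1 (8 v - 6)`. Of two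
complementary pairs the larger one has exponent `≥ T / 2 > lam` (not counted), so the sum over the six pairs is
`φ v1 + φ v2 + φ v3` with `v_i` the smaller exponents of the three partitions, and `φ v = 1 - sig e v`. `w3 ≤ lam`. If `w4 ≤ lam`:
`G = 1 - 4 + 3 - ∑ sig = -∑ sig ≤ 0`. If `w4 > lam`: `G = 1 - 3 + 3 - ∑ sig = 1 - ∑ sig`, and all three `v_i` are the pairs among `w1, w2, w3`, whose
exponents sum to `2 (w1 + w2 + w3) ≤ 2 (2 - lam)`, so `∑ φ ≤ 8 * 2 (1 + e) - 18 < 0` and `G ≤ 1 - 3 < 0`. -/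
theorem G_fourW {X e T1 T2 : ℝ} (hX : 1 < X) (he : 0 < e) (he' : e ≤ 1 / 25000) (hT1 : 2 - e / 2 ≤ T1) (hT2 : T2 ≤ 2) {n : ℕ}
    (h : n ∈ AkW X T1 T2 4) : G X e n ≤ 0 ∧ ∃ q1 q2 q3 q4 : ℕ, q1.Prime ∧ q2.Prime ∧ q3.Prime ∧ q4.Prime ∧ q1 < q2 ∧ q2 < q3 ∧
      q3 < q4 ∧ n = q1 * q2 * q3 * q4 ∧ a0 ≤ u X q1 ∧
      -G X e n ≤ sig e (min (u X q1 + u X q2) (u X q3 + u X q4)) + sig e (min (u X q1 + u X q3) (u X q2 + u X q4)) +
        sig e (min (u X q1 + u X q4) (u X q2 + u X q3)) := by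
  classical
  have hη1 : (0 : ℝ) ≤ T1 := by linarith
  unfold AkW at h
  rw [Finset.mem_filter] at h
  obtain ⟨hA, hcard⟩ := h
  unfold AW at hA
  rw [Finset.mem_filter] at hA
  obtain ⟨hr, hsq, hrough⟩ := hA
  obtain ⟨a, b, c, d, hab, hbc, hcd, hS⟩ := sorted_four n.primeFactors hcard
  have hmem : ∀ q ∈ ({a, b, c, d} : Finset ℕ), q.Prime ∧ a0 ≤ u X q := by
    intro q hq
    rw [← hS] at hq
    have hp := Nat.prime_of_mem_primeFactors hq
    exact ⟨hp, (rpow_le_iff hX hp.ne_zero a0).1 (hrough q hq)⟩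
  obtain ⟨pa, ha⟩ := hmem a (by simp)
  obtain ⟨pb, hb⟩ := hmem b (by simp)
  obtain ⟨pc, hc⟩ := hmem c (by simp)
  obtain ⟨pd, hd⟩ := hmem d (by simp)
  have na : a ∉ ({b, c, d} : Finset ℕ) := by
    simp only [Finset.mem_insert, Finset.mem_singleton]
    omega
  have nb : b ∉ ({c, d} : Finset ℕ) := by
    simp only [Finset.mem_insert, Finset.mem_singleton]
    omega
  have nc : c ∉ ({d} : Finset ℕ) := by
    simp only [Finset.mem_singleton]
    omega
  have hn : n = a * b * c * d := by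
    conv_lhs => rw [← Nat.prod_primeFactors_of_squarefree hsq]
    rw [hS, Finset.prod_insert na, Finset.prod_insert nb, Finset.prod_insert nc,
      Finset.prod_singleton]
    ring
  have hu : u X n = u X a + u X b + u X c + u X d := by
    rw [u_eq_sum X hsq, hS, Finset.sum_insert na, Finset.sum_insert nb, Finset.sum_insert nc,
      Finset.sum_singleton]
    ring
  rw [mem_rngW hX hη1, hu] at hr
  have hG : G X e n = 1 - ((if u X a ≤ 1 - e then (1 : ℝ) else 0) +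
      (if u X b ≤ 1 - e then (1 : ℝ) else 0) +
      (if u X c ≤ 1 - e then (1 : ℝ) else 0) + (if u X d ≤ 1 - e then (1 : ℝ) else 0)) +
      (G3_ph e (u X a + u X b) + G3_ph e (u X a + u X c) + G3_ph e (u X a + u X d) +
        G3_ph e (u X b + u X c) + G3_ph e (u X b + u X d) + G3_ph e (u X c + u X d)) := by
    unfold G
    rw [hS]
    have h1 : ∑ q ∈ ({a, b, c, d} : Finset ℕ), (if (q : ℝ) ≤ X ^ (1 - e) then (1 : ℝ) else 0) =
        (if u X a ≤ 1 - e then (1 : ℝ) else 0) + (if u X b ≤ 1 - e then (1 : ℝ) else 0) +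
        (if u X c ≤ 1 - e then (1 : ℝ) else 0) + (if u X d ≤ 1 - e then (1 : ℝ) else 0) := by
      rw [Finset.sum_insert na, Finset.sum_insert nb, Finset.sum_insert nc, Finset.sum_singleton]
      simp only [le_rpow_iff hX pa.ne_zero, le_rpow_iff hX pb.ne_zero, le_rpow_iff hX pc.ne_zero,
        le_rpow_iff hX pd.ne_zero]
      ring
    have h2 : ∑ q ∈ ({a, b, c, d} : Finset ℕ), ∑ q' ∈ ({a, b, c, d} : Finset ℕ),
        (if q < q' ∧ ((q * q' : ℕ) : ℝ) ≤ X ^ (1 - e) then psi X (q * q') else 0) =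
        ∑ q ∈ ({a, b, c, d} : Finset ℕ), ∑ q' ∈ ({a, b, c, d} : Finset ℕ),
        (if q < q' then G3_ph e (u X q + u X q') else 0) := by
      refine Finset.sum_congr rfl fun q hq => Finset.sum_congr rfl fun q' hq' => ?_
      have h3 := (hmem q hq).1.ne_zero
      have h4 := (hmem q' hq').1.ne_zero
      have h5 : ((q * q' : ℕ) : ℝ) ≤ X ^ (1 - e) ↔ u X q + u X q' ≤ 1 - e := by
        rw [le_rpow_iff hX (mul_ne_zero h3 h4), u_mul X h3 h4]
      by_cases h6 : q < q'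
      · rw [if_pos h6]
        unfold G3_ph
        by_cases h7 : u X q + u X q' ≤ 1 - e
        · rw [if_pos ⟨h6, h5.2 h7⟩, if_pos h7]
          unfold psi
          rw [u_mul X h3 h4]
        · rw [if_neg (fun h8 => h7 (h5.1 h8.2)), if_neg h7]
      · rw [if_neg (fun h8 => h6 h8.1), if_neg h6]
    rw [h1, h2, pair_four (fun q q' => G3_ph e (u X q + u X q')) hab hbc hcd]
  have key := G3_real he he' hT1 hT2 ha (u_le hX hab.le) (u_le hX hbc.le) (u_le hX hcd.le)
    hr.1 hr.2 hG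
  exact ⟨key.1, a, b, c, d, pa, pb, pc, pd, hab, hbc, hcd, hn, ha, key.2⟩

end Pool.Agent.NUM
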