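import Pool.Agent.NUM.B0

/-!
# [NUM-W0] general windows `(X ^ T1, X ^ T2]`
-/

set_option autoImplicit false

namespace Pool.Agent.NUM

open Finset

/-- the integers `X ^ T1 < n ≤ X ^ T2` -/
noncomputable def rngW (X T1 T2 : ℝ) : Finset ℕ := Finset.Ioc ⌊X ^ T1⌋₊ ⌊X ^ T2⌋₊

open Classical in
/-- the squarefree rough numbers of the window -/
noncomputable def AW (X T1 T2 : ℝ) : Finset ℕ :=
  (rngW X T1 T2).filter (fun n => Squarefree n ∧ Rough X a0 n)

/-- the members of `AW` with `k` prime factors -/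
noncomputable def AkW (X T1 T2 : ℝ) (k : ℕ) : Finset ℕ :=
  (AW X T1 T2).filter (fun n => n.primeFactors.card = k)

/-- the sum over the two largest prime factors `q3 < q4` when the product of the others has exponent `v` -/
noncomputable def QW (X T1 T2 v : ℝ) : ℝ :=
  ∑ q ∈ P X a0 ((2 - v) / 2), ∑ q' ∈ P X (T1 - v - u X q) (T2 - v - u X q), 1 / ((q : ℝ) * q')

/-- membership in the window in terms of exponents -/
theorem mem_rngW {X T1 T2 : ℝ} (hX : 1 < X) (hT : 0 ≤ T1) {n : ℕ} :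
    n ∈ rngW X T1 T2 ↔ T1 < u X n ∧ u X n ≤ T2 := by
  have hX0 : 0 < X := by linarith
  unfold rngW
  rw [Finset.mem_Ioc]
  rcases Nat.eq_zero_or_pos n with rfl | hn
  · constructor
    · intro h; exact absurd h.1 (Nat.not_lt_zero _)
    · intro h
      rw [u_zero] at h
      exfalso; linarith [h.1]
  · rw [Nat.floor_lt (Real.rpow_pos_of_pos hX0 _).le, Nat.le_floor_iff (Real.rpow_pos_of_pos hX0 _).le,
      rpow_lt_iff hX hn.ne', le_rpow_iff hX hn.ne']

theorem ne_zero_of_mem_rngW {X T1 T2 : ℝ} (hX : 1 < X) (hT : 0 ≤ T1) {n : ℕ} (h : n ∈ rngW X T1 T2) : n ≠ 0 := by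
  rintro rfl
  rw [mem_rngW hX hT, u_zero] at h
  linarith [h.1]

/-- membership in `AW` -/
theorem mem_AW {X T1 T2 : ℝ} (hX : 1 < X) (hT : 0 ≤ T1) {n : ℕ} :
    n ∈ AW X T1 T2 ↔ (T1 < u X n ∧ u X n ≤ T2) ∧ Squarefree n ∧ ∀ q ∈ n.primeFactors, a0 ≤ u X q := by
  classical
  simp only [AW, Finset.mem_filter, mem_rngW hX hT]
  refine and_congr_right (fun _ => and_congr_right (fun _ => ?_))
  unfold Rough
  refine forall₂_congr (fun q hq => ?_)
  rw [rpow_le_iff hX (Nat.prime_of_mem_primeFactors hq).ne_zero]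

theorem mem_AkW {X T1 T2 : ℝ} {k n : ℕ} : n ∈ AkW X T1 T2 k ↔ n ∈ AW X T1 T2 ∧ n.primeFactors.card = k := by
  classical
  simp only [AkW, Finset.mem_filter]

end Pool.Agent.NUM
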