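import Pool.Agent.NUM.G1
import Pool.Agent.NUM.W0

/-!
# [NUM-G4w] the sieve weight on numbers with five or six prime factors
-/

set_option autoImplicit false

namespace Pool.Agent.NUM

open Finset

/-- the number of pairs of prime factors whose product exceeds the level -/
noncomputable def big (X e : ℝ) (n : ℕ) : ℝ :=
  ∑ q ∈ n.primeFactors, ∑ q' ∈ n.primeFactors, (if q < q' ∧ 1 - e < u X q + u X q' then (1 : ℝ) else 0)

/-- lower bound of a sum -/
theorem card_a0_le (S : Finset ℕ) (w : ℕ → ℝ) (h : ∀ q ∈ S, a0 ≤ w q) : (S.card : ℝ) * a0 ≤ ∑ q ∈ S, w q := by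
  rw [← nsmul_eq_mul]
  exact Finset.card_nsmul_le_sum _ _ _ h

/-- one member -/
theorem single_bound (S : Finset ℕ) (w : ℕ → ℝ) (h : ∀ q ∈ S, a0 ≤ w q) {q : ℕ} (hq : q ∈ S) :
    w q + ((S.card : ℝ) - 1) * a0 ≤ ∑ q ∈ S, w q := by
  have h1 := card_a0_le (S.erase q) w (fun r hr => h r (Finset.mem_of_mem_erase hr))
  rw [Finset.card_erase_of_mem hq, Nat.cast_sub (Finset.card_pos.2 ⟨q, hq⟩)] at h1
  rw [← Finset.add_sum_erase S w hq]
  push_cast at h1
  linarith

/-- two members -/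
theorem pair_bound (S : Finset ℕ) (w : ℕ → ℝ) (h : ∀ q ∈ S, a0 ≤ w q) {q q' : ℕ} (hq : q ∈ S) (hq' : q' ∈ S)
    (hne : q ≠ q') : w q + w q' + ((S.card : ℝ) - 2) * a0 ≤ ∑ q ∈ S, w q := by
  have hq'' : q' ∈ S.erase q := Finset.mem_erase.2 ⟨hne.symm, hq'⟩
  have h1 := single_bound (S.erase q) w (fun r hr => h r (Finset.mem_of_mem_erase hr)) hq''
  rw [Finset.card_erase_of_mem hq, Nat.cast_sub (Finset.card_pos.2 ⟨q, hq⟩)] at h1
  rw [← Finset.add_sum_erase S w hq]
  push_cast at h1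
  linarith

/-- `k a0 ≤ u X n ≤ 2`, and `u X n > 0` -/
theorem card_boundsW {X T1 T2 : ℝ} (hX : 1 < X) (hT1 : 1 ≤ T1) (hT2 : T2 ≤ 2) {n : ℕ} (h : n ∈ AW X T1 T2) :
    1 ≤ n.primeFactors.card ∧ n.primeFactors.card ≤ 6 := by
  obtain ⟨⟨h1, h2⟩, h3, h4⟩ := (mem_AW hX (by linarith)).1 h
  have hsum := card_a0_le n.primeFactors (u X) h4
  rw [← u_eq_sum X h3] at hsum
  constructor
  · rw [Nat.one_le_iff_ne_zero]
    intro h0
    rw [Finset.card_eq_zero] at h0
    rw [u_eq_sum X h3, h0, Finset.sum_empty] at h1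
    linarith
  · by_contra hc
    have h7 : (7 : ℝ) ≤ n.primeFactors.card := by exact_mod_cast (by omega : 7 ≤ n.primeFactors.card)
    have ha : a0 = 333 / 1000 := rfl
    rw [ha] at hsum
    linarith

/-- the first sum -/
theorem first_sum (S : Finset ℕ) (w : ℕ → ℝ) (e : ℝ) (h : ∀ q ∈ S, w q ≤ 1 - e) :
    ∑ q ∈ S, (if w q ≤ 1 - e then (1 : ℝ) else 0) = S.card := by
  rw [Finset.sum_congr rfl (fun q hq => if_pos (h q hq)), Finset.sum_const, nsmul_eq_mul, mul_one]

/-- upper bound for the double sum -/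
theorem double_upper (S : Finset ℕ) (w : ℕ → ℝ) (e : ℝ) (he : e ≤ 1 / 25000) :
    ∑ q ∈ S, ∑ q' ∈ S, (if q < q' ∧ w q + w q' ≤ 1 - e then min 1 (8 * (w q + w q') - 6) else 0) ≤
      (-6) * ((S.card : ℝ) * (S.card - 1) / 2) + 8 * ((S.card - 1) * ∑ q ∈ S, w q) := by
  rw [← pair_lin]
  refine Finset.sum_le_sum (fun q _ => Finset.sum_le_sum (fun q' _ => ?_))
  by_cases h : q < q'
  · rw [if_pos h]
    by_cases h' : w q + w q' ≤ 1 - e
    · rw [if_pos ⟨h, h'⟩]
      have := min_le_right (1 : ℝ) (8 * (w q + w q') - 6)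
      linarith
    · rw [if_neg (fun hh => h' hh.2)]
      rw [not_le] at h'
      linarith
  · rw [if_neg (fun hh => h hh.1), if_neg h]

theorem G_fiveW {X e T1 T2 : ℝ} (hX : 1 < X) (he : 0 < e) (he' : e ≤ 1 / 25000) (hT1 : 2 - e / 2 ≤ T1) (hT2 : T2 ≤ 2) {n : ℕ}
    (h : n ∈ AkW X T1 T2 5) : G X e n ≤ 0 ∧ -G X e n ≤ 4013 / 1000 + 16 * e + 103 / 100 * big X e n := by
  obtain ⟨hA, hcard⟩ := mem_AkW.1 h
  obtain ⟨⟨h1, h2⟩, h3, h4⟩ := (mem_AW hX (by linarith)).1 hA
  have hu := u_eq_sum X h3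
  have ha : a0 = 333 / 1000 := rfl
  have hc : (n.primeFactors.card : ℝ) = 5 := by rw [hcard]; norm_num
  have hone : ∀ q ∈ n.primeFactors, u X q ≤ 1 - e := by
    intro q hq
    have := single_bound n.primeFactors (u X) h4 hq
    rw [hc, ha, ← hu] at this
    linarith
  rw [G_eq hX, first_sum n.primeFactors (u X) e hone, hc]
  constructor
  · have hup := double_upper n.primeFactors (u X) e he'
    rw [hc, ← hu] at hup
    linarith
  · have hlow : ∑ q ∈ n.primeFactors, ∑ q' ∈ n.primeFactors,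
        (if q < q' then (-6 + 500 / 167 * (666 / 1000)) + (8 - 500 / 167) * (u X q + u X q') else 0) -
        103 / 100 * big X e n ≤
        ∑ q ∈ n.primeFactors, ∑ q' ∈ n.primeFactors,
        (if q < q' ∧ u X q + u X q' ≤ 1 - e then min 1 (8 * (u X q + u X q') - 6) else 0) := by
      unfold big
      rw [Finset.mul_sum, ← Finset.sum_sub_distrib]
      refine Finset.sum_le_sum (fun q hq => ?_)
      rw [Finset.mul_sum, ← Finset.sum_sub_distrib]
      refine Finset.sum_le_sum (fun q' hq' => ?_)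
      by_cases hlt : q < q'
      · have hb := pair_bound n.primeFactors (u X) h4 hq hq' hlt.ne
        rw [hc, ha, ← hu] at hb
        have hq0 := h4 q hq
        have hq0' := h4 q' hq'
        rw [ha] at hq0 hq0'
        by_cases hv : u X q + u X q' ≤ 1 - e
        · rw [if_pos hlt, if_neg (fun hh => absurd hh.2 (not_lt.2 hv)), if_pos ⟨hlt, hv⟩]
          have : (-6 + 500 / 167 * (666 / 1000)) + (8 - 500 / 167) * (u X q + u X q') ≤
              min 1 (8 * (u X q + u X q') - 6) := by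
            apply le_min
            · linarith
            · linarith
          linarith
        · rw [if_pos hlt, if_pos ⟨hlt, not_le.1 hv⟩, if_neg (fun hh => hv hh.2)]
          linarith
      · rw [if_neg hlt, if_neg (fun hh => hlt hh.1), if_neg (fun hh => hlt hh.1)]
        simp
    rw [pair_lin, hc, ← hu] at hlow
    linarith

theorem G_sixW {X e T1 T2 : ℝ} (hX : 1 < X) (he : 0 < e) (he' : e ≤ 1 / 25000) (hT1 : 2 - e / 2 ≤ T1) (hT2 : T2 ≤ 2) {n : ℕ}
    (h : n ∈ AkW X T1 T2 6) : G X e n ≤ 0 ∧ -G X e n ≤ 16 := by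
  obtain ⟨hA, hcard⟩ := mem_AkW.1 h
  obtain ⟨⟨h1, h2⟩, h3, h4⟩ := (mem_AW hX (by linarith)).1 hA
  have hu := u_eq_sum X h3
  have ha : a0 = 333 / 1000 := rfl
  have hc : (n.primeFactors.card : ℝ) = 6 := by rw [hcard]; norm_num
  have hone : ∀ q ∈ n.primeFactors, u X q ≤ 1 - e := by
    intro q hq
    have := single_bound n.primeFactors (u X) h4 hq
    rw [hc, ha, ← hu] at this
    linarith
  rw [G_eq hX, first_sum n.primeFactors (u X) e hone, hc]
  constructor
  · have hup := double_upper n.primeFactors (u X) e he'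
    rw [hc, ← hu] at hup
    linarith
  · have hlow : ∑ q ∈ n.primeFactors, ∑ q' ∈ n.primeFactors,
        (if q < q' then (-672 / 1000) + 0 * (u X q + u X q') else 0) ≤
        ∑ q ∈ n.primeFactors, ∑ q' ∈ n.primeFactors,
        (if q < q' ∧ u X q + u X q' ≤ 1 - e then min 1 (8 * (u X q + u X q') - 6) else 0) := by
      refine Finset.sum_le_sum (fun q hq => Finset.sum_le_sum (fun q' hq' => ?_))
      by_cases hlt : q < q'
      · have hq0 := h4 q hq
        have hq0' := h4 q' hq'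
        rw [ha] at hq0 hq0'
        by_cases hv : u X q + u X q' ≤ 1 - e
        · rw [if_pos hlt, if_pos ⟨hlt, hv⟩]
          apply le_min
          · linarith
          · linarith
        · rw [if_pos hlt, if_neg (fun hh => hv hh.2)]
          linarith
      · rw [if_neg hlt, if_neg (fun hh => hlt hh.1)]
    rw [pair_lin, hc, ← hu] at hlow
    linarith

end Pool.Agent.NUM
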