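import Pool.Agent.NUM.G2w
import Pool.Agent.NUM.G3w
import Pool.Agent.NUM.G4w

/-!
# [NUM-G5w] the sieve weight is at most the indicator of the primes and the gap numbers
-/

set_option autoImplicit false

namespace Pool.Agent.NUM

open Finset

theorem gapI_nonneg (X e : ℝ) (n : ℕ) : 0 ≤ gapI X e n := by
  unfold gapI; split_ifs <;> norm_num

theorem G_le_AW {X e T1 T2 : ℝ} (hX : 1 < X) (he : 0 < e) (he' : e ≤ 1 / 25000) (hT1 : 2 - e / 2 ≤ T1) (hT2 : T2 ≤ 2) {n : ℕ}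
    (h : n ∈ AW X T1 T2) : G X e n ≤ (if n.Prime then 1 else 0) + gapI X e n := by
  have hT1' : 1 ≤ T1 := by linarith
  have hg := gapI_nonneg X e n
  have hp : (0 : ℝ) ≤ (if n.Prime then 1 else 0) := by split_ifs <;> norm_num
  obtain ⟨h1, h6⟩ := card_boundsW hX hT1' hT2 h
  have hk : ∀ k, n.primeFactors.card = k → n ∈ AkW X T1 T2 k := fun k hk => mem_AkW.2 ⟨h, hk⟩
  have : n.primeFactors.card = 1 ∨ n.primeFactors.card = 2 ∨ n.primeFactors.card = 3 ∨ n.primeFactors.card = 4 ∨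
      n.primeFactors.card = 5 ∨ n.primeFactors.card = 6 := by omega
  rcases this with h' | h' | h' | h' | h' | h'
  · obtain ⟨hpr, hG⟩ := G_oneW hX he he' hT1 hT2 (hk 1 h')
    rw [if_pos hpr, hG]
    linarith
  · rw [G_twoW hX he he' hT1 hT2 (hk 2 h')]
    linarith
  · linarith [(G_threeW hX he he' hT1 hT2 (hk 3 h')).1]
  · linarith [(G_fourW hX he he' hT1 hT2 (hk 4 h')).1]
  · linarith [(G_fiveW hX he he' hT1 hT2 (hk 5 h')).1]
  · linarith [(G_sixW hX he he' hT1 hT2 (hk 6 h')).1]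

/-- the pointwise bound for the members of a window -/
theorem G_leW {X e T1 T2 : ℝ} (hX : 1 < X) (he : 0 < e) (he' : e ≤ 1 / 25000) (hT1 : 2 - e / 2 ≤ T1) (hT2 : T2 ≤ 2) {n : ℕ}
    (hn : n ∈ rngW X T1 T2) (hs : Squarefree n) (hr : Rough X a0 n) :
    G X e n ≤ (if n.Prime then 1 else 0) + gapI X e n := by
  refine G_le_AW hX he he' hT1 hT2 ?_
  classical
  unfold AW
  simp only [Finset.mem_filter]
  exact ⟨hn, hs, hr⟩

/-- the pointwise bound, with the condition on `n` written out -/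
theorem G_le {X e : ℝ} (hX : 1 < X) (he : 0 < e) (he' : e ≤ 1 / 25000) {n : ℕ}
    (hn1 : X ^ (2 - e / 2) < (n : ℝ)) (hn2 : (n : ℝ) ≤ X ^ (2 : ℝ)) (hs : Squarefree n) (hr : Rough X a0 n) :
    G X e n ≤ (if n.Prime then 1 else 0) + gapI X e n := by
  refine G_leW hX he he' le_rfl (le_refl (2 : ℝ)) ?_ hs hr
  rw [mem_rngW hX (by linarith)]
  exact ⟨(rpow_lt_iff hX hs.ne_zero _).1 hn1, (le_rpow_iff hX hs.ne_zero _).1 hn2⟩

end Pool.Agent.NUM
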