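import Pool.Agent.NUM.W0
import Pool.Agent.NUM.B0
import Pool.Agent.EPK.M1b

/-!
# [NUM-M2w] the Mertens lower bound for the primes of the range
-/

set_option autoImplicit false

namespace Pool.Agent.NUM

open Finset

/-- [M2] Proof. `x = ⌊X ^ T1⌋₊`, `y = ⌊X ^ T2⌋₊`, `ℓ = log X`; `Pool.Agent.EPK.mertens_two`:
the sum is at least `log log y - log log x - C / log x`; `log x ≤ T1 ℓ`, `log x ≥ ℓ` (for large `X`), `log y ≥ T2 ℓ - 1`,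
so `log log y ≥ log (T2 ℓ) - 2 / ℓ`; and `log (T2 / T1) ≥ 1 - T1 / T2 = η / T2 ≥ η / 2`. -/
theorem m2_lowerW : ∃ C X0 : ℝ, 0 < C ∧ 2 ≤ X0 ∧ ∀ X : ℝ, X0 ≤ X → ∀ T1 T2 : ℝ, 3 / 2 ≤ T1 → T1 ≤ T2 → T2 ≤ 2 →
    (T2 - T1) / 2 - C / Real.log X ≤ ∑ q ∈ (rngW X T1 T2).filter Nat.Prime, 1 / (q : ℝ) := by
  obtain ⟨C, hC, hM⟩ := Pool.Agent.EPK.mertens_two
  refine ⟨C + 3, 4, by linarith, by norm_num, ?_⟩
  intro X hX T1 T2 hT1 hT hT2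
  obtain ⟨η, hηd⟩ : ∃ η : ℝ, η = T2 - T1 := ⟨_, rfl⟩
  rw [← hηd]
  have hη0 : 0 ≤ η := by linarith
  have hX0 : (0 : ℝ) < X := by linarith
  have hX1 : (1 : ℝ) ≤ X := by linarith
  have hl4 : Real.log 4 ≤ Real.log X := Real.log_le_log (by norm_num) hX
  have hl4' : (1 : ℝ) ≤ Real.log 4 := by
    have h1 : Real.log 4 = 2 * Real.log 2 := by
      rw [show (4 : ℝ) = 2 ^ 2 by norm_num, Real.log_pow]
      norm_num
    have h2 := Real.log_two_gt_d9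
    linarith
  have hl : 1 ≤ Real.log X := by linarith
  set ℓ := Real.log X with hℓ
  have hx1 : X + 1 ≤ X ^ T1 := by
    have h1 : X ^ ((3 : ℝ) / 2) ≤ X ^ T1 :=
      Real.rpow_le_rpow_of_exponent_le hX1 (by linarith)
    have h2 : X ^ ((3 : ℝ) / 2) = X * Real.sqrt X := by
      rw [show ((3 : ℝ) / 2) = 1 + 1 / 2 by norm_num, Real.rpow_add hX0, Real.rpow_one,
        Real.sqrt_eq_rpow]
    have h3 : (2 : ℝ) ≤ Real.sqrt X := by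
      rw [show (2 : ℝ) = Real.sqrt 4 by
        rw [show (4 : ℝ) = 2 ^ 2 by norm_num, Real.sqrt_sq (by norm_num)]]
      exact Real.sqrt_le_sqrt hX
    have h4 : X * 2 ≤ X * Real.sqrt X := mul_le_mul_of_nonneg_left h3 hX0.le
    linarith
  have hxy : X ^ T1 ≤ X ^ T2 :=
    Real.rpow_le_rpow_of_exponent_le hX1 (by linarith)
  have hxf : X ^ T1 < (⌊X ^ T1⌋₊ : ℝ) + 1 := Nat.lt_floor_add_one _
  have hyf : X ^ T2 < (⌊X ^ T2⌋₊ : ℝ) + 1 := Nat.lt_floor_add_one _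
  have hxf' : (⌊X ^ T1⌋₊ : ℝ) ≤ X ^ T1 :=
    Nat.floor_le (Real.rpow_pos_of_pos hX0 _).le
  have hxX : X ≤ (⌊X ^ T1⌋₊ : ℝ) := by linarith
  have hx2 : 2 ≤ ⌊X ^ T1⌋₊ := by
    have : (2 : ℝ) ≤ (⌊X ^ T1⌋₊ : ℝ) := by linarith
    exact_mod_cast this
  have hmer := hM ⌊X ^ T1⌋₊ ⌊X ^ T2⌋₊ hx2 (Nat.floor_le_floor hxy)
  have hlx1 : ℓ ≤ Real.log (⌊X ^ T1⌋₊ : ℝ) := Real.log_le_log hX0 hxX
  have hlx2 : Real.log (⌊X ^ T1⌋₊ : ℝ) ≤ T1 * ℓ := by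
    rw [hℓ, ← Real.log_rpow hX0]
    exact Real.log_le_log (by linarith) hxf'
  have hly : T2 * ℓ - 1 ≤ Real.log (⌊X ^ T2⌋₊ : ℝ) := by
    have h1 : X ^ T2 / 2 ≤ (⌊X ^ T2⌋₊ : ℝ) := by linarith
    have h2 : Real.log (X ^ T2 / 2) ≤ Real.log (⌊X ^ T2⌋₊ : ℝ) :=
      Real.log_le_log (by positivity) h1
    rw [Real.log_div (Real.rpow_pos_of_pos hX0 _).ne' (by norm_num), Real.log_rpow hX0] at h2
    have h3 := Real.log_two_lt_d9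
    linarith
  set x := (⌊X ^ T1⌋₊ : ℝ) with hxdef
  set y := (⌊X ^ T2⌋₊ : ℝ) with hydef
  have hD : ℓ / 2 ≤ T2 * ℓ - 1 := by nlinarith
  have hD0 : 0 < T2 * ℓ - 1 := by linarith
  have h2η : 0 < T1 * ℓ := by
    apply mul_pos <;> linarith
  have hly2 : Real.log (T2 * ℓ - 1) ≤ Real.log (Real.log y) := Real.log_le_log hD0 hly
  have hlx3 : Real.log (Real.log x) ≤ Real.log (T1 * ℓ) :=
    Real.log_le_log (by linarith) hlx2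
  have hlog : 1 - ((T2 * ℓ - 1) / (T1 * ℓ))⁻¹ ≤
      Real.log ((T2 * ℓ - 1) / (T1 * ℓ)) :=
    Real.one_sub_inv_le_log_of_pos (div_pos hD0 h2η)
  rw [Real.log_div hD0.ne' h2η.ne', inv_div] at hlog
  have hmain : η / 2 - 3 / ℓ ≤ 1 - T1 * ℓ / (T2 * ℓ - 1) := by
    have h1 : 1 - T1 * ℓ / (T2 * ℓ - 1) = (η * ℓ - 1) / (T2 * ℓ - 1) := by
      rw [eq_div_iff hD0.ne', sub_mul, div_mul_cancel₀ _ hD0.ne', hηd]
      ring
    rw [h1, le_div_iff₀ hD0]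
    have h2 : 3 / ℓ * (T2 * ℓ - 1) ≥ 3 / 2 := by
      have h3 : 3 / ℓ * (T2 * ℓ - 1) ≥ 3 / ℓ * (ℓ / 2) :=
        mul_le_mul_of_nonneg_left hD (by positivity)
      have h4 : 3 / ℓ * (ℓ / 2) = 3 / 2 := by
        have : ℓ ≠ 0 := by linarith
        field_simp
      linarith
    nlinarith [mul_nonneg (mul_nonneg hη0 (by linarith : (0 : ℝ) ≤ 2 - T2)) (by linarith : (0 : ℝ) ≤ ℓ)]
  have hCx : C / Real.log x ≤ C / ℓ := div_le_div_of_nonneg_left hC.le (by linarith) hlx1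
  have hfin := (abs_le.1 hmer).1
  have e1 : (C + 3) / ℓ = C / ℓ + 3 / ℓ := add_div _ _ _
  have e2 : ∑ q ∈ (rngW X T1 T2).filter Nat.Prime, 1 / (q : ℝ) =
      ∑ l ∈ (Ioc ⌊X ^ T1⌋₊ ⌊X ^ T2⌋₊).filter Nat.Prime, (1 : ℝ) / l := rfl
  rw [e1, e2]
  linarith

end Pool.Agent.NUM
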