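import Pool.Agent.NUM.W0
import Pool.Agent.NUM.G2w
import Pool.Agent.NUM.M2w

/-!
# [NUM-K1w] numbers with one or two prime factors
-/

set_option autoImplicit false

namespace Pool.Agent.NUM

open Finset

/-- the members of `AkW X T1 T2 1` are the primes of the range -/
theorem Ak_one_eq {X e T1 T2 : ℝ} (hX : 1 < X) (he : 0 < e) (he' : e ≤ 1 / 25000) (hT1 : 2 - e / 2 ≤ T1) (hT2 : T2 ≤ 2) :
    AkW X T1 T2 1 = (rngW X T1 T2).filter Nat.Prime := by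
  classical
  have hη1 : (0 : ℝ) ≤ T1 := by linarith
  ext n
  constructor
  · intro h
    have hp := (G_oneW hX he he' hT1 hT2 h).1
    rw [mem_AkW, mem_AW hX hη1] at h
    rw [Finset.mem_filter, mem_rngW hX hη1]
    exact ⟨h.1.1, hp⟩
  · intro h
    rw [Finset.mem_filter, mem_rngW hX hη1] at h
    obtain ⟨hr, hp⟩ := h
    rw [mem_AkW, mem_AW hX hη1, hp.primeFactors]
    refine ⟨⟨hr, hp.squarefree, ?_⟩, by simp⟩
    intro q hq
    rw [Finset.mem_singleton] at hq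
    subst hq
    have : a0 ≤ 1 := by unfold a0; norm_num
    linarith [hr.1]

/-- [K1] Proof. The primes of `rngW X T1 T2` are in `AkW X T1 T2 1` (exponent `> T1 ≥ a0`), where `G = 1`, `gapI = 0`; `m2_lowerW`. -/
theorem k1W : ∃ C X0 : ℝ, 0 < C ∧ 2 ≤ X0 ∧ ∀ X : ℝ, X0 ≤ X → ∀ e T1 T2 : ℝ, 0 < e → e ≤ 1 / 25000 → 2 - e / 2 ≤ T1 → T1 ≤ T2 → T2 ≤ 2 →
    (T2 - T1) / 2 - C / Real.log X ≤ ∑ n ∈ AkW X T1 T2 1, (G X e n - gapI X e n) / (n : ℝ) := by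
  obtain ⟨C, X0, hC, hX0, h⟩ := m2_lowerW
  refine ⟨C, X0, hC, hX0, fun X hX e T1 T2 he he' hT1 hT hT2 => ?_⟩
  have hX1 : 1 < X := by linarith
  refine (h X hX T1 T2 (by linarith) hT hT2).trans (le_of_eq ?_)
  rw [← Ak_one_eq hX1 he he' hT1 hT2]
  refine Finset.sum_congr rfl (fun n hn => ?_)
  have hc : n.primeFactors.card ≠ 2 := by
    rw [(mem_AkW.1 hn).2]
    norm_num
  rw [(G_oneW hX1 he he' hT1 hT2 hn).2, gapI_eq_zero hc, sub_zero]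

/-- [K1] all terms are `0` (`G_twoW`). -/
theorem k2W {X e T1 T2 : ℝ} (hX : 1 < X) (he : 0 < e) (he' : e ≤ 1 / 25000) (hT1 : 2 - e / 2 ≤ T1) (hT2 : T2 ≤ 2) :
    ∑ n ∈ AkW X T1 T2 2, (G X e n - gapI X e n) / (n : ℝ) = 0 := by
  refine Finset.sum_eq_zero (fun n hn => ?_)
  rw [G_twoW hX he he' hT1 hT2 hn, sub_self, zero_div]

end Pool.Agent.NUM
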