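import Pool.Agent.NUM.W0
import Pool.Agent.NUM.G2w
import Pool.Agent.NUM.D1
import Pool.Agent.NUM.M1

/-!
# [NUM-K3aw] three prime factors: combinatorial part
-/

set_option autoImplicit false

namespace Pool.Agent.NUM

open Finset

/-- [K3] the combinatorial part. Proof. `sum_choice_le` with the triples `(q1, q2, q3)` of `G_threeW` (`gapI = 0` by `gapI_eq_zero`),
`h = (rho v + (if 9999 / 10000 ≤ v ∧ w1 + 2 w2 ≤ 2 then 2 else 0)) / (q1 q2 q3)`, `v = w1 + w2`; `w1 + 2 w2 ≤ w1 + w2 + w3 ≤ 2`; `w2 ≤ 1`. -/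
theorem k3_combW {X e T1 T2 : ℝ} (hX : 1 < X) (he : 0 < e) (he' : e ≤ 1 / 25000) (hT1 : 2 - e / 2 ≤ T1) (hT2 : T2 ≤ 2) :
    ∑ n ∈ AkW X T1 T2 3, (gapI X e n - G X e n) / (n : ℝ) ≤
      ∑ q ∈ P X a0 1, ∑ q' ∈ (P X a0 1).filter (fun q' => q < q'),
        (rho (u X q + u X q') + (if 9999 / 10000 ≤ u X q + u X q' ∧ u X q + 2 * u X q' ≤ 2 then 2 else 0)) / ((q : ℝ) * q') *
          ∑ q'' ∈ P X (T1 - (u X q + u X q')) (T2 - (u X q + u X q')), 1 / (q'' : ℝ) := by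
  classical
  have hη1 : (0 : ℝ) ≤ T1 := by linarith
  have hW0 : ∀ q q' : ℕ, 0 ≤ rho (u X q + u X q') +
      (if 9999 / 10000 ≤ u X q + u X q' ∧ u X q + 2 * u X q' ≤ 2 then (2 : ℝ) else 0) := by
    intro q q'
    have h := rho_nonneg (u X q + u X q')
    split_ifs
    · linarith
    · linarith
  have key := sum_choice_le (AkW X T1 T2 3)
    ((P X a0 1).sigma (fun q => ((P X a0 1).filter (fun q' => q < q')).sigma
      (fun q' => P X (T1 - (u X q + u X q')) (T2 - (u X q + u X q')))))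
    (fun t => t.1 * t.2.1 * t.2.2) (fun n => (gapI X e n - G X e n) / (n : ℝ))
    (fun t => (rho (u X t.1 + u X t.2.1) +
      (if 9999 / 10000 ≤ u X t.1 + u X t.2.1 ∧ u X t.1 + 2 * u X t.2.1 ≤ 2 then (2 : ℝ) else 0)) /
        ((t.1 : ℝ) * t.2.1) * (1 / (t.2.2 : ℝ))) ?_ ?_
  · refine key.trans (le_of_eq ?_)
    rw [Finset.sum_sigma]
    refine Finset.sum_congr rfl (fun q _ => ?_)
    rw [Finset.sum_sigma]
    refine Finset.sum_congr rfl (fun q' _ => ?_)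
    rw [Finset.mul_sum]
  · rintro ⟨q, q', q''⟩ _
    have h := hW0 q q'
    show 0 ≤ (rho (u X q + u X q') +
      (if 9999 / 10000 ≤ u X q + u X q' ∧ u X q + 2 * u X q' ≤ 2 then (2 : ℝ) else 0)) /
        ((q : ℝ) * q') * (1 / (q'' : ℝ))
    positivity
  · intro n hn
    obtain ⟨hG, q1, q2, q3, hp1, hp2, hp3, h12, h23, hnq, ha, hle⟩ := G_threeW hX he he' hT1 hT2 hn
    obtain ⟨hA, hcard⟩ := mem_AkW.1 hn
    obtain ⟨⟨hu1, hu2⟩, hsq, hrough⟩ := (mem_AW hX hη1).1 hA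
    have hgap : gapI X e n = 0 := gapI_eq_zero (by rw [hcard]; norm_num)
    have hu : u X n = u X q1 + u X q2 + u X q3 := by
      rw [hnq, u_mul X (mul_ne_zero hp1.ne_zero hp2.ne_zero) hp3.ne_zero, u_mul X hp1.ne_zero hp2.ne_zero]
    have hw12 : u X q1 ≤ u X q2 := u_le hX h12.le
    have hw23 : u X q2 ≤ u X q3 := u_le hX h23.le
    have hw1 : 0 ≤ u X q1 := u_nonneg hX q1
    have hw2 : u X q2 ≤ 1 := by linarith
    refine ⟨⟨q1, q2, q3⟩, ?_, hnq.symm, ?_⟩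
    · rw [Finset.mem_sigma, Finset.mem_sigma, Finset.mem_filter]
      refine ⟨(mem_P hX (by norm_num)).2 ⟨hp1, ha, by linarith⟩,
        ⟨(mem_P hX (by norm_num)).2 ⟨hp2, ha.trans hw12, hw2⟩, h12⟩,
        (mem_P hX (by linarith)).2 ⟨hp3, ?_, ?_⟩⟩
      · show T1 - (u X q1 + u X q2) ≤ u X q3
        linarith
      · show u X q3 ≤ T2 - (u X q1 + u X q2)
        linarith
    · show (gapI X e n - G X e n) / (n : ℝ) ≤ (rho (u X q1 + u X q2) +
        (if 9999 / 10000 ≤ u X q1 + u X q2 ∧ u X q1 + 2 * u X q2 ≤ 2 then (2 : ℝ) else 0)) /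
        ((q1 : ℝ) * q2) * (1 / (q3 : ℝ))
      have hc : ((n : ℕ) : ℝ) = (q1 : ℝ) * q2 * q3 := by rw [hnq]; push_cast; ring
      have hpos : 0 < (q1 : ℝ) * q2 * q3 := by
        have h1 : 0 < (q1 : ℝ) := by exact_mod_cast hp1.pos
        have h2 : 0 < (q2 : ℝ) := by exact_mod_cast hp2.pos
        have h3 : 0 < (q3 : ℝ) := by exact_mod_cast hp3.pos
        positivity
      rw [div_mul_div_comm, mul_one, hc, hgap, zero_sub]
      refine div_le_div_of_nonneg_right (hle.trans ?_) hpos.le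
      refine add_le_add le_rfl ?_
      by_cases hc' : 9999 / 10000 ≤ u X q1 + u X q2
      · have hc2 : 9999 / 10000 ≤ u X q1 + u X q2 ∧ u X q1 + 2 * u X q2 ≤ 2 := ⟨hc', by linarith⟩
        rw [if_pos hc', if_pos hc2]
      · rw [if_neg hc']
        split_ifs
        · norm_num
        · exact le_rfl

end Pool.Agent.NUM
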