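import Pool.Agent.NUM.W0
import Pool.Agent.NUM.K3aw
import Pool.Agent.NUM.G2w
import Pool.Agent.NUM.D1
import Pool.Agent.NUM.M1

/-!
# [NUM-K1, K3] numbers with one, two, three prime factors
-/

set_option autoImplicit false

namespace Pool.Agent.NUM

open Finset

/-- [K3] Proof. `k3_combW`; when the weight is nonzero, `v < 7 / 8` or `v ≤ 4 / 3` (`w ≤ v / 2`), so `τ = T1 - v ≥ 1 / 10` and `last_upper`
gives `(T2 - T1) / τ + C / log X ≤ (T2 - T1) / (2 - 2 / 100000 - v) + C / log X`; weights `≤ 10`, `P_mass`. -/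
theorem k3W : ∃ C X0 : ℝ, 0 < C ∧ 2 ≤ X0 ∧ ∀ X : ℝ, X0 ≤ X → ∀ e T1 T2 : ℝ, 0 < e → e ≤ 1 / 25000 → 2 - e / 2 ≤ T1 → T1 ≤ T2 → T2 ≤ 2 →
    ∑ n ∈ AkW X T1 T2 3, (gapI X e n - G X e n) / (n : ℝ) ≤ (T2 - T1) * S3 X + C / Real.log X := by
  obtain ⟨C1, X1, hC1, hX1, H1⟩ := last_upper
  obtain ⟨X2, hX2, H2⟩ := P_mass
  refine ⟨160 * C1, max X1 X2, by positivity, le_max_of_le_left hX1, ?_⟩
  intro X hX e T1 T2 he he' hT1 hT hT2
  obtain ⟨η, hηd⟩ : ∃ η : ℝ, η = T2 - T1 := ⟨_, rfl⟩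
  rw [← hηd]
  have hη : 0 ≤ η := by linarith
  have hXa : X1 ≤ X := (le_max_left _ _).trans hX
  have hXb : X2 ≤ X := (le_max_right _ _).trans hX
  have hX1' : 1 < X := by linarith
  have hlog : 0 < Real.log X := log_pos' hX1'
  have hD : 0 ≤ C1 / Real.log X := by positivity
  have ha0 : (1 : ℝ) / 10 ≤ a0 := by unfold a0; norm_num
  refine (k3_combW hX1' he he' hT1 hT2).trans ?_
  have hterm : ∀ q ∈ P X a0 1, ∀ q' ∈ (P X a0 1).filter (fun q' => q < q'),
      (rho (u X q + u X q') + (if 9999 / 10000 ≤ u X q + u X q' ∧ u X q + 2 * u X q' ≤ 2 then 2 else 0)) /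
        ((q : ℝ) * q') * ∑ q'' ∈ P X (T1 - (u X q + u X q')) (T2 - (u X q + u X q')), 1 / (q'' : ℝ) ≤
      η * (F3 X q q' / ((q : ℝ) * q')) + 10 * (C1 / Real.log X) * (1 / (q : ℝ) * (1 / (q' : ℝ))) := by
    intro q hq q' hq'
    obtain ⟨hq'P, hqq'⟩ := Finset.mem_filter.1 hq'
    have hp := prime_of_mem_P hq
    have hp' := prime_of_mem_P hq'P
    have hq0 : 0 < (q : ℝ) := by exact_mod_cast hp.pos
    have hq0' : 0 < (q' : ℝ) := by exact_mod_cast hp'.pos
    have hu0 : 0 ≤ u X q := u_nonneg hX1' q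
    have huu : u X q ≤ u X q' := u_le hX1' hqq'.le
    set v := u X q + u X q' with hv
    have hv0 : 0 ≤ v := by linarith
    set c : Prop := 9999 / 10000 ≤ v ∧ u X q + 2 * u X q' ≤ 2 with hc
    have hW0 : 0 ≤ rho v + (if c then (2 : ℝ) else 0) := by
      have h := rho_nonneg v
      split_ifs <;> linarith
    have hW10 : rho v + (if c then (2 : ℝ) else 0) ≤ 10 := by
      have h : rho v ≤ 7 := by
        unfold rho
        exact max_le (by norm_num) (by linarith)
      split_ifs <;> linarith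
    have hF3 : F3 X q q' = (rho v + (if c then (2 : ℝ) else 0)) / (2 - 2 / 100000 - v) := by
      unfold F3
      rw [add_div]
      congr 1
      by_cases h : c
      · rw [if_pos h, if_pos h]
      · rw [if_neg h, if_neg h, zero_div]
    have hrest : 0 ≤ 10 * (C1 / Real.log X) * (1 / (q : ℝ) * (1 / (q' : ℝ))) := by positivity
    rw [hF3]
    by_cases hW : rho v + (if c then (2 : ℝ) else 0) = 0
    · rw [hW, zero_div, zero_mul, zero_div, zero_div, mul_zero, zero_add]
      exact hrest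
    · have hv43 : v ≤ 4 / 3 := by
        by_contra hcon
        apply hW
        have h1 : rho v = 0 := by
          unfold rho
          exact max_eq_left (by linarith [not_le.1 hcon])
        have h2 : ¬ c := by
          rintro ⟨_, h⟩
          apply hcon
          linarith
        rw [h1, if_neg h2, add_zero]
      have hτ0 : 0 < 2 - 2 / 100000 - v := by norm_num; linarith
      have hτ : (1 : ℝ) / 10 ≤ T1 - v := by linarith
      have hin := H1 X hXa η (T1 - v) hη hτ (by linarith)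
      have heq : T1 - v + η = T2 - v := by rw [hηd]; ring
      rw [heq] at hin
      have hdiv : η / (T1 - v) ≤ η / (2 - 2 / 100000 - v) :=
        div_le_div_of_nonneg_left hη hτ0 (by linarith)
      have hin2 := hin.trans (add_le_add hdiv le_rfl)
      have hWq : 0 ≤ (rho v + (if c then (2 : ℝ) else 0)) / ((q : ℝ) * q') := by positivity
      refine (mul_le_mul_of_nonneg_left hin2 hWq).trans ?_
      rw [mul_add]
      refine add_le_add (le_of_eq ?_) ?_
      · rw [div_mul_div_comm, div_div, ← mul_div_assoc, mul_comm ((q : ℝ) * q') (2 - 2 / 100000 - v), mul_comm η]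
      · have h1 : (rho v + (if c then (2 : ℝ) else 0)) / ((q : ℝ) * q') ≤ 10 / ((q : ℝ) * q') :=
          div_le_div_of_nonneg_right hW10 (by positivity)
        refine (mul_le_mul_of_nonneg_right h1 hD).trans (le_of_eq ?_)
        field_simp
  have hsum := Finset.sum_le_sum (fun q hq => Finset.sum_le_sum (fun q' hq' => hterm q hq q' hq'))
  refine hsum.trans ?_
  have hsplit : ∑ q ∈ P X a0 1, ∑ q' ∈ (P X a0 1).filter (fun q' => q < q'),
      (η * (F3 X q q' / ((q : ℝ) * q')) + 10 * (C1 / Real.log X) * (1 / (q : ℝ) * (1 / (q' : ℝ)))) =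
      η * S3 X + 10 * (C1 / Real.log X) *
        ∑ q ∈ P X a0 1, ∑ q' ∈ (P X a0 1).filter (fun q' => q < q'), 1 / (q : ℝ) * (1 / (q' : ℝ)) := by
    unfold S3
    rw [Finset.mul_sum, Finset.mul_sum, ← Finset.sum_add_distrib]
    refine Finset.sum_congr rfl (fun q _ => ?_)
    rw [Finset.mul_sum, Finset.mul_sum, ← Finset.sum_add_distrib]
  rw [hsplit]
  have hmass := H2 X hXb a0 1 ha0 (by norm_num)
  have hmass0 : 0 ≤ ∑ q ∈ P X a0 1, 1 / (q : ℝ) := Finset.sum_nonneg (fun q _ => by positivity)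
  have hdouble : ∑ q ∈ P X a0 1, ∑ q' ∈ (P X a0 1).filter (fun q' => q < q'), 1 / (q : ℝ) * (1 / (q' : ℝ)) ≤ 16 := by
    calc ∑ q ∈ P X a0 1, ∑ q' ∈ (P X a0 1).filter (fun q' => q < q'), 1 / (q : ℝ) * (1 / (q' : ℝ))
        ≤ ∑ q ∈ P X a0 1, ∑ q' ∈ P X a0 1, 1 / (q : ℝ) * (1 / (q' : ℝ)) := by
          refine Finset.sum_le_sum (fun q _ => ?_)
          exact Finset.sum_le_sum_of_subset_of_nonneg (Finset.filter_subset _ _) (fun q' _ _ => by positivity)
      _ = (∑ q ∈ P X a0 1, 1 / (q : ℝ)) * ∑ q' ∈ P X a0 1, 1 / (q' : ℝ) := by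
          rw [Finset.sum_mul_sum]
      _ ≤ 4 * 4 := mul_le_mul hmass hmass hmass0 (by norm_num)
      _ = 16 := by norm_num
  have hfin : 10 * (C1 / Real.log X) * (∑ q ∈ P X a0 1, ∑ q' ∈ (P X a0 1).filter (fun q' => q < q'),
      1 / (q : ℝ) * (1 / (q' : ℝ))) ≤ 10 * (C1 / Real.log X) * 16 :=
    mul_le_mul_of_nonneg_left hdouble (by positivity)
  have hlast : 10 * (C1 / Real.log X) * 16 = 160 * C1 / Real.log X := by ring
  rw [← hlast]
  exact add_le_add le_rfl hfin

end Pool.Agent.NUM
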