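import Pool.Agent.NUM.W0
import Pool.Agent.NUM.M1

/-!
# [NUM-Q1w] the sum over the two largest prime factors
-/

set_option autoImplicit false

namespace Pool.Agent.NUM

open Finset

/-- [Q1] `log t ≤ 2 (√ t - 1)` -/
private theorem q1_log (t : ℝ) (h0 : 0 < t) (h1 : t ≤ 1505 / 1000) :
    Real.log t ≤ 454 / 1000 := by
  have h2 : Real.log t ≤ Real.log ((1227 / 1000) ^ 2) :=
    Real.log_le_log h0 (by norm_num; linarith)
  rw [Real.log_pow] at h2
  have h3 : Real.log (1227 / 1000) ≤ 1227 / 1000 - 1 := Real.log_le_sub_one_of_pos (by norm_num)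
  push_cast at h2
  linarith

/-- [Q1] Proof. For `q ∈ P X a0 ((2 - v) / 2)`: `τ = T1 - v - u X q ≥ 1 - 2 / 100000 - v / 2 ≥ 1 / 10`, inner sum `≤ (1 / q) ((T2 - T1) / τ + C / log X)` by
`last_upper`, `τ ≥ 2 - 2 / 100000 - v - u X q > 0`; then `P_mass`. -/
theorem QW_le : ∃ C X0 : ℝ, 0 < C ∧ 2 ≤ X0 ∧ ∀ X : ℝ, X0 ≤ X → ∀ T1 T2 v : ℝ, 2 - 2 / 100000 ≤ T1 → T1 ≤ T2 → T2 ≤ 2 →
    0 ≤ v → v ≤ 101 / 100 →
    QW X T1 T2 v ≤ (T2 - T1) * BX X v + C / Real.log X := by
  obtain ⟨C, X1, hC, hX1, hL⟩ := last_upper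
  obtain ⟨X2, hX2, hP⟩ := P_mass
  refine ⟨4 * C, max X1 X2, by linarith, le_max_of_le_left hX1, ?_⟩
  intro X hX T1 T2 v hT1 hT hT2 hv0 hv1
  obtain ⟨η, hηd⟩ : ∃ η : ℝ, η = T2 - T1 := ⟨_, rfl⟩
  rw [← hηd]
  have hη0 : 0 ≤ η := by linarith
  have hXX1 : X1 ≤ X := (le_max_left _ _).trans hX
  have hXX2 : X2 ≤ X := (le_max_right _ _).trans hX
  have hXgt : 1 < X := by linarith
  have hlog := half_le_log (hX1.trans hXX1)
  have hlog0 : 0 < Real.log X := by linarith
  have hin : ∀ q ∈ P X a0 ((2 - v) / 2),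
      ∑ q' ∈ P X (T1 - v - u X q) (T2 - v - u X q), 1 / ((q : ℝ) * q') ≤
        η * (1 / ((q : ℝ) * (2 - 2 / 100000 - v - u X q))) + C / Real.log X * (1 / (q : ℝ)) := by
    intro q hq
    have hq0 : (0 : ℝ) < q := by exact_mod_cast (prime_of_mem_P hq).pos
    have hu1 := le_of_mem_P' hq
    have hu0 := u_nonneg hXgt q
    have h1 := hL X hXX1 η (T1 - v - u X q) hη0 (by linarith) (by linarith)
    have h2 : T1 - v - u X q + η = T2 - v - u X q := by rw [hηd]; ring
    rw [h2] at h1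
    have h3 : ∑ q' ∈ P X (T1 - v - u X q) (T2 - v - u X q), 1 / ((q : ℝ) * q') =
        1 / (q : ℝ) * ∑ q' ∈ P X (T1 - v - u X q) (T2 - v - u X q), 1 / (q' : ℝ) := by
      rw [Finset.mul_sum]
      refine Finset.sum_congr rfl (fun q' _ => ?_)
      rw [one_div_mul_one_div]
    have h4 : η / (T1 - v - u X q) ≤ η / (2 - 2 / 100000 - v - u X q) :=
      div_le_div_of_nonneg_left hη0 (by linarith) (by linarith)
    have h5 : (0 : ℝ) < 2 - 2 / 100000 - v - u X q := by linarith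
    rw [h3]
    calc 1 / (q : ℝ) * ∑ q' ∈ P X (T1 - v - u X q) (T2 - v - u X q), 1 / (q' : ℝ)
        ≤ 1 / (q : ℝ) * (η / (2 - 2 / 100000 - v - u X q) + C / Real.log X) :=
          mul_le_mul_of_nonneg_left (by linarith) (by positivity)
      _ = _ := by
        field_simp
  have hm := hP X hXX2 a0 ((2 - v) / 2) (by norm_num [a0]) (by linarith)
  calc QW X T1 T2 v ≤ ∑ q ∈ P X a0 ((2 - v) / 2),
        (η * (1 / ((q : ℝ) * (2 - 2 / 100000 - v - u X q))) + C / Real.log X * (1 / (q : ℝ))) :=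
        Finset.sum_le_sum hin
    _ = η * BX X v + C / Real.log X * ∑ q ∈ P X a0 ((2 - v) / 2), 1 / (q : ℝ) := by
        rw [Finset.sum_add_distrib, ← Finset.mul_sum, ← Finset.mul_sum]
        rfl
    _ ≤ η * BX X v + C / Real.log X * 4 := by
        have : 0 ≤ C / Real.log X := by positivity
        linarith [mul_le_mul_of_nonneg_left hm this]
    _ = _ := by ring

/-- [Q1] Proof. `v ≥ 998 / 1000`: all `q` have exponent `≤ 501 / 1000`, the denominators are `≥ 2 - 2 / 100000 - 101 / 100 - 501 / 1000 ≥ 48 / 100`, and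
`∑ 1 / q ≤ log (501 / 333) + C / log X ≤ 0.41 + ...` (for large `X`). -/
theorem BX_le_one : ∃ X0 : ℝ, 2 ≤ X0 ∧ ∀ X : ℝ, X0 ≤ X → ∀ v : ℝ, 998 / 1000 ≤ v → v ≤ 101 / 100 → BX X v ≤ 1 := by
  obtain ⟨C, X1, hC, hX1, hU⟩ := m2_upper
  refine ⟨max X1 (Real.exp (50 * C)), le_max_of_le_left hX1, ?_⟩
  intro X hX v hv0 hv1
  have hXX1 : X1 ≤ X := (le_max_left _ _).trans hX
  have hXX2 : Real.exp (50 * C) ≤ X := (le_max_right _ _).trans hX
  have hXgt : 1 < X := by linarith
  have hX0 : 0 < X := by linarith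
  have hlog : 50 * C ≤ Real.log X := (Real.le_log_iff_exp_le hX0).2 hXX2
  have hlog0 : 0 < Real.log X := Real.log_pos hXgt
  have h1 := hU X hXX1 a0 (501 / 1000) (by norm_num [a0]) (by norm_num [a0]) (by norm_num)
  have h2 : C / Real.log X ≤ 1 / 50 := by
    rw [div_le_iff₀ hlog0]
    linarith
  have h3 : Real.log (501 / 1000 / a0) ≤ 454 / 1000 := by
    have : (501 : ℝ) / 1000 / a0 = 501 / 333 := by norm_num [a0]
    rw [this]
    exact q1_log _ (by norm_num) (by norm_num)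
  have h4 : ∑ q ∈ P X a0 (501 / 1000), 1 / (q : ℝ) ≤ 48 / 100 := by linarith
  calc BX X v ≤ ∑ q ∈ P X a0 ((2 - v) / 2), (100 / 48) * (1 / (q : ℝ)) := by
        refine Finset.sum_le_sum (fun q hq => ?_)
        have hq0 : (0 : ℝ) < q := by exact_mod_cast (prime_of_mem_P hq).pos
        have hu1 := le_of_mem_P' hq
        have h5 : (48 / 100 : ℝ) ≤ 2 - 2 / 100000 - v - u X q := by linarith
        calc 1 / ((q : ℝ) * (2 - 2 / 100000 - v - u X q)) ≤ 1 / ((q : ℝ) * (48 / 100)) := by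
              apply one_div_le_one_div_of_le (by positivity)
              exact mul_le_mul_of_nonneg_left h5 hq0.le
          _ = 100 / 48 * (1 / (q : ℝ)) := by
              field_simp
    _ ≤ ∑ q ∈ P X a0 (501 / 1000), (100 / 48) * (1 / (q : ℝ)) := by
        refine Finset.sum_le_sum_of_subset_of_nonneg (P_subset le_rfl (by linarith)) ?_
        intro q _ _
        positivity
    _ = 100 / 48 * ∑ q ∈ P X a0 (501 / 1000), 1 / (q : ℝ) := by rw [Finset.mul_sum]
    _ ≤ 1 := by linarith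

/-- [Q1] Proof. `q < q'`, exponents `w ≤ w'`, `1 - e < w + w' ≤ 1`: `w ≤ 1 / 2`, `q' ∈ P X (1 - e - w) (1 - w)`, the inner sum is
`≤ e / (1 - e - w) + C / log X ≤ e / 0.4999 + C / log X`, and `∑ q ∈ P X a0 (1 / 2), 1 / q ≤ log (500 / 333) + C / log X ≤ 0.41`. -/
theorem strip_mass : ∃ C X0 : ℝ, 0 < C ∧ 2 ≤ X0 ∧ ∀ X : ℝ, X0 ≤ X → ∀ e : ℝ, 0 < e → e ≤ 1 / 25000 →
    ∑ q ∈ P X a0 1, ∑ q' ∈ (P X a0 1).filter (fun q' => q < q' ∧ 1 - e < u X q + u X q' ∧ u X q + u X q' ≤ 1), 1 / ((q : ℝ) * q') ≤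
      e + C / Real.log X := by
  obtain ⟨C, X1, hC, hX1, hL⟩ := last_upper
  obtain ⟨X2, hX2, hP⟩ := P_mass
  obtain ⟨C', X3, hC', hX3, hU⟩ := m2_upper
  refine ⟨4 * C + C', max X1 (max X2 X3), by linarith, le_max_of_le_left hX1, ?_⟩
  intro X hX e he0 he1
  have hXX1 : X1 ≤ X := (le_max_left _ _).trans hX
  have hXX2 : X2 ≤ X := ((le_max_left _ _).trans (le_max_right _ _)).trans hX
  have hXX3 : X3 ≤ X := ((le_max_right _ _).trans (le_max_right _ _)).trans hX
  have hXgt : 1 < X := by linarith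
  have hlog := half_le_log (hX1.trans hXX1)
  have hlog0 : 0 < Real.log X := by linarith
  have hin : ∀ q ∈ P X a0 (1 / 2),
      ∑ q' ∈ (P X a0 1).filter (fun q' => q < q' ∧ 1 - e < u X q + u X q' ∧ u X q + u X q' ≤ 1),
        1 / ((q : ℝ) * q') ≤ (e / (4999 / 10000) + C / Real.log X) * (1 / (q : ℝ)) := by
    intro q hq
    have hq0 : (0 : ℝ) < q := by exact_mod_cast (prime_of_mem_P hq).pos
    have hu1 := le_of_mem_P' hq
    have hu0 := u_nonneg hXgt q
    have h1 := hL X hXX1 e (1 - e - u X q) he0.le (by linarith) (by linarith)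
    have h2 : 1 - e - u X q + e = 1 - u X q := by ring
    rw [h2] at h1
    have h4 : e / (1 - e - u X q) ≤ e / (4999 / 10000) :=
      div_le_div_of_nonneg_left he0.le (by norm_num) (by linarith)
    calc ∑ q' ∈ (P X a0 1).filter (fun q' => q < q' ∧ 1 - e < u X q + u X q' ∧
          u X q + u X q' ≤ 1), 1 / ((q : ℝ) * q')
        ≤ ∑ q' ∈ P X (1 - e - u X q) (1 - u X q), 1 / ((q : ℝ) * q') := by
          refine Finset.sum_le_sum_of_subset_of_nonneg ?_ ?_
          · intro q' hq'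
            rw [Finset.mem_filter] at hq'
            rw [mem_P hXgt (by linarith)]
            exact ⟨prime_of_mem_P hq'.1, by linarith [hq'.2.2.1], by linarith [hq'.2.2.2]⟩
          · intro q' _ _
            positivity
      _ = 1 / (q : ℝ) * ∑ q' ∈ P X (1 - e - u X q) (1 - u X q), 1 / (q' : ℝ) := by
          rw [Finset.mul_sum]
          refine Finset.sum_congr rfl (fun q' _ => ?_)
          rw [one_div_mul_one_div]
      _ ≤ 1 / (q : ℝ) * (e / (4999 / 10000) + C / Real.log X) :=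
          mul_le_mul_of_nonneg_left (by linarith) (by positivity)
      _ = _ := mul_comm _ _
  have hzero : ∀ q ∈ P X a0 1, q ∉ P X a0 (1 / 2) →
      ∑ q' ∈ (P X a0 1).filter (fun q' => q < q' ∧ 1 - e < u X q + u X q' ∧ u X q + u X q' ≤ 1),
        1 / ((q : ℝ) * q') = 0 := by
    intro q hq hq'
    rw [Finset.filter_eq_empty_iff.2, Finset.sum_empty]
    intro q' _ h
    apply hq'
    rw [mem_P hXgt (by norm_num)]
    have h1 := u_le hXgt h.1.le
    exact ⟨prime_of_mem_P hq, le_of_mem_P hq, by linarith [h.2.2]⟩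
  have hsub : P X a0 (1 / 2) ⊆ P X a0 1 := P_subset le_rfl (by norm_num)
  have hm := hP X hXX2 a0 (1 / 2) (by norm_num [a0]) (by norm_num)
  have hm2 := hU X hXX3 a0 (1 / 2) (by norm_num [a0]) (by norm_num [a0]) (by norm_num)
  have h3 : Real.log (1 / 2 / a0) ≤ 454 / 1000 := by
    have : (1 : ℝ) / 2 / a0 = 500 / 333 := by norm_num [a0]
    rw [this]
    exact q1_log _ (by norm_num) (by norm_num)
  have hC0 : 0 ≤ C / Real.log X := by positivity
  have hC0' : 0 ≤ C' / Real.log X := by positivity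
  have he' : e / (4999 / 10000) ≤ 1 := by
    rw [div_le_one (by norm_num)]
    linarith
  have he'' : 0 ≤ e / (4999 / 10000) := by positivity
  rw [← Finset.sum_subset hsub hzero]
  calc _ ≤ ∑ q ∈ P X a0 (1 / 2), (e / (4999 / 10000) + C / Real.log X) * (1 / (q : ℝ)) :=
        Finset.sum_le_sum hin
    _ = e / (4999 / 10000) * (∑ q ∈ P X a0 (1 / 2), 1 / (q : ℝ)) +
        C / Real.log X * ∑ q ∈ P X a0 (1 / 2), 1 / (q : ℝ) := by
        rw [← Finset.mul_sum, add_mul]
    _ ≤ e / (4999 / 10000) * (454 / 1000 + C' / Real.log X) + C / Real.log X * 4 := by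
        gcongr
        linarith
    _ ≤ e + (4 * C + C') / Real.log X := by
        have e1 : e / (4999 / 10000) * (454 / 1000) ≤ e := by
          rw [div_mul_eq_mul_div, div_le_iff₀ (by norm_num)]
          nlinarith
        have e2 : e / (4999 / 10000) * (C' / Real.log X) ≤ C' / Real.log X :=
          mul_le_of_le_one_left hC0' he'
        have e3 : (4 * C + C') / Real.log X = C / Real.log X * 4 + C' / Real.log X := by ring
        rw [e3, mul_add]
        linarith

end Pool.Agent.NUM
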