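import Pool.Agent.NUM.W0
import Pool.Agent.NUM.G3w
import Pool.Agent.NUM.G2w
import Pool.Agent.NUM.D1
import Pool.Agent.NUM.Q1w

/-!
# [NUM-K4aw] four prime factors: combinatorial part
-/

set_option autoImplicit false

namespace Pool.Agent.NUM

open Finset

theorem sig_nonneg (e v : ℝ) : 0 ≤ sig e v := by
  unfold sig
  have := rho_nonneg v
  split_ifs <;> linarith

/-- the conditions on a tuple `((q1, q2), (q3, q4))` -/
def cond4 (X T1 T2 : ℝ) (t : (ℕ × ℕ) × (ℕ × ℕ)) : Prop :=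
  t.1.1 < t.1.2 ∧ t.2.1 < t.2.2 ∧ u X t.1.1 + u X t.1.2 ≤ u X t.2.1 + u X t.2.2 ∧
    T1 < u X t.1.1 + u X t.1.2 + (u X t.2.1 + u X t.2.2) ∧
    u X t.1.1 + u X t.1.2 + (u X t.2.1 + u X t.2.2) ≤ T2

open Classical in
/-- the set of the tuples -/
noncomputable def T4 (X T1 T2 : ℝ) : Finset ((ℕ × ℕ) × (ℕ × ℕ)) :=
  ((P X a0 1 ×ˢ P X a0 1) ×ˢ (P X a0 2 ×ˢ P X a0 2)).filter (fun t => cond4 X T1 T2 t)

/-- the summand -/
noncomputable def h4 (X e : ℝ) (t : (ℕ × ℕ) × (ℕ × ℕ)) : ℝ :=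
  sig e (u X t.1.1 + u X t.1.2) / ((t.1.1 : ℝ) * t.1.2) * (1 / ((t.2.1 : ℝ) * t.2.2))

theorem h4_nonneg (X e : ℝ) (t : (ℕ × ℕ) × (ℕ × ℕ)) : 0 ≤ h4 X e t := by
  unfold h4
  have := sig_nonneg e (u X t.1.1 + u X t.1.2)
  positivity

theorem mem_T4 {X T1 T2 : ℝ} (hX : 1 < X) (t : (ℕ × ℕ) × (ℕ × ℕ)) : t ∈ T4 X T1 T2 ↔
    ((t.1.1.Prime ∧ a0 ≤ u X t.1.1 ∧ u X t.1.1 ≤ 1) ∧ (t.1.2.Prime ∧ a0 ≤ u X t.1.2 ∧ u X t.1.2 ≤ 1)) ∧
    ((t.2.1.Prime ∧ a0 ≤ u X t.2.1 ∧ u X t.2.1 ≤ 2) ∧ (t.2.2.Prime ∧ a0 ≤ u X t.2.2 ∧ u X t.2.2 ≤ 2)) ∧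
    cond4 X T1 T2 t := by
  classical
  simp only [T4, Finset.mem_filter, Finset.mem_product, mem_P hX (by norm_num : (1 : ℝ) ≤ 2),
    mem_P hX (le_refl (2 : ℝ))]
  tauto

/-- one of the two orders of a partition is in `T4` -/
theorem pick {X e T1 T2 : ℝ} (hX : 1 < X) (hT2 : T2 ≤ 2) {a b c d n : ℕ} (hn : n = a * b * (c * d)) (ha : a.Prime) (hb : b.Prime)
    (hc : c.Prime) (hd : d.Prime) (ha0 : a0 ≤ u X a) (hb0 : a0 ≤ u X b) (hc0 : a0 ≤ u X c) (hd0 : a0 ≤ u X d)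
    (hab : a < b) (hcd : c < d) (h1 : T1 < u X a + u X b + (u X c + u X d))
    (h2 : u X a + u X b + (u X c + u X d) ≤ T2) :
    ∃ t ∈ T4 X T1 T2, t.1.1 * t.1.2 * (t.2.1 * t.2.2) = n ∧ (t = ((a, b), (c, d)) ∨ t = ((c, d), (a, b))) ∧
      h4 X e t = sig e (min (u X a + u X b) (u X c + u X d)) / n := by
  have hpa := u_nonneg hX a
  have hpb := u_nonneg hX b
  have hpc := u_nonneg hX c
  have hpd := u_nonneg hX d
  have hA0 : (0 : ℝ) < a0 := by unfold a0; norm_num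
  rcases le_total (u X a + u X b) (u X c + u X d) with h | h
  · refine ⟨((a, b), (c, d)), ?_, hn.symm, Or.inl rfl, ?_⟩
    · rw [mem_T4 hX]
      refine ⟨⟨⟨ha, ha0, by simp only; linarith⟩, ⟨hb, hb0, by simp only; linarith⟩⟩,
        ⟨⟨hc, hc0, by simp only; linarith⟩, ⟨hd, hd0, by simp only; linarith⟩⟩, hab, hcd, h, h1, h2⟩
    · simp only [h4]
      rw [min_eq_left h, hn]
      push_cast
      rw [div_mul_div_comm, mul_one]
  · refine ⟨((c, d), (a, b)), ?_, by simp only; rw [hn, mul_comm], Or.inr rfl, ?_⟩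
    · rw [mem_T4 hX]
      refine ⟨⟨⟨hc, hc0, by simp only; linarith⟩, ⟨hd, hd0, by simp only; linarith⟩⟩,
        ⟨⟨ha, ha0, by simp only; linarith⟩, ⟨hb, hb0, by simp only; linarith⟩⟩, hcd, hab, h, ?_, ?_⟩
      · simp only; linarith
      · simp only; linarith
    · simp only [h4]
      rw [min_eq_right h, hn]
      push_cast
      rw [div_mul_div_comm, mul_one, mul_comm ((a : ℝ) * b)]

/-- the sum over the tuples -/
theorem sum_T4 {X e T1 T2 : ℝ} (hX : 1 < X) (hT2 : T2 ≤ 2) :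
    ∑ t ∈ T4 X T1 T2, h4 X e t ≤
      ∑ q ∈ P X a0 1, ∑ q' ∈ (P X a0 1).filter (fun q' => q < q' ∧ u X q + u X q' ≤ 1),
        sig e (u X q + u X q') / ((q : ℝ) * q') * QW X T1 T2 (u X q + u X q') := by
  classical
  unfold T4
  rw [Finset.sum_filter, Finset.sum_product, Finset.sum_product]
  refine Finset.sum_le_sum (fun q hq => ?_)
  rw [Finset.sum_filter]
  refine Finset.sum_le_sum (fun q' hq' => ?_)
  have hq1 := (mem_P hX (by norm_num : (1 : ℝ) ≤ 2)).1 hq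
  have hq2 := (mem_P hX (by norm_num : (1 : ℝ) ≤ 2)).1 hq'
  by_cases hc : q < q' ∧ u X q + u X q' ≤ 1
  · rw [if_pos hc, Finset.sum_product]
    set v := u X q + u X q' with hv
    unfold QW
    rw [Finset.mul_sum]
    have hv0 : 0 ≤ v := by have := u_nonneg hX q; have := u_nonneg hX q'; linarith
    have hsub : P X a0 ((2 - v) / 2) ⊆ P X a0 2 := P_subset le_rfl (by linarith)
    rw [← Finset.sum_subset hsub]
    · refine Finset.sum_le_sum (fun q3 hq3 => ?_)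
      rw [Finset.mul_sum, ← Finset.sum_filter]
      refine Finset.sum_le_sum_of_subset_of_nonneg ?_ ?_
      · intro q4 hq4
        rw [Finset.mem_filter] at hq4
        obtain ⟨h1, h2⟩ := hq4
        have h1' := (mem_P hX le_rfl).1 h1
        obtain ⟨_, _, _, h5, h6⟩ := h2
        simp only at h5 h6
        have hpq3 := u_nonneg hX q3
        rw [mem_P hX (by linarith)]
        refine ⟨h1'.1, by linarith, by linarith⟩
      · intro q4 _ _
        exact mul_nonneg (div_nonneg (sig_nonneg e v) (by positivity)) (by positivity)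
    · intro q3 hq3 hq3'
      refine Finset.sum_eq_zero (fun q4 hq4 => ?_)
      rw [if_neg]
      rintro ⟨_, h2, _, _, h5⟩
      simp only at h2 h5
      apply hq3'
      have h3 := (mem_P hX le_rfl).1 hq3
      rw [mem_P hX (by linarith)]
      refine ⟨h3.1, h3.2.1, ?_⟩
      have h4 := u_lt hX h3.1.ne_zero h2
      linarith
  · rw [if_neg hc]
    refine le_of_eq (Finset.sum_eq_zero (fun t _ => ?_))
    rw [if_neg]
    rintro ⟨h1, _, h3, _, h5⟩
    simp only at h1 h3 h5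
    exact hc ⟨h1, by linarith⟩

/-- [K4a] the combinatorial part. Proof. `sum_fiber_le` with the tuples `((q1, q2), (q3, q4))`, `q1 < q2`, `q3 < q4`, exponents `v = w1 + w2 ≤ w3 + w4`,
`T1 < v + w3 + w4 ≤ T2`, `h = sig e v / (q1 q2 q3 q4)`: by `G_fourW` the fibre over `n` contains three different tuples (one for each
partition into two pairs, the pair with the smaller exponent first) whose sum of `h` is at least `-G / n`. Then `w3 ≤ (T2 - v) / 2 ≤ (2 - v) / 2`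
and `q4 ∈ P X (T1 - v - w3) (T2 - v - w3)`, so the sum over `(q3, q4)` is at most `QW X T1 T2 v`; and `v ≤ 1`. -/
theorem k4_combW {X e T1 T2 : ℝ} (hX : 1 < X) (he : 0 < e) (he' : e ≤ 1 / 25000) (hT1 : 2 - e / 2 ≤ T1) (hT2 : T2 ≤ 2) :
    ∑ n ∈ AkW X T1 T2 4, (gapI X e n - G X e n) / (n : ℝ) ≤
      ∑ q ∈ P X a0 1, ∑ q' ∈ (P X a0 1).filter (fun q' => q < q' ∧ u X q + u X q' ≤ 1),
        sig e (u X q + u X q') / ((q : ℝ) * q') * QW X T1 T2 (u X q + u X q') := by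
  refine le_trans ?_ (sum_T4 (e := e) (T1 := T1) (T2 := T2) hX hT2)
  refine sum_fiber_le (AkW X T1 T2 4) (T4 X T1 T2) (fun t => t.1.1 * t.1.2 * (t.2.1 * t.2.2)) _ (h4 X e)
    (fun t _ => h4_nonneg X e t) (fun n hn => ?_)
  have hη1 : (0 : ℝ) ≤ T1 := by linarith
  obtain ⟨hnA, hcard⟩ := mem_AkW.1 hn
  obtain ⟨⟨hn1, hn2⟩, hsq, hr⟩ := (mem_AW hX hη1).1 hnA
  obtain ⟨_, q1, q2, q3, q4, hp1, hp2, hp3, hp4, h12, h23, h34, hnq, ha, hG⟩ := G_fourW hX he he' hT1 hT2 hn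
  have hu : u X n = u X q1 + u X q2 + u X q3 + u X q4 := by
    rw [hnq, u_mul X (mul_ne_zero (mul_ne_zero hp1.ne_zero hp2.ne_zero) hp3.ne_zero) hp4.ne_zero,
      u_mul X (mul_ne_zero hp1.ne_zero hp2.ne_zero) hp3.ne_zero, u_mul X hp1.ne_zero hp2.ne_zero]
  have hu12 := u_lt hX hp1.ne_zero h12
  have hu23 := u_lt hX hp2.ne_zero h23
  have hu34 := u_lt hX hp3.ne_zero h34
  have hn0 : (0 : ℝ) < n := by exact_mod_cast Nat.pos_of_ne_zero hsq.ne_zero
  obtain ⟨t1, ht1, hφ1, he1, hh1⟩ := pick (e := e) (T1 := T1) (T2 := T2) hX hT2 (n := n) (a := q1) (b := q2) (c := q3) (d := q4)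
    (by rw [hnq]; ring) hp1 hp2 hp3 hp4 ha (by linarith) (by linarith) (by linarith) h12 h34
    (by linarith) (by linarith)
  obtain ⟨t2, ht2, hφ2, he2, hh2⟩ := pick (e := e) (T1 := T1) (T2 := T2) hX hT2 (n := n) (a := q1) (b := q3) (c := q2) (d := q4)
    (by rw [hnq]; ring) hp1 hp3 hp2 hp4 ha (by linarith) (by linarith) (by linarith) (h12.trans h23) (h23.trans h34)
    (by linarith) (by linarith)
  obtain ⟨t3, ht3, hφ3, he3, hh3⟩ := pick (e := e) (T1 := T1) (T2 := T2) hX hT2 (n := n) (a := q1) (b := q4) (c := q2) (d := q3)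
    (by rw [hnq]; ring) hp1 hp4 hp2 hp3 ha (by linarith) (by linarith) (by linarith) (h12.trans (h23.trans h34)) h23
    (by linarith) (by linarith)
  have hd12 : t1 ≠ t2 := by
    rcases he1 with rfl | rfl <;> rcases he2 with rfl | rfl <;> simp only [ne_eq, Prod.mk.injEq, not_and] <;> omega
  have hd13 : t1 ≠ t3 := by
    rcases he1 with rfl | rfl <;> rcases he3 with rfl | rfl <;> simp only [ne_eq, Prod.mk.injEq, not_and] <;> omega
  have hd23 : t2 ≠ t3 := by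
    rcases he2 with rfl | rfl <;> rcases he3 with rfl | rfl <;> simp only [ne_eq, Prod.mk.injEq, not_and] <;> omega
  have hgap : gapI X e n = 0 := gapI_eq_zero (by rw [hcard]; norm_num)
  rw [hgap]
  have hsub : ({t1, t2, t3} : Finset ((ℕ × ℕ) × (ℕ × ℕ))) ⊆
      (T4 X T1 T2).filter (fun t => t.1.1 * t.1.2 * (t.2.1 * t.2.2) = n) := by
    intro t ht
    rw [Finset.mem_filter]
    simp only [Finset.mem_insert, Finset.mem_singleton] at ht
    rcases ht with rfl | rfl | rfl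
    · exact ⟨ht1, hφ1⟩
    · exact ⟨ht2, hφ2⟩
    · exact ⟨ht3, hφ3⟩
  refine le_trans ?_ (Finset.sum_le_sum_of_subset_of_nonneg hsub (fun t _ _ => h4_nonneg X e t))
  rw [Finset.sum_insert (by simp [hd12, hd13]), Finset.sum_insert (by simp [hd23]), Finset.sum_singleton, hh1, hh2, hh3,
    ← add_div, ← add_div]
  apply div_le_div_of_nonneg_right _ hn0.le
  linarith

end Pool.Agent.NUM
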