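import Pool.Agent.NUM.K4aw

/-!
# [NUM-K4w] numbers with four prime factors
-/

set_option autoImplicit false

namespace Pool.Agent.NUM

open Finset

theorem sig_le (e v : ℝ) (hv : 0 ≤ v) : sig e v ≤ 8 := by
  unfold sig rho
  have h : max 0 (7 - 8 * v) ≤ 7 := max_le (by norm_num) (by linarith)
  split_ifs <;> linarith

theorem BX_nonneg' {X v : ℝ} (hX : 1 < X) (hv0 : 0 ≤ v) (hv : v ≤ 1) : 0 ≤ BX X v := by
  unfold BX
  refine Finset.sum_nonneg (fun q hq => ?_)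
  have h1 := le_of_mem_P' hq
  have h2 : (0 : ℝ) < 2 - 2 / 100000 - v - u X q := by linarith
  positivity

/-- the bound for one pair -/
theorem term4 {X e η v C1 B : ℝ} {q q' : ℕ} (hq : 0 < (q : ℝ)) (hq' : 0 < (q' : ℝ)) (hη : 0 ≤ η) (hC1 : 0 ≤ C1)
    (hv0 : 0 ≤ v) (hB0 : 0 ≤ B) (hB : 1 - e < v → B ≤ 1) {Qv : ℝ} (hQ : Qv ≤ η * B + C1) :
    sig e v / ((q : ℝ) * q') * Qv ≤ η * (rho v * B / ((q : ℝ) * q')) + η * ((if 1 - e < v then 1 else 0) / ((q : ℝ) * q')) +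
      8 * C1 * (1 / ((q : ℝ) * q')) := by
  have hs := sig_nonneg e v
  have hs8 := sig_le e v hv0
  have hqq : 0 < (q : ℝ) * q' := mul_pos hq hq'
  have h1 : sig e v / ((q : ℝ) * q') * Qv ≤ sig e v / ((q : ℝ) * q') * (η * B + C1) :=
    mul_le_mul_of_nonneg_left hQ (by positivity)
  refine h1.trans ?_
  have h2 : sig e v * (η * B + C1) ≤ η * (rho v * B) + η * (if 1 - e < v then 1 else 0) + 8 * C1 := by
    have h3 : sig e v * C1 ≤ 8 * C1 := mul_le_mul_of_nonneg_right hs8 hC1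
    have h4 : sig e v * (η * B) ≤ η * (rho v * B) + η * (if 1 - e < v then 1 else 0) := by
      unfold sig
      by_cases hc : 1 - e < v
      · rw [if_pos hc]
        have h5 : η * B ≤ η * 1 := mul_le_mul_of_nonneg_left (hB hc) hη
        nlinarith
      · rw [if_neg hc]
        nlinarith
    linarith
  calc sig e v / ((q : ℝ) * q') * (η * B + C1) = sig e v * (η * B + C1) / ((q : ℝ) * q') := by ring
    _ ≤ (η * (rho v * B) + η * (if 1 - e < v then 1 else 0) + 8 * C1) / ((q : ℝ) * q') :=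
        div_le_div_of_nonneg_right h2 hqq.le
    _ = _ := by ring

theorem k4W : ∃ C X0 : ℝ, 0 < C ∧ 2 ≤ X0 ∧ ∀ X : ℝ, X0 ≤ X → ∀ e T1 T2 : ℝ, 0 < e → e ≤ 1 / 25000 → 2 - e / 2 ≤ T1 → T1 ≤ T2 →
    T2 ≤ 2 → ∑ n ∈ AkW X T1 T2 4, (gapI X e n - G X e n) / (n : ℝ) ≤ (T2 - T1) * S4 X + e * (T2 - T1) + C / Real.log X := by
  classical
  obtain ⟨C1, X1, hC1, hX1, hQ⟩ := QW_le
  obtain ⟨X2, hX2, hB⟩ := BX_le_one
  obtain ⟨C3, X3, hC3, hX3, hS⟩ := strip_mass
  obtain ⟨X4, hX4, hP⟩ := P_mass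
  refine ⟨C3 + 128 * C1, max (max X1 X2) (max X3 X4), by positivity, (hX1.trans (le_max_left _ _)).trans (le_max_left _ _), ?_⟩
  intro X hX e T1 T2 he he' hT1 hT hT2
  have hXa : X1 ≤ X := ((le_max_left _ _).trans (le_max_left _ _)).trans hX
  have hXb : X2 ≤ X := ((le_max_right _ _).trans (le_max_left _ _)).trans hX
  have hXc : X3 ≤ X := ((le_max_left _ _).trans (le_max_right _ _)).trans hX
  have hXd : X4 ≤ X := ((le_max_right _ _).trans (le_max_right _ _)).trans hX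
  have hX' : 1 < X := by linarith
  have hL : 0 < Real.log X := log_pos' hX'
  obtain ⟨η, hηd⟩ : ∃ η : ℝ, η = T2 - T1 := ⟨_, rfl⟩
  rw [← hηd]
  have hη : 0 ≤ η := by linarith
  have hη1 : η ≤ 1 := by linarith
  have hterm : ∀ q ∈ P X a0 1, ∀ q' ∈ (P X a0 1).filter (fun q' => q < q' ∧ u X q + u X q' ≤ 1),
      sig e (u X q + u X q') / ((q : ℝ) * q') * QW X T1 T2 (u X q + u X q') ≤
      η * (F4 X q q' / ((q : ℝ) * q')) +
        η * ((if 1 - e < u X q + u X q' then 1 else 0) / ((q : ℝ) * q')) +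
        8 * (C1 / Real.log X) * (1 / ((q : ℝ) * q')) := by
    intro q hq q' hq'
    obtain ⟨hq'P, hqq', hv⟩ := Finset.mem_filter.1 hq'
    have hq0 : 0 < (q : ℝ) := by exact_mod_cast (prime_of_mem_P hq).pos
    have hq0' : 0 < (q' : ℝ) := by exact_mod_cast (prime_of_mem_P hq'P).pos
    have hv0 : 0 ≤ u X q + u X q' := add_nonneg (u_nonneg hX' q) (u_nonneg hX' q')
    have h1 := hQ X hXa T1 T2 (u X q + u X q') (by linarith) hT hT2 hv0 (by linarith)
    rw [← hηd] at h1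
    exact term4 (X := X) hq0 hq0' hη (by positivity) hv0 (BX_nonneg' hX' hv0 hv)
      (fun hc => hB X hXb _ (by linarith) (by linarith)) h1
  have hsum := (k4_combW hX' he he' hT1 hT2).trans
    (Finset.sum_le_sum (fun q hq => Finset.sum_le_sum (fun q' hq' => hterm q hq q' hq')))
  refine hsum.trans ?_
  have hsplit : ∑ q ∈ P X a0 1, ∑ q' ∈ (P X a0 1).filter (fun q' => q < q' ∧ u X q + u X q' ≤ 1),
      (η * (F4 X q q' / ((q : ℝ) * q')) +
        η * ((if 1 - e < u X q + u X q' then 1 else 0) / ((q : ℝ) * q')) +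
        8 * (C1 / Real.log X) * (1 / ((q : ℝ) * q'))) =
      η * (∑ q ∈ P X a0 1, ∑ q' ∈ (P X a0 1).filter (fun q' => q < q' ∧ u X q + u X q' ≤ 1), F4 X q q' / ((q : ℝ) * q')) +
      η * (∑ q ∈ P X a0 1, ∑ q' ∈ (P X a0 1).filter (fun q' => q < q' ∧ u X q + u X q' ≤ 1),
        (if 1 - e < u X q + u X q' then 1 else 0) / ((q : ℝ) * q')) +
      8 * (C1 / Real.log X) * (∑ q ∈ P X a0 1, ∑ q' ∈ (P X a0 1).filter (fun q' => q < q' ∧ u X q + u X q' ≤ 1),
        1 / ((q : ℝ) * q')) := by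
    simp only [Finset.sum_add_distrib, Finset.mul_sum]
  rw [hsplit]
  -- first part
  have hA : ∑ q ∈ P X a0 1, ∑ q' ∈ (P X a0 1).filter (fun q' => q < q' ∧ u X q + u X q' ≤ 1), F4 X q q' / ((q : ℝ) * q') ≤
      S4 X := by
    unfold S4
    refine Finset.sum_le_sum (fun q _ => ?_)
    refine Finset.sum_le_sum_of_subset_of_nonneg ?_ ?_
    · intro q' hq'
      rw [Finset.mem_filter] at hq' ⊢
      exact ⟨hq'.1, hq'.2.1⟩
    · intro q' hq' hq''
      rw [Finset.mem_filter] at hq' hq''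
      have hv : ¬ (u X q + u X q' ≤ 1) := fun hv => hq'' ⟨hq'.1, hq'.2, hv⟩
      have hr : rho (u X q + u X q') = 0 := by
        unfold rho
        exact max_eq_left (by linarith [not_le.1 hv])
      unfold F4
      rw [hr, zero_mul, zero_div]
  -- second part
  have hB2 : ∑ q ∈ P X a0 1, ∑ q' ∈ (P X a0 1).filter (fun q' => q < q' ∧ u X q + u X q' ≤ 1),
        (if 1 - e < u X q + u X q' then (1 : ℝ) else 0) / ((q : ℝ) * q') ≤ e + C3 / Real.log X := by
    refine le_trans (le_of_eq ?_) (hS X hXc e he he')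
    refine Finset.sum_congr rfl (fun q _ => ?_)
    rw [Finset.sum_filter, Finset.sum_filter]
    refine Finset.sum_congr rfl (fun q' _ => ?_)
    by_cases h1 : q < q' ∧ u X q + u X q' ≤ 1
    · rw [if_pos h1]
      by_cases h2 : 1 - e < u X q + u X q'
      · rw [if_pos h2, if_pos ⟨h1.1, h2, h1.2⟩]
      · rw [if_neg h2, if_neg (fun h => h2 h.2.1), zero_div]
    · rw [if_neg h1, if_neg (fun h => h1 ⟨h.1, h.2.2⟩)]
  -- third part
  have hC2 : ∑ q ∈ P X a0 1, ∑ q' ∈ (P X a0 1).filter (fun q' => q < q' ∧ u X q + u X q' ≤ 1),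
        1 / ((q : ℝ) * q') ≤ 16 := by
    have hm := hP X hXd a0 1 (by norm_num [a0]) (by norm_num)
    have hm0 : 0 ≤ ∑ q ∈ P X a0 1, 1 / (q : ℝ) := Finset.sum_nonneg (fun q _ => by positivity)
    calc ∑ q ∈ P X a0 1, ∑ q' ∈ (P X a0 1).filter (fun q' => q < q' ∧ u X q + u X q' ≤ 1), 1 / ((q : ℝ) * q')
        ≤ ∑ q ∈ P X a0 1, ∑ q' ∈ P X a0 1, 1 / (q : ℝ) * (1 / (q' : ℝ)) := by
          refine Finset.sum_le_sum (fun q _ => ?_)
          refine (Finset.sum_le_sum_of_subset_of_nonneg (Finset.filter_subset _ _) (fun q' _ _ => by positivity)).trans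
            (le_of_eq (Finset.sum_congr rfl (fun q' _ => ?_)))
          rw [one_div_mul_one_div]
      _ = (∑ q ∈ P X a0 1, 1 / (q : ℝ)) * ∑ q' ∈ P X a0 1, 1 / (q' : ℝ) := by
          rw [Finset.sum_mul_sum]
      _ ≤ 4 * 4 := mul_le_mul hm hm hm0 (by norm_num)
      _ = 16 := by norm_num
  have e1 := mul_le_mul_of_nonneg_left hA hη
  have e2 := mul_le_mul_of_nonneg_left hB2 hη
  have e3 := mul_le_mul_of_nonneg_left hC2 (by positivity : 0 ≤ 8 * (C1 / Real.log X))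
  have e4 : η * (C3 / Real.log X) ≤ 1 * (C3 / Real.log X) := mul_le_mul_of_nonneg_right hη1 (by positivity)
  have e5 : (C3 + 128 * C1) / Real.log X = C3 / Real.log X + 8 * (C1 / Real.log X) * 16 := by ring
  rw [e5]
  have e6 : η * (e + C3 / Real.log X) = e * η + η * (C3 / Real.log X) := by ring
  linarith

end Pool.Agent.NUM
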