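import Pool.Agent.NUM.W0
import Pool.Agent.NUM.G4w
import Pool.Agent.NUM.G2w
import Pool.Agent.NUM.D3
import Pool.Agent.NUM.Q1w

/-!
# [NUM-K5aw] five prime factors, a pair above the level
-/

set_option autoImplicit false

namespace Pool.Agent.NUM

open Finset

private theorem K5a_div {n q q' : ℕ} (hn : Squarefree n) (hq : q ∈ n.primeFactors)
    (hq' : q' ∈ n.primeFactors) (hlt : q < q') :
    ∃ m : ℕ, n / (q * q') = m ∧ m * (q * q') = n ∧ m ≠ 0 ∧ Squarefree m ∧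
      m.primeFactors ⊆ n.primeFactors ∧ m.primeFactors.card + 2 = n.primeFactors.card := by
  have hp := Nat.prime_of_mem_primeFactors hq
  have hp' := Nat.prime_of_mem_primeFactors hq'
  have hc : Nat.Coprime q q' := (Nat.coprime_primes hp hp').2 hlt.ne
  have hd : q * q' ∣ n := hc.mul_dvd_of_dvd_of_dvd (Nat.dvd_of_mem_primeFactors hq)
    (Nat.dvd_of_mem_primeFactors hq')
  obtain ⟨m, hm⟩ := hd
  have hn0 : n ≠ 0 := hn.ne_zero
  have hqq : q * q' ≠ 0 := mul_ne_zero hp.ne_zero hp'.ne_zero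
  have hm0 : m ≠ 0 := by
    rintro rfl
    exact hn0 (by rw [hm, mul_zero])
  have hsq : Squarefree (q * q' * m) := hm ▸ hn
  have hcop : Nat.Coprime (q * q') m := Nat.coprime_of_squarefree_mul hsq
  have hpf : n.primeFactors = {q, q'} ∪ m.primeFactors := by
    rw [hm, Nat.primeFactors_mul hqq hm0, Nat.primeFactors_mul hp.ne_zero hp'.ne_zero,
      hp.primeFactors, hp'.primeFactors]
    rfl
  have hdis : Disjoint ({q, q'} : Finset ℕ) m.primeFactors := by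
    have := hcop.disjoint_primeFactors
    rw [Nat.primeFactors_mul hp.ne_zero hp'.ne_zero, hp.primeFactors, hp'.primeFactors] at this
    exact this
  refine ⟨m, ?_, by rw [hm]; ring, hm0, Squarefree.of_mul_right hsq, ?_, ?_⟩
  · rw [hm]
    exact Nat.mul_div_cancel_left m (Nat.pos_of_ne_zero hqq)
  · rw [hpf]
    exact Finset.subset_union_right
  · rw [hpf, Finset.card_union_of_disjoint hdis, Finset.card_pair hlt.ne]
    ring

/-- the index set of the triples -/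
private noncomputable def K5a_T (X e T1 T2 : ℝ) : Finset (Σ _ : ℕ, Σ _ : ℕ, ℕ) :=
  (R X 3 (1 + e - 3 * a0)).sigma (fun m => (P X a0 ((2 - u X m) / 2)).sigma
    (fun q => P X (T1 - u X m - u X q) (T2 - u X m - u X q)))

private theorem K5a_sum (X e T1 T2 : ℝ) :
    ∑ t ∈ K5a_T X e T1 T2, 1 / ((t.1 : ℝ) * ((t.2.1 : ℝ) * t.2.2)) =
      ∑ m ∈ R X 3 (1 + e - 3 * a0), (1 / (m : ℝ)) * QW X T1 T2 (u X m) := by
  unfold K5a_T
  rw [Finset.sum_sigma]
  refine Finset.sum_congr rfl (fun m _ => ?_)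
  rw [Finset.sum_sigma, QW, Finset.mul_sum]
  refine Finset.sum_congr rfl (fun q _ => ?_)
  rw [Finset.mul_sum]
  refine Finset.sum_congr rfl (fun q' _ => ?_)
  rw [div_mul_div_comm, one_mul]

private theorem K5a_fiber {X e T1 T2 : ℝ} (hX : 1 < X) (he : 0 < e) (he' : e ≤ 1 / 25000)
    (hT1 : 2 - e / 2 ≤ T1) (hT2 : T2 ≤ 2) {n : ℕ} (hn : n ∈ AkW X T1 T2 5) :
    big X e n / (n : ℝ) ≤ ∑ t ∈ (K5a_T X e T1 T2).filter (fun t => t.1 * (t.2.1 * t.2.2) = n),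
      1 / ((t.1 : ℝ) * ((t.2.1 : ℝ) * t.2.2)) := by
  classical
  have hη1 : (0 : ℝ) ≤ T1 := by linarith
  obtain ⟨hnA, hcard⟩ := mem_AkW.1 hn
  obtain ⟨⟨hu1, hu2⟩, hsq, hrough⟩ := (mem_AW hX hη1).1 hnA
  have hn0 : n ≠ 0 := hsq.ne_zero
  let S : Finset (ℕ × ℕ) := (n.primeFactors ×ˢ n.primeFactors).filter
    (fun p => p.1 < p.2 ∧ 1 - e < u X p.1 + u X p.2)
  let i : ℕ × ℕ → (Σ _ : ℕ, Σ _ : ℕ, ℕ) := fun p => ⟨n / (p.1 * p.2), p.1, p.2⟩
  have hbig : big X e n / (n : ℝ) = ∑ p ∈ S, 1 / (n : ℝ) := by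
    rw [big, ← Finset.sum_product', ← Finset.sum_filter, Finset.sum_div]
  have hmem : ∀ p ∈ S, i p ∈ (K5a_T X e T1 T2).filter (fun t => t.1 * (t.2.1 * t.2.2) = n) := by
    intro p hp
    obtain ⟨hp1, hlt, hgt⟩ := Finset.mem_filter.1 hp
    obtain ⟨hq, hq'⟩ := Finset.mem_product.1 hp1
    obtain ⟨m, hm1, hm2, hm0, hmsq, hmsub, hmcard⟩ := K5a_div hsq hq hq' hlt
    have hpq := Nat.prime_of_mem_primeFactors hq
    have hpq' := Nat.prime_of_mem_primeFactors hq'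
    have hu : u X n = u X m + (u X p.1 + u X p.2) := by
      rw [← hm2, u_mul X hm0 (mul_ne_zero hpq.ne_zero hpq'.ne_zero),
        u_mul X hpq.ne_zero hpq'.ne_zero]
    have hum := u_nonneg hX m
    have huq := u_nonneg hX p.1
    have hle : u X p.1 < u X p.2 := u_lt hX hpq.ne_zero hlt
    have ha := hrough _ hq
    refine Finset.mem_filter.2 ⟨?_, ?_⟩
    · unfold K5a_T
      have e1 : (i p).1 = m := hm1
      rw [Finset.mem_sigma]
      constructor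
      · rw [e1, mem_R hX (by push_cast; linarith)]
        refine ⟨hmsq, fun r hr => hrough r (hmsub hr), by omega, ?_⟩
        push_cast
        linarith
      · rw [Finset.mem_sigma, e1]
        constructor
        · rw [mem_P hX (by linarith)]
          exact ⟨hpq, ha, by show u X p.1 ≤ _; linarith⟩
        · show p.2 ∈ P X (T1 - u X m - u X p.1) (T2 - u X m - u X p.1)
          rw [mem_P hX (by linarith)]
          exact ⟨hpq', by linarith, by linarith⟩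
    · show n / (p.1 * p.2) * (p.1 * p.2) = n
      rw [hm1, hm2]
  have hinj : Set.InjOn i (S : Set (ℕ × ℕ)) := by
    rintro ⟨a, b⟩ _ ⟨c, d⟩ _ h
    have h2 := congrArg (fun t : (Σ _ : ℕ, Σ _ : ℕ, ℕ) => (t.2.1, t.2.2)) h
    exact h2
  have hval : ∀ p ∈ S, 1 / (n : ℝ) = 1 / (((i p).1 : ℝ) * (((i p).2.1 : ℝ) * (i p).2.2)) := by
    intro p hp
    have h1 := (Finset.mem_filter.1 (hmem p hp)).2
    rw [← Nat.cast_mul, ← Nat.cast_mul, h1]
  rw [hbig, Finset.sum_congr rfl hval, ← Finset.sum_image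
    (f := fun t : (Σ _ : ℕ, Σ _ : ℕ, ℕ) => 1 / ((t.1 : ℝ) * ((t.2.1 : ℝ) * t.2.2))) hinj]
  refine Finset.sum_le_sum_of_subset_of_nonneg ?_ (fun t _ _ => by positivity)
  intro t ht
  obtain ⟨p, hp, rfl⟩ := Finset.mem_image.1 ht
  exact hmem p hp

private theorem K5a_u {X s : ℝ} (hX : 1 < X) (hs : 3 * a0 + s ≤ 2) {m : ℕ} (hm : m ∈ R X 3 s) :
    3 * a0 ≤ u X m ∧ u X m ≤ 3 * a0 + s := by
  obtain ⟨h1, h2, h3, h4⟩ := (mem_R hX (by push_cast; linarith)).1 hm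
  push_cast at h4
  refine ⟨?_, h4⟩
  rw [u_eq_sum X h1]
  calc 3 * a0 = ∑ q ∈ m.primeFactors, a0 := by
        rw [Finset.sum_const, h3, nsmul_eq_mul]
        push_cast
        ring
    _ ≤ _ := Finset.sum_le_sum h2

/-- [K5a] the numbers with a pair above the level. Proof. For `n ∈ AkW X T1 T2 5` and a pair `q < q'` of prime factors with `1 - e < w + w'` put `m = n / (q q')`:
`m ∈ R X 3 (1 + e - 3 a0)` (`u X m = u X n - w - w' ≤ 1 + e`), `u X m ≥ 3 a0 = 999 / 1000`; `sum_fiber_le` with `(m, q, q')`, `φ = m q q'`,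
`h = 1 / (m q q')`: the left side is at most `∑ m ∈ R X 3 (1 + e - 3 a0), (1 / m) QW X T1 T2 (u X m)` (`w ≤ (T2 - u X m) / 2` for `q < q'`). By
`QW_le` and `BX_le_one` this is at most `((T2 - T1) + C / log X) ∑ 1 / m`, and `R_mass 3` gives `∑ 1 / m ≤ ((1 + e - 3 a0) / a0) ^ 3 / 36 + C / log X ≤ 10 ^ (-8) + ...`. -/
theorem big_sumW : ∃ C X0 : ℝ, 0 < C ∧ 2 ≤ X0 ∧ ∀ X : ℝ, X0 ≤ X → ∀ e T1 T2 : ℝ, 0 < e → e ≤ 1 / 25000 → 2 - e / 2 ≤ T1 → T1 ≤ T2 → T2 ≤ 2 →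
    ∑ n ∈ AkW X T1 T2 5, big X e n / (n : ℝ) ≤ (T2 - T1) / 1000000 + C / Real.log X := by
  classical
  obtain ⟨C1, X1, hC1, hX1, hQ⟩ := QW_le
  obtain ⟨X2, hX2, hB⟩ := BX_le_one
  obtain ⟨C3, X3, hC3, hX3, hR⟩ := R_mass 3
  refine ⟨C3 + C1 + 2 * C1 * C3, max X1 (max X2 X3), by positivity,
    hX1.trans (le_max_left _ _), ?_⟩
  intro X hX e T1 T2 he he' hT1 hT hT2
  obtain ⟨η, hηd⟩ : ∃ η : ℝ, η = T2 - T1 := ⟨_, rfl⟩
  rw [← hηd]
  have hη : 0 ≤ η := by linarith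
  have hη' : η ≤ 1 := by linarith
  have hXa : X1 ≤ X := (le_max_left _ _).trans hX
  have hXb : X2 ≤ X := ((le_max_left _ _).trans (le_max_right _ _)).trans hX
  have hXc : X3 ≤ X := ((le_max_right _ _).trans (le_max_right _ _)).trans hX
  have hX2' : 2 ≤ X := hX1.trans hXa
  have hX' : 1 < X := by linarith
  have hL : 0 < Real.log X := log_pos' hX'
  have hLh := half_le_log hX2'
  have ha0 : a0 = 333 / 1000 := rfl
  have h1 : ∑ n ∈ AkW X T1 T2 5, big X e n / (n : ℝ) ≤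
      ∑ t ∈ K5a_T X e T1 T2, 1 / ((t.1 : ℝ) * ((t.2.1 : ℝ) * t.2.2)) :=
    sum_fiber_le (AkW X T1 T2 5) (K5a_T X e T1 T2)
      (fun t : (Σ _ : ℕ, Σ _ : ℕ, ℕ) => t.1 * (t.2.1 * t.2.2)) _ _
      (fun t _ => by positivity) (fun n hn => K5a_fiber hX' he he' hT1 hT2 hn)
  rw [K5a_sum] at h1
  have hs : 3 * a0 + (1 + e - 3 * a0) ≤ 2 := by linarith
  have h2 : ∀ m ∈ R X 3 (1 + e - 3 * a0), (1 / (m : ℝ)) * QW X T1 T2 (u X m) ≤
      (1 / (m : ℝ)) * (η + C1 / Real.log X) := by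
    intro m hm
    obtain ⟨hm1, hm2⟩ := K5a_u hX' hs hm
    rw [ha0] at hm1
    refine mul_le_mul_of_nonneg_left ?_ (by positivity)
    have h3 := hQ X hXa T1 T2 (u X m) (by linarith) hT hT2 (by linarith) (by linarith)
    rw [← hηd] at h3
    have h4 := hB X hXb (u X m) (by linarith) (by linarith)
    have h5 : η * BX X (u X m) ≤ η * 1 := mul_le_mul_of_nonneg_left h4 hη
    linarith
  have h3 := h1.trans (Finset.sum_le_sum h2)
  rw [← Finset.sum_mul] at h3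
  have h4 := hR X hXc (1 + e - 3 * a0) (by rw [ha0]; linarith) (by push_cast; linarith)
  have h5 : ((1 + e - 3 * a0) / a0) ^ 3 / ((Nat.factorial 3 : ℕ) : ℝ) ^ 2 ≤ 1 / 100000000 := by
    have h6 : (1 + e - 3 * a0) / a0 ≤ 32 / 10000 := by
      rw [ha0, div_le_iff₀ (by norm_num)]
      linarith
    have h7 : 0 ≤ (1 + e - 3 * a0) / a0 := by
      rw [ha0]
      apply div_nonneg <;> linarith
    have h8 : ((1 + e - 3 * a0) / a0) ^ 3 ≤ (32 / 10000) ^ 3 := by gcongr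
    have h9 : ((Nat.factorial 3 : ℕ) : ℝ) ^ 2 = 36 := by norm_num [Nat.factorial]
    rw [h9, div_le_iff₀ (by norm_num)]
    refine h8.trans ?_
    norm_num
  set L := Real.log X with hLdef
  have h6 : ∑ m ∈ R X 3 (1 + e - 3 * a0), 1 / (m : ℝ) ≤ 1 / 100000000 + C3 / L := by
    linarith
  have hηC : 0 ≤ η + C1 / L := by positivity
  have h7 : (∑ m ∈ R X 3 (1 + e - 3 * a0), 1 / (m : ℝ)) * (η + C1 / L) ≤
      (1 / 100000000 + C3 / L) * (η + C1 / L) := mul_le_mul_of_nonneg_right h6 hηC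
  have h8 : C1 / L * (C3 / L) ≤ 2 * C1 * C3 / L := err_mul hX2' hC1.le hC3.le
  have h9 : C3 / L * η ≤ C3 / L := by
    have : 0 ≤ C3 / L := by positivity
    nlinarith
  have h10 : 0 ≤ C1 / L := by positivity
  have h11 : (C3 + C1 + 2 * C1 * C3) / L = C3 / L + C1 / L + 2 * C1 * C3 / L := by ring
  rw [h11]
  nlinarith

end Pool.Agent.NUM
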