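import Pool.Agent.NUM.K5aw
import Pool.Agent.NUM.D3w

/-!
# [NUM-K5w] numbers with five or six prime factors
-/

set_option autoImplicit false

namespace Pool.Agent.NUM

open Finset

/-- combination of `AkW_mass` and `R_mass` -/
theorem mass_const (r : ℕ) (hr : r ≤ 5) : ∃ C X0 : ℝ, 0 < C ∧ 2 ≤ X0 ∧ ∀ X : ℝ, X0 ≤ X → ∀ T1 T2 : ℝ, 2 - 2 / 100000 ≤ T1 → T1 ≤ T2 →
    T2 ≤ 2 → ((r : ℝ) + 1) * ∑ n ∈ AkW X T1 T2 (r + 1), 1 / (n : ℝ) ≤
      (T2 - T1) / (a0 - 2 / 100000) * (((2 - (r + 1) * a0) / a0) ^ r / (r.factorial : ℝ) ^ 2) + C / Real.log X := by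
  obtain ⟨C1, X1, hC1, hX1, H1⟩ := AkW_mass r hr
  obtain ⟨C2, X2, hC2, hX2, H2⟩ := R_mass r
  have ha : a0 = 333 / 1000 := rfl
  have hr5 : (r : ℝ) ≤ 5 := by exact_mod_cast hr
  have hr0 : (0 : ℝ) ≤ r := Nat.cast_nonneg r
  have hs : 0 ≤ 2 - ((r : ℝ) + 1) * a0 := by rw [ha]; linarith
  obtain ⟨M, hM⟩ : ∃ M : ℝ, M = ((2 - ((r : ℝ) + 1) * a0) / a0) ^ r / (r.factorial : ℝ) ^ 2 := ⟨_, rfl⟩
  have hM0 : 0 ≤ M := by
    rw [hM]
    have : 0 ≤ (2 - ((r : ℝ) + 1) * a0) / a0 := div_nonneg hs (by rw [ha]; norm_num)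
    positivity
  refine ⟨C1 * M + 4 * C2 + 2 * C1 * C2, max X1 X2, by positivity, hX1.trans (le_max_left _ _), ?_⟩
  intro X hX T1 T2 hT1 hT hT2
  have hXa : X1 ≤ X := (le_max_left _ _).trans hX
  have hXb : X2 ≤ X := (le_max_right _ _).trans hX
  have hX2' : 2 ≤ X := hX1.trans hXa
  have hL : 0 < Real.log X := log_pos' (by linarith)
  have h1 := H1 X hXa T1 T2 hT1 hT hT2
  have h2 := H2 X hXb (2 - ((r : ℝ) + 1) * a0) hs (by rw [ha]; linarith)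
  rw [← hM] at h2 ⊢
  have hη0 : 0 ≤ (T2 - T1) / (a0 - 2 / 100000) := div_nonneg (by linarith) (by rw [ha]; norm_num)
  have hη4 : (T2 - T1) / (a0 - 2 / 100000) ≤ 4 := by
    rw [div_le_iff₀ (by rw [ha]; norm_num), ha]
    linarith
  set D := (T2 - T1) / (a0 - 2 / 100000) with hD
  have hD0 : 0 ≤ D + C1 / Real.log X := by positivity
  have h3 := h1.trans (mul_le_mul_of_nonneg_left h2 hD0)
  refine h3.trans ?_
  have h4 : D * (C2 / Real.log X) ≤ 4 * (C2 / Real.log X) := mul_le_mul_of_nonneg_right hη4 (by positivity)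
  have h5 := err_mul hX2' hC1.le hC2.le
  have h6 : (C1 * M + 4 * C2 + 2 * C1 * C2) / Real.log X =
      C1 / Real.log X * M + 4 * (C2 / Real.log X) + 2 * C1 * C2 / Real.log X := by ring
  rw [h6]
  nlinarith

theorem k5W : ∃ C X0 : ℝ, 0 < C ∧ 2 ≤ X0 ∧ ∀ X : ℝ, X0 ≤ X → ∀ e T1 T2 : ℝ, 0 < e → e ≤ 1 / 25000 → 2 - e / 2 ≤ T1 → T1 ≤ T2 →
    T2 ≤ 2 → ∑ n ∈ AkW X T1 T2 5, (gapI X e n - G X e n) / (n : ℝ) ≤ 43 / 10000 * (T2 - T1) + C / Real.log X := by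
  obtain ⟨C1, X1, hC1, hX1, H1⟩ := mass_const 4 (by norm_num)
  obtain ⟨C2, X2, hC2, hX2, H2⟩ := big_sumW
  refine ⟨5 * C1 + 2 * C2, max X1 X2, by positivity, hX1.trans (le_max_left _ _), ?_⟩
  intro X hX e T1 T2 he he' hT1 hT hT2
  have hXa : X1 ≤ X := (le_max_left _ _).trans hX
  have hXb : X2 ≤ X := (le_max_right _ _).trans hX
  have hX' : 1 < X := by linarith
  have hL : 0 < Real.log X := log_pos' hX'
  have h1 := H1 X hXa T1 T2 (by linarith) hT hT2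
  have h2 := H2 X hXb e T1 T2 he he' hT1 hT hT2
  obtain ⟨η, hηd⟩ : ∃ η : ℝ, η = T2 - T1 := ⟨_, rfl⟩
  rw [← hηd] at h1 h2 ⊢
  have hη : 0 ≤ η := by linarith
  have hterm : ∀ n ∈ AkW X T1 T2 5, (gapI X e n - G X e n) / (n : ℝ) ≤
      (4014 / 1000) * (1 / (n : ℝ)) + 103 / 100 * (big X e n / (n : ℝ)) := by
    intro n hn
    have hcard := (mem_AkW.1 hn).2
    have hgap : gapI X e n = 0 := gapI_eq_zero (by rw [hcard]; norm_num)
    have hG := (G_fiveW hX' he he' hT1 hT2 hn).2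
    rw [hgap, mul_one_div, ← mul_div_assoc, ← add_div]
    apply div_le_div_of_nonneg_right _ (Nat.cast_nonneg n)
    linarith
  have hsum := Finset.sum_le_sum hterm
  rw [Finset.sum_add_distrib, ← Finset.mul_sum, ← Finset.mul_sum] at hsum
  refine hsum.trans ?_
  have e1 : η / (a0 - 2 / 100000) * (((2 - ((4 : ℕ) + 1 : ℝ) * a0) / a0) ^ 4 / ((Nat.factorial 4 : ℕ) : ℝ) ^ 2) ≤
      5344 / 1000000 * η := by
    have ha : a0 = 333 / 1000 := rfl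
    rw [ha, show ((Nat.factorial 4 : ℕ) : ℝ) = 24 by norm_num [Nat.factorial]]
    have : η / (333 / 1000 - 2 / 100000) * (((2 - ((4 : ℕ) + 1 : ℝ) * (333 / 1000)) / (333 / 1000)) ^ 4 / (24 : ℝ) ^ 2) =
        η * ((1 / (333 / 1000 - 2 / 100000)) * (((2 - 5 * (333 / 1000)) / (333 / 1000)) ^ 4 / (24 : ℝ) ^ 2)) := by
      push_cast
      ring
    rw [this, mul_comm (5344 / 1000000) η]
    apply mul_le_mul_of_nonneg_left _ hη
    norm_num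
  have e2 : ((4 : ℕ) : ℝ) + 1 = 5 := by norm_num
  rw [e2] at h1 e1
  have e3 : (5 * C1 + 2 * C2) / Real.log X = 5 * (C1 / Real.log X) + 2 * (C2 / Real.log X) := by ring
  have e4 : 0 ≤ C1 / Real.log X := by positivity
  have e5 : 0 ≤ C2 / Real.log X := by positivity
  rw [e3]
  have h1' : 5 * ∑ n ∈ AkW X T1 T2 5, 1 / (n : ℝ) ≤ 5344 / 1000000 * η + C1 / Real.log X := by
    refine h1.trans ?_
    linarith
  linarith

theorem k6W : ∃ C X0 : ℝ, 0 < C ∧ 2 ≤ X0 ∧ ∀ X : ℝ, X0 ≤ X → ∀ e T1 T2 : ℝ, 0 < e → e ≤ 1 / 25000 → 2 - e / 2 ≤ T1 → T1 ≤ T2 →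
    T2 ≤ 2 → ∑ n ∈ AkW X T1 T2 6, (gapI X e n - G X e n) / (n : ℝ) ≤ (T2 - T1) / 1000000 + C / Real.log X := by
  obtain ⟨C1, X1, hC1, hX1, H1⟩ := mass_const 5 le_rfl
  refine ⟨16 * C1, X1, by positivity, hX1, ?_⟩
  intro X hX e T1 T2 he he' hT1 hT hT2
  have hX' : 1 < X := by linarith
  have hL : 0 < Real.log X := log_pos' hX'
  have h1 := H1 X hX T1 T2 (by linarith) hT hT2
  obtain ⟨η, hηd⟩ : ∃ η : ℝ, η = T2 - T1 := ⟨_, rfl⟩
  rw [← hηd] at h1 ⊢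
  have hη : 0 ≤ η := by linarith
  have hterm : ∀ n ∈ AkW X T1 T2 6, (gapI X e n - G X e n) / (n : ℝ) ≤ 16 * (1 / (n : ℝ)) := by
    intro n hn
    have hcard := (mem_AkW.1 hn).2
    have hgap : gapI X e n = 0 := gapI_eq_zero (by rw [hcard]; norm_num)
    have hG := (G_sixW hX' he he' hT1 hT2 hn).2
    rw [hgap, mul_one_div]
    apply div_le_div_of_nonneg_right _ (Nat.cast_nonneg n)
    linarith
  have hsum := Finset.sum_le_sum hterm
  rw [← Finset.mul_sum] at hsum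
  refine hsum.trans ?_
  have e1 : η / (a0 - 2 / 100000) * (((2 - ((5 : ℕ) + 1 : ℝ) * a0) / a0) ^ 5 / ((Nat.factorial 5 : ℕ) : ℝ) ^ 2) ≤
      1 / 10000000 * η := by
    have ha : a0 = 333 / 1000 := rfl
    rw [ha, show ((Nat.factorial 5 : ℕ) : ℝ) = 120 by norm_num [Nat.factorial]]
    have : η / (333 / 1000 - 2 / 100000) * (((2 - ((5 : ℕ) + 1 : ℝ) * (333 / 1000)) / (333 / 1000)) ^ 5 / (120 : ℝ) ^ 2) =
        η * ((1 / (333 / 1000 - 2 / 100000)) * (((2 - 6 * (333 / 1000)) / (333 / 1000)) ^ 5 / (120 : ℝ) ^ 2)) := by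
      push_cast
      ring
    rw [this, mul_comm (1 / 10000000) η]
    apply mul_le_mul_of_nonneg_left _ hη
    norm_num
  have e2 : ((5 : ℕ) : ℝ) + 1 = 6 := by norm_num
  rw [e2] at h1 e1
  have e3 : 16 * C1 / Real.log X = 16 * (C1 / Real.log X) := by ring
  have e4 : 0 ≤ C1 / Real.log X := by positivity
  rw [e3]
  have h1' : 6 * ∑ n ∈ AkW X T1 T2 6, 1 / (n : ℝ) ≤ 1 / 10000000 * η + C1 / Real.log X := by
    refine h1.trans ?_
    linarith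
  linarith

end Pool.Agent.NUM
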