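import Pool.Agent.NUM.Zw

/-!
# [NUM-N1w] weight one on short windows
-/

set_option autoImplicit false

namespace Pool.Agent.NUM

open Finset

theorem sum_split (f : ℕ → ℝ) (W : ℕ → ℕ) (hW : Antitone W) (J : ℕ) :
    ∑ n ∈ Ioc (W J) (W 0), f n = ∑ i ∈ range J, ∑ n ∈ Ioc (W (i + 1)) (W i), f n := by
  induction J with
  | zero => simp
  | succ J ih =>
    rw [Finset.sum_range_succ, ← ih, ← Finset.sum_union]
    · rw [Finset.union_comm, Finset.Ioc_union_Ioc_eq_Ioc (hW (Nat.le_succ J)) (hW (Nat.zero_le J))]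
    · rw [Finset.disjoint_left]
      intro n hn hn'
      rw [Finset.mem_Ioc] at hn hn'
      omega

theorem cell_le (f : ℕ → ℝ) (V W : ℕ) (k : ℝ) (hV : 0 < V) (hk : 0 ≤ k) (hk' : (W : ℝ) - V ≤ k * W)
    (hf : ∀ n ∈ Ioc V W, f n ≤ (if n.Prime then 1 else 0)) :
    ∑ n ∈ Ioc V W, f n / (n : ℝ) ≤ (∑ n ∈ Ioc V W, f n) / W + k * ∑ n ∈ (Ioc V W).filter Nat.Prime, 1 / (n : ℝ) := by
  rw [Finset.sum_div, Finset.sum_filter, Finset.mul_sum, ← Finset.sum_add_distrib]
  refine Finset.sum_le_sum (fun n hn => ?_)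
  have hf' := hf n hn
  rw [Finset.mem_Ioc] at hn
  have hn0 : (0 : ℝ) < n := by exact_mod_cast (by omega : 0 < n)
  have hW0 : (0 : ℝ) < W := by exact_mod_cast (by omega : 0 < W)
  have hnW : (n : ℝ) ≤ W := by exact_mod_cast hn.2
  have hVn : (V : ℝ) ≤ n := by exact_mod_cast hn.1.le
  have hinv : 1 / (W : ℝ) ≤ 1 / n := one_div_le_one_div_of_le hn0 hnW
  have hdiff : 1 / (n : ℝ) - 1 / W ≤ k * (1 / n) := by
    rw [div_sub_div _ _ hn0.ne' hW0.ne', mul_one_div, div_le_div_iff₀ (by positivity) hn0]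
    have h1 : (W : ℝ) - n ≤ k * W := by linarith
    nlinarith
  by_cases h0 : f n ≤ 0
  · have h1 : f n / (n : ℝ) ≤ f n / W := by
      rw [div_eq_mul_one_div, div_eq_mul_one_div (f n) (W : ℝ)]
      exact mul_le_mul_of_nonpos_left hinv h0
    have h2 : 0 ≤ k * (if n.Prime then 1 / (n : ℝ) else 0) := by
      split_ifs
      · positivity
      · simp
    linarith
  · rw [not_le] at h0
    have hp : n.Prime := by
      by_contra hc
      rw [if_neg hc] at hf'
      linarith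
    rw [if_pos hp] at hf' ⊢
    have h1 : f n / (n : ℝ) - f n / W = f n * (1 / n - 1 / W) := by ring
    have h2 : f n * (1 / (n : ℝ) - 1 / W) ≤ 1 * (1 / n - 1 / W) := mul_le_mul_of_nonneg_right hf' (by linarith)
    linarith

/-- primes of a window: Mertens -/
theorem prime_window : ∃ C X0 : ℝ, 0 < C ∧ 2 ≤ X0 ∧ ∀ X : ℝ, X0 ≤ X → ∀ V W : ℕ, X ≤ (V : ℝ) → V ≤ W → (W : ℝ) ≤ X ^ (2 : ℝ) →
    ∑ n ∈ (Ioc V W).filter Nat.Prime, 1 / (n : ℝ) ≤ (Real.log ((W : ℝ) / V) + C) / Real.log X := by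
  obtain ⟨C, X0, hC, hX0, H⟩ := m2_upper
  refine ⟨C, X0, hC, hX0, fun X hX V W hV hVW hW => ?_⟩
  have hX1 : 1 < X := by linarith
  have hlog := log_pos' hX1
  have hV0 : (0 : ℝ) < V := by linarith
  have hV' : V ≠ 0 := by rintro rfl; simp at hV0
  have hW' : W ≠ 0 := by omega
  have hW0 : (0 : ℝ) < W := by exact_mod_cast Nat.pos_of_ne_zero hW'
  have h1 : 1 ≤ u X V := by
    rw [← rpow_le_iff hX1 hV', Real.rpow_one]; exact hV
  have h2 : u X W ≤ 2 := (le_rpow_iff hX1 hW' _).1 hW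
  have h12 : u X V ≤ u X W := u_le hX1 hVW
  have hsub : (Ioc V W).filter Nat.Prime ⊆ P X (u X V) (u X W) := by
    intro q hq
    rw [Finset.mem_filter, Finset.mem_Ioc] at hq
    rw [mem_P hX1 h2]
    exact ⟨hq.2, u_le hX1 hq.1.1.le, u_le hX1 hq.1.2⟩
  refine (Finset.sum_le_sum_of_subset_of_nonneg hsub (fun _ _ _ => by positivity)).trans ?_
  refine (H X hX _ _ (by linarith) h12 h2).trans ?_
  rw [add_div]
  refine add_le_add ?_ le_rfl
  have hpos : 0 < u X V := by linarith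
  have h3 := Real.log_le_sub_one_of_pos (show 0 < u X W / u X V from div_pos (by linarith) hpos)
  refine h3.trans ?_
  have h4 : u X W / u X V - 1 = (u X W - u X V) / u X V := by field_simp
  rw [h4]
  have h5 : (u X W - u X V) / u X V ≤ (u X W - u X V) / 1 :=
    div_le_div_of_nonneg_left (by linarith) one_pos h1
  refine h5.trans (le_of_eq ?_)
  rw [div_one, Real.log_div hW0.ne' hV0.ne']
  unfold u
  field_simp

open Classical in
/-- The lower bound with weight one on a short window below `Y`, for every scale `Y`. -/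
theorem num1 : ∃ c A : ℝ, 0 < c ∧ 1 ≤ A ∧ ∀ e : ℝ, 0 < e → e ≤ 1 / 25000 → ∃ X0 : ℝ, 2 ≤ X0 ∧ ∀ X : ℝ, X0 ≤ X → ∀ Y : ℝ,
    X ^ (2 - e / 4) ≤ Y → Y ≤ X ^ (2 : ℝ) → ∃ V W : ℕ, Y / A ≤ (V : ℝ) ∧ V ≤ W ∧ (W : ℝ) ≤ Y ∧ 2 * W ≤ 3 * V ∧
      c * Y / Real.log X ≤
        ∑ n ∈ (Ioc V W).filter (fun n => Squarefree n ∧ Rough X a0 n), (G X e n - gapI X e n) := by
  obtain ⟨C, X1, hC, hX1, H⟩ := numW
  obtain ⟨C', X2, hC', hX2, H'⟩ := prime_window
  -- the number of cells
  obtain ⟨J, hJ⟩ : ∃ J : ℕ, 4000 * (C + C' + 2) ≤ (J : ℝ) * Real.log (1 + 1 / 4000) := by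
    have hpos : 0 < Real.log (1 + 1 / 4000) := Real.log_pos (by norm_num)
    obtain ⟨J, hJ⟩ := exists_nat_ge (4000 * (C + C' + 2) / Real.log (1 + 1 / 4000))
    exact ⟨J, by rwa [div_le_iff₀ hpos] at hJ⟩
  set ρ : ℝ := 1 + 1 / 4000 with hρ
  have hρ1 : 1 < ρ := by rw [hρ]; norm_num
  have hρ0 : 0 < ρ := by linarith
  have hJpos : 0 < J := by
    rcases Nat.eq_zero_or_pos J with rfl | h
    · exfalso; simp at hJ; linarith
    · exact h
  have hJR : (0 : ℝ) < J := by exact_mod_cast hJpos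
  set A : ℝ := 2 * ρ ^ J with hA
  have hρJ : 1 ≤ ρ ^ J := one_le_pow₀ hρ1.le
  have hA2 : 2 ≤ A := by rw [hA]; linarith
  refine ⟨1 / (A * J), A, by positivity, by linarith, fun e he he' => ?_⟩
  refine ⟨max (max X1 X2) (max (100000 * A) (A ^ (4 / e))), ?_, fun X hX Y hY1 hY2 => ?_⟩
  · exact hX1.trans ((le_max_left _ _).trans (le_max_left _ _))
  have hXX1 : X1 ≤ X := ((le_max_left _ _).trans (le_max_left _ _)).trans hX
  have hXX2 : X2 ≤ X := ((le_max_right _ _).trans (le_max_left _ _)).trans hX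
  have hXA : 100000 * A ≤ X := ((le_max_left _ _).trans (le_max_right _ _)).trans hX
  have hXe : A ^ (4 / e) ≤ X := ((le_max_right _ _).trans (le_max_right _ _)).trans hX
  have hXgt : 1 < X := by linarith
  have hX0' : 0 < X := by linarith
  have hlog := log_pos' hXgt
  have hXY : X ≤ Y := by
    refine le_trans ?_ hY1
    calc X = X ^ (1 : ℝ) := (Real.rpow_one X).symm
      _ ≤ X ^ (2 - e / 4) := Real.rpow_le_rpow_of_exponent_le hXgt.le (by linarith)
  have hY0 : 0 < Y := by linarith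
  have hYA : 100000 * A ≤ Y := hXA.trans hXY
  -- the end points
  set W : ℕ → ℕ := fun i => ⌊Y / ρ ^ i⌋₊ with hW
  have hWanti : Antitone W := by
    intro i j hij
    apply Nat.floor_le_floor
    exact div_le_div_of_nonneg_left hY0.le (by positivity) (pow_le_pow_right₀ hρ1.le hij)
  have hWle : ∀ i, (W i : ℝ) ≤ Y / ρ ^ i := fun i => Nat.floor_le (by positivity)
  have hWgt : ∀ i, Y / ρ ^ i - 1 < W i := fun i => sub_lt_iff_lt_add.2 (Nat.lt_floor_add_one (Y / ρ ^ i))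
  have hYρ : ∀ i, i ≤ J → 2 * (Y / A) ≤ Y / ρ ^ i := by
    intro i hi
    have h1 : ρ ^ i ≤ ρ ^ J := pow_le_pow_right₀ hρ1.le hi
    rw [hA, ← mul_div_assoc, mul_div_mul_left _ _ (two_ne_zero)]
    exact div_le_div_of_nonneg_left hY0.le (by positivity) h1
  have hYA' : 100000 ≤ Y / A := by
    rw [le_div_iff₀ (by linarith)]; exact hYA
  have hWA : ∀ i, i ≤ J → Y / A ≤ W i := by
    intro i hi
    have h1 := hYρ i hi
    have h2 := hWgt i
    linarith
  have hWpos : ∀ i, i ≤ J → 0 < W i := by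
    intro i hi
    have h1 := hWA i hi
    have : (0 : ℝ) < W i := by linarith
    exact_mod_cast this
  -- the ratio
  have hratio : ∀ i, i < J → (W i : ℝ) - W (i + 1) ≤ 1 / 2000 * W i := by
    intro i hi
    have h1 := hWle i
    have h2 := hWgt (i + 1)
    have h3 := hWgt i
    have h4 : Y / ρ ^ (i + 1) = Y / ρ ^ i / ρ := by rw [pow_succ, div_div]
    have h5 := hYρ i hi.le
    set Z := Y / ρ ^ i with hZ
    have h6 : Z / ρ = Z - Z * (1 / 4001) := by
      rw [div_eq_iff hρ0.ne', hρ]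
      ring
    rw [h4, h6] at h2
    linarith
  -- the lower end point
  have hlow : X ^ (2 - e / 2) ≤ (W J : ℝ) := by
    refine le_trans ?_ (hWA J le_rfl)
    rw [le_div_iff₀ (by linarith)]
    have h1 : A ≤ X ^ (e / 4) := by
      have h2 : (A ^ (4 / e)) ^ (e / 4) ≤ X ^ (e / 4) := Real.rpow_le_rpow (by positivity) hXe (by positivity)
      rw [← Real.rpow_mul (by linarith), show 4 / e * (e / 4) = 1 by field_simp, Real.rpow_one] at h2
      exact h2
    calc X ^ (2 - e / 2) * A ≤ X ^ (2 - e / 2) * X ^ (e / 4) :=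
          mul_le_mul_of_nonneg_left h1 (Real.rpow_pos_of_pos hX0' _).le
      _ = X ^ (2 - e / 4) := by rw [← Real.rpow_add hX0']; congr 1; ring
      _ ≤ Y := hY1
  have hW0Y : (W 0 : ℝ) ≤ Y := by have := hWle 0; simpa using this
  have hW02 : (W 0 : ℝ) ≤ X ^ (2 : ℝ) := hW0Y.trans hY2
  have hJ0 : W J ≤ W 0 := hWanti (Nat.zero_le J)
  have hXWJ : X ≤ (W J : ℝ) := by
    refine le_trans ?_ hlow
    calc X = X ^ (1 : ℝ) := (Real.rpow_one X).symm
      _ ≤ X ^ (2 - e / 2) := Real.rpow_le_rpow_of_exponent_le hXgt.le (by linarith)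
  have key := H X hXX1 e he he' (W J) (W 0) hlow hJ0 hW02
  have keyP := H' X hXX2 (W J) (W 0) hXWJ hJ0 hW02
  -- the function
  set f : ℕ → ℝ := fun n => if Squarefree n ∧ Rough X a0 n then G X e n - gapI X e n else 0 with hf
  have hfsum : ∀ V U : ℕ, ∑ n ∈ (Ioc V U).filter (fun n => Squarefree n ∧ Rough X a0 n), (G X e n - gapI X e n) =
      ∑ n ∈ Ioc V U, f n := fun V U => Finset.sum_filter _ _
  have hfsum' : ∑ n ∈ (Ioc (W J) (W 0)).filter (fun n => Squarefree n ∧ Rough X a0 n), (G X e n - gapI X e n) / (n : ℝ) =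
      ∑ n ∈ Ioc (W J) (W 0), f n / (n : ℝ) := by
    rw [Finset.sum_filter]
    refine Finset.sum_congr rfl (fun n _ => ?_)
    rw [hf]
    simp only
    split_ifs
    · rfl
    · rw [zero_div]
  have hfle : ∀ i, i < J → ∀ n ∈ Ioc (W (i + 1)) (W i), f n ≤ (if n.Prime then 1 else 0) := by
    intro i hi n hn
    rw [Finset.mem_Ioc] at hn
    rw [hf]
    simp only
    by_cases hc : Squarefree n ∧ Rough X a0 n
    · rw [if_pos hc]
      have h1 : X ^ (2 - e / 2) < (n : ℝ) := by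
        refine lt_of_le_of_lt hlow ?_
        have h2 : W J ≤ W (i + 1) := hWanti hi
        exact_mod_cast lt_of_le_of_lt h2 hn.1
      have h2 : (n : ℝ) ≤ X ^ (2 : ℝ) := by
        refine le_trans ?_ hW02
        have h3 : W i ≤ W 0 := hWanti (Nat.zero_le i)
        exact_mod_cast hn.2.trans h3
      linarith [G_le hXgt he he' h1 h2 hc.1 hc.2]
    · rw [if_neg hc]
      split_ifs <;> norm_num
  rw [hfsum', sum_split (fun n => f n / (n : ℝ)) W hWanti J] at key
  have hcells : ∀ i ∈ range J, ∑ n ∈ Ioc (W (i + 1)) (W i), f n / (n : ℝ) ≤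
      (∑ n ∈ Ioc (W (i + 1)) (W i), f n) / (W i : ℝ) +
        1 / 2000 * ∑ n ∈ Ioc (W (i + 1)) (W i), (if n.Prime then 1 / (n : ℝ) else 0) := by
    intro i hi
    rw [Finset.mem_range] at hi
    have h := cell_le f (W (i + 1)) (W i) (1 / 2000) (hWpos (i + 1) hi) (by norm_num)
      (hratio i hi) (hfle i hi)
    rw [Finset.sum_filter] at h
    exact h
  have hsum := Finset.sum_le_sum hcells
  rw [Finset.sum_add_distrib, ← Finset.mul_sum,
    ← sum_split (fun n => if n.Prime then 1 / (n : ℝ) else 0) W hWanti J, ← Finset.sum_filter] at hsum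
  -- logarithms
  have hR : (J : ℝ) * Real.log ρ - 1 ≤ Real.log ((W 0 : ℝ) / W J) := by
    have h1 := hWle J
    have h2 := hWgt 0
    have hWJ0 : (0 : ℝ) < W J := by exact_mod_cast hWpos J le_rfl
    have h3 : ρ ^ J / 2 ≤ (W 0 : ℝ) / W J := by
      rw [le_div_iff₀ hWJ0]
      have h4 : ρ ^ J * (W J : ℝ) ≤ Y := by
        have := mul_le_mul_of_nonneg_left h1 (by positivity : (0 : ℝ) ≤ ρ ^ J)
        rwa [mul_div_cancel₀ _ (by positivity : ρ ^ J ≠ 0)] at this
      rw [pow_zero, div_one] at h2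
      have h8 : 2 ≤ Y := by linarith
      have h9 : Y / 2 ≤ (W 0 : ℝ) := by linarith
      have h10 : ρ ^ J / 2 * (W J : ℝ) = ρ ^ J * (W J : ℝ) / 2 := by ring
      rw [h10]
      exact (div_le_div_of_nonneg_right h4 (by norm_num)).trans h9
    have h5 := Real.log_le_log (by positivity) h3
    rw [Real.log_div (by positivity) (by norm_num), Real.log_pow] at h5
    have h6 := Real.log_two_lt_d9
    linarith
  beta_reduce at key hsum
  set L := Real.log ((W 0 : ℝ) / W J) with hL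
  have hmain : 1 / Real.log X ≤ ∑ i ∈ range J, (∑ n ∈ Ioc (W (i + 1)) (W i), f n) / (W i : ℝ) := by
    have h1 : 1 / Real.log X ≤ (1 / 500 * L - C) / Real.log X - 1 / 2000 * ((L + C') / Real.log X) := by
      rw [← mul_div_assoc, ← sub_div]
      apply div_le_div_of_nonneg_right _ hlog.le
      linarith
    have h2 : 1 / 2000 * ∑ n ∈ (Ioc (W J) (W 0)).filter Nat.Prime, 1 / (n : ℝ) ≤ 1 / 2000 * ((L + C') / Real.log X) :=
      mul_le_mul_of_nonneg_left keyP (by norm_num)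
    have h3 := key.trans hsum
    linarith
  -- pigeonhole
  obtain ⟨i, hi, hi'⟩ : ∃ i ∈ range J, 1 / Real.log X / J ≤ (∑ n ∈ Ioc (W (i + 1)) (W i), f n) / (W i : ℝ) := by
    by_contra hcon
    push Not at hcon
    have h1 : ∑ i ∈ range J, (∑ n ∈ Ioc (W (i + 1)) (W i), f n) / (W i : ℝ) < ∑ i ∈ range J, 1 / Real.log X / (J : ℝ) :=
      Finset.sum_lt_sum_of_nonempty ⟨0, Finset.mem_range.2 hJpos⟩ hcon
    rw [Finset.sum_const, Finset.card_range, nsmul_eq_mul, mul_div_cancel₀ _ hJR.ne'] at h1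
    linarith
  rw [Finset.mem_range] at hi
  refine ⟨W (i + 1), W i, hWA (i + 1) hi, hWanti (Nat.le_succ i), ?_, ?_, ?_⟩
  · exact le_trans (by exact_mod_cast hWanti (Nat.zero_le i)) hW0Y
  · have h1 := hratio i hi
    have h2 : (2 : ℝ) * W i ≤ 3 * W (i + 1) := by
      have : (0 : ℝ) ≤ W i := Nat.cast_nonneg _
      linarith
    exact_mod_cast h2
  · rw [hfsum]
    have hWi : (0 : ℝ) < W i := by exact_mod_cast hWpos i hi.le
    rw [le_div_iff₀ hWi] at hi'
    refine le_trans ?_ hi'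
    have h1 := hWA i hi.le
    have h2 : 1 / (A * J) * Y / Real.log X = 1 / Real.log X / J * (Y / A) := by
      field_simp
    rw [h2]
    exact mul_le_mul_of_nonneg_left h1 (by positivity)

end Pool.Agent.NUM
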