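import Pool.Agent.NUM.M1

/-!
# [NUM-T1] the trapezoid bound on one panel
-/

set_option autoImplicit false

namespace Pool.Agent.NUM

open Finset

/-- [T1] `log x ≤ (x - 1 / x) / 2` for `x ≥ 1` (`t ≤ sinh t` with `t = log x`). -/
theorem log_le_half {x : ℝ} (hx : 1 ≤ x) : Real.log x ≤ (x - 1 / x) / 2 := by
  have h0 : 0 < x := by linarith
  have h1 : Real.log x ≤ Real.sinh (Real.log x) := Real.self_le_sinh_iff.2 (Real.log_nonneg hx)
  rw [Real.sinh_eq, Real.exp_neg, Real.exp_log h0] at h1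
  rw [one_div]
  exact h1

/-- [T1] Proof. For `w` in `[a, b]`: `1 / (c - w) ≤ ((c - a - b) + w) / ((c - a) (c - b))` because
`(c - a - b + w) (c - w) - (c - a) (c - b) = (w - a) (b - w)`. Sum over `q` with `w = u X q` and weight `1 / q`; if `c - a - b ≥ 0` use
`m2_upper` and `log_le_half` with `x = b / a`, else drop this part; then `m1_upper`. All denominators are at least `1 / 100`. -/
theorem trap_one : ∃ C X0 : ℝ, 0 < C ∧ 2 ≤ X0 ∧ ∀ X : ℝ, X0 ≤ X → ∀ a b c : ℝ, 1 / 10 ≤ a → a ≤ b →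
    b + 1 / 10 ≤ c → c ≤ 2 →
    ∑ q ∈ P X a b, 1 / ((q : ℝ) * (c - u X q)) ≤ chi a b c + C / Real.log X := by
  obtain ⟨C1, X1, hC1, hX1, h1⟩ := m1_upper
  obtain ⟨C2, X2, hC2, hX2, h2⟩ := m2_upper
  refine ⟨100 * (2 * C2 + C1), max X1 X2, by positivity, le_max_of_le_left hX1, ?_⟩
  intro X hX a b c ha hab hbc hc
  have hXa : X1 ≤ X := (le_max_left _ _).trans hX
  have hXb : X2 ≤ X := (le_max_right _ _).trans hX
  have hl : 0 < Real.log X := Real.log_pos (by linarith)
  have e1 := h1 X hXa a b ha hab (by linarith)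
  have e2 := h2 X hXb a b ha hab (by linarith)
  have hapos : 0 < a := by linarith
  have hbpos : 0 < b := by linarith
  have hD : 1 / 100 ≤ (c - a) * (c - b) := by nlinarith
  have hDpos : 0 < (c - a) * (c - b) := by linarith
  have hterm : ∀ q ∈ P X a b, 1 / ((q : ℝ) * (c - u X q)) ≤
      ((c - a - b) * (1 / (q : ℝ)) + u X q / (q : ℝ)) / ((c - a) * (c - b)) := by
    intro q hq
    have hw1 := le_of_mem_P hq
    have hw2 := le_of_mem_P' hq
    have hq0 : (0 : ℝ) < q := by exact_mod_cast (prime_of_mem_P hq).pos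
    have hcw : 0 < c - u X q := by linarith
    have e3 : ((c - a - b) * (1 / (q : ℝ)) + u X q / (q : ℝ)) / ((c - a) * (c - b)) =
        (c - a - b + u X q) / ((q : ℝ) * ((c - a) * (c - b))) := by
      field_simp
    rw [e3, div_le_div_iff₀ (by positivity) (by positivity)]
    have h3 : (c - a) * (c - b) ≤ (c - a - b + u X q) * (c - u X q) := by
      nlinarith [mul_nonneg (sub_nonneg.2 hw1) (sub_nonneg.2 hw2)]
    nlinarith
  refine (Finset.sum_le_sum hterm).trans ?_
  rw [← Finset.sum_div, Finset.sum_add_distrib, ← Finset.mul_sum]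
  have hmax : (c - a - b) * ∑ q ∈ P X a b, 1 / (q : ℝ) ≤
      max 0 (c - a - b) * ((b ^ 2 - a ^ 2) / (2 * a * b)) + 2 * C2 / Real.log X := by
    have hs0 : 0 ≤ ∑ q ∈ P X a b, 1 / (q : ℝ) := Finset.sum_nonneg fun q _ => by positivity
    have hlog : Real.log (b / a) ≤ (b ^ 2 - a ^ 2) / (2 * a * b) := by
      have hx : 1 ≤ b / a := by
        rw [le_div_iff₀ hapos]
        linarith
      refine (log_le_half hx).trans (le_of_eq ?_)
      field_simp
    have hnn : 0 ≤ (b ^ 2 - a ^ 2) / (2 * a * b) := by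
      apply div_nonneg
      · nlinarith
      · positivity
    rcases le_total 0 (c - a - b) with h4 | h4
    · rw [max_eq_right h4]
      have h5 : (c - a - b) * ∑ q ∈ P X a b, 1 / (q : ℝ) ≤
          (c - a - b) * ((b ^ 2 - a ^ 2) / (2 * a * b) + C2 / Real.log X) :=
        mul_le_mul_of_nonneg_left (e2.trans (by linarith)) h4
      have h6 : (c - a - b) * (C2 / Real.log X) ≤ 2 * C2 / Real.log X := by
        rw [mul_div_assoc]
        exact mul_le_mul_of_nonneg_right (by linarith) (by positivity)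
      linarith
    · rw [max_eq_left h4]
      have h5 : (c - a - b) * ∑ q ∈ P X a b, 1 / (q : ℝ) ≤ 0 := mul_nonpos_of_nonpos_of_nonneg h4 hs0
      have h6 : 0 ≤ 2 * C2 / Real.log X := by positivity
      linarith
  have hnum : (c - a - b) * ∑ q ∈ P X a b, 1 / (q : ℝ) + ∑ q ∈ P X a b, u X q / (q : ℝ) ≤
      (max 0 (c - a - b) * ((b ^ 2 - a ^ 2) / (2 * a * b)) + (b - a)) + (2 * C2 + C1) / Real.log X := by
    have h7 : (2 * C2 + C1) / Real.log X = 2 * C2 / Real.log X + C1 / Real.log X := by ring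
    linarith
  refine (div_le_div_of_nonneg_right hnum hDpos.le).trans ?_
  rw [add_div]
  unfold chi
  refine add_le_add le_rfl ?_
  rw [div_le_iff₀ hDpos]
  have h8 : 0 ≤ (2 * C2 + C1) / Real.log X := by positivity
  have h9 : 100 * (2 * C2 + C1) / Real.log X * ((c - a) * (c - b)) =
      (2 * C2 + C1) / Real.log X * (100 * ((c - a) * (c - b))) := by ring
  rw [h9]
  nlinarith

end Pool.Agent.NUM
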