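import Pool.Agent.NUM.T1

/-!
# [NUM-T2] composite trapezoid bound in integers (unit `10 ^ 5` for exponents, `10 ^ 9` for values)
-/

set_option autoImplicit false

namespace Pool.Agent.NUM

open Finset

/-- `10 ^ 9 chi (a / 10 ^ 5) (b / 10 ^ 5) (c / 10 ^ 5)`, rounded up -/
def chiN (a b c : ℕ) : ℕ :=
  100000000000000 * ((c - a - b) * (b * b - a * a) + 2 * a * b * (b - a)) / (2 * a * b * (c - a) * (c - b)) + 1

/-- at most `n + 1` panels of width `w` on `[lo, hi]` -/
def tr (w : ℕ) : ℕ → ℕ → ℕ → ℕ → ℕ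
  | 0, lo, hi, c => chiN lo hi c
  | n + 1, lo, hi, c => if hi ≤ lo + w then chiN lo hi c else chiN lo (lo + w) c + tr w n (lo + w) hi c

/-- [T2] `chi (a / 10 ^ 5) (b / 10 ^ 5) (c / 10 ^ 5) = 10 ^ 5 N / D` with the numerator and denominator of `chiN`; truncated
subtraction is `max 0`; `x / y < x / y (natural) + 1`. -/
theorem chi_le (a b c : ℕ) (ha : 0 < a) (hab : a ≤ b) (hbc : b < c) :
    chi ((a : ℝ) / 100000) ((b : ℝ) / 100000) ((c : ℝ) / 100000) ≤ (chiN a b c : ℝ) / 1000000000 := by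
  have haR : (0 : ℝ) < a := by exact_mod_cast ha
  have hb : 0 < b := lt_of_lt_of_le ha hab
  have hbR : (0 : ℝ) < b := by exact_mod_cast hb
  have habR : (a : ℝ) ≤ b := by exact_mod_cast hab
  have hbcR : (b : ℝ) < c := by exact_mod_cast hbc
  have hac : a ≤ c := hab.trans hbc.le
  have hmax : max 0 ((c : ℝ) / 100000 - a / 100000 - b / 100000) =
      (((c - a - b : ℕ) : ℝ)) / 100000 := by
    rcases le_total (a + b) c with h | h
    · have h1 : (((c - a - b : ℕ) : ℝ)) = (c : ℝ) - a - b := by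
        rw [Nat.sub_sub, Nat.cast_sub h]
        push_cast
        ring
      have h2 : ((a : ℝ) + b) ≤ c := by exact_mod_cast h
      rw [h1, max_eq_right (by linarith)]
      ring
    · have h1 : c - a - b = 0 := by omega
      have h2 : (c : ℝ) ≤ (a : ℝ) + b := by exact_mod_cast h
      rw [h1, max_eq_left (by linarith)]
      simp
  set N : ℕ := (c - a - b) * (b * b - a * a) + 2 * a * b * (b - a) with hN
  set D : ℕ := 2 * a * b * (c - a) * (c - b) with hDd
  have hDpos : 0 < D := by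
    have h1 : 0 < c - a := by omega
    have h2 : 0 < c - b := by omega
    rw [hDd]
    positivity
  have hDR : (0 : ℝ) < (D : ℝ) := by exact_mod_cast hDpos
  have hNR : (N : ℝ) = ((c - a - b : ℕ) : ℝ) * ((b : ℝ) ^ 2 - (a : ℝ) ^ 2) + 2 * a * b * (b - a) := by
    rw [hN]
    push_cast [Nat.cast_sub hab, Nat.cast_sub (Nat.mul_le_mul hab hab)]
    ring
  have hDR2 : (D : ℝ) = 2 * a * b * (c - a) * (c - b) := by
    rw [hDd]
    push_cast [Nat.cast_sub hac, Nat.cast_sub hbc.le]
    ring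
  have hchi : chi ((a : ℝ) / 100000) ((b : ℝ) / 100000) ((c : ℝ) / 100000) = 100000 * (N : ℝ) / D := by
    unfold chi
    rw [hmax, hNR, hDR2]
    have h1 : (c : ℝ) - a ≠ 0 := by
      have : (a : ℝ) < c := lt_of_le_of_lt habR hbcR
      exact (sub_pos.2 this).ne'
    have h2 : (c : ℝ) - b ≠ 0 := (sub_pos.2 hbcR).ne'
    have h3 : (c : ℝ) / 100000 - a / 100000 = (c - a) / 100000 := by ring
    have h4 : (c : ℝ) / 100000 - b / 100000 = (c - b) / 100000 := by ring
    have h5 : (b : ℝ) / 100000 - a / 100000 = (b - a) / 100000 := by ring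
    rw [h3, h4, h5]
    generalize ((c - a - b : ℕ) : ℝ) = t
    field_simp
  have hfl : (100000000000000 * N : ℕ) < (chiN a b c) * D := by
    have h1 : chiN a b c = 100000000000000 * N / D + 1 := rfl
    rw [h1]
    exact Nat.lt_mul_of_div_lt (Nat.lt_succ_self _) hDpos
  have hflR : (100000000000000 : ℝ) * N < (chiN a b c : ℝ) * D := by exact_mod_cast hfl
  rw [hchi, div_le_div_iff₀ hDR (by norm_num)]
  linarith

/-- [T2] Proof. Induction on `n` (with the error `(n + 1) C / log X`, `C` from `trap_one`): split the primes at `lo + w`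
(`P X lo hi ⊆ P X lo (lo + w) ∪ P X (lo + w) hi`, all terms nonnegative). -/
theorem tr_sound : ∃ C X0 : ℝ, 0 < C ∧ 2 ≤ X0 ∧ ∀ X : ℝ, X0 ≤ X → ∀ w n lo hi c : ℕ, n ≤ 20 → 10000 ≤ lo → lo ≤ hi →
    hi + 10000 ≤ c → c ≤ 200000 →
    ∑ q ∈ P X ((lo : ℝ) / 100000) ((hi : ℝ) / 100000), 1 / ((q : ℝ) * ((c : ℝ) / 100000 - u X q)) ≤
      (tr w n lo hi c : ℝ) / 1000000000 + C / Real.log X := by
  obtain ⟨C, X0, hC, hX0, h⟩ := trap_one
  refine ⟨21 * C, X0, by positivity, hX0, ?_⟩
  intro X hX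
  have hl : 0 < Real.log X := Real.log_pos (by linarith)
  have hone : ∀ lo hi c : ℕ, 10000 ≤ lo → lo ≤ hi → hi + 10000 ≤ c → c ≤ 200000 →
      ∑ q ∈ P X ((lo : ℝ) / 100000) ((hi : ℝ) / 100000), 1 / ((q : ℝ) * ((c : ℝ) / 100000 - u X q)) ≤
        (chiN lo hi c : ℝ) / 1000000000 + C / Real.log X := by
    intro lo hi c h1 h2 h3 h4
    have h1R : (10000 : ℝ) ≤ lo := by exact_mod_cast h1
    have h2R : (lo : ℝ) ≤ hi := by exact_mod_cast h2
    have h3R : (hi : ℝ) + 10000 ≤ c := by exact_mod_cast h3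
    have h4R : (c : ℝ) ≤ 200000 := by exact_mod_cast h4
    have e1 := h X hX ((lo : ℝ) / 100000) ((hi : ℝ) / 100000) ((c : ℝ) / 100000) (by linarith)
      (by linarith) (by linarith) (by linarith)
    have e2 := chi_le lo hi c (by omega) h2 (by omega)
    linarith
  have key : ∀ n w lo hi c : ℕ, 10000 ≤ lo → lo ≤ hi → hi + 10000 ≤ c → c ≤ 200000 →
      ∑ q ∈ P X ((lo : ℝ) / 100000) ((hi : ℝ) / 100000), 1 / ((q : ℝ) * ((c : ℝ) / 100000 - u X q)) ≤
        (tr w n lo hi c : ℝ) / 1000000000 + (n + 1) * (C / Real.log X) := by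
    intro n
    have hCl : 0 ≤ C / Real.log X := by positivity
    induction n with
    | zero =>
      intro w lo hi c h1 h2 h3 h4
      have e1 := hone lo hi c h1 h2 h3 h4
      simpa [tr] using e1
    | succ n ih =>
      intro w lo hi c h1 h2 h3 h4
      by_cases hw : hi ≤ lo + w
      · have e1 := hone lo hi c h1 h2 h3 h4
        have e2 : tr w (n + 1) lo hi c = chiN lo hi c := by
          rw [tr, if_pos hw]
        rw [e2]
        have h5 : C / Real.log X ≤ (((n + 1 : ℕ) : ℝ) + 1) * (C / Real.log X) := by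
          have h6 : (0 : ℝ) ≤ ((n + 1 : ℕ) : ℝ) := Nat.cast_nonneg _
          nlinarith
        linarith
      · have hw' : lo + w ≤ hi := (not_le.1 hw).le
        have e2 : tr w (n + 1) lo hi c = chiN lo (lo + w) c + tr w n (lo + w) hi c := by
          rw [tr, if_neg hw]
        have f1 := hone lo (lo + w) c h1 (Nat.le_add_right _ _) (by omega) h4
        have f2 := ih w (lo + w) hi c (by omega) hw' h3 h4
        have hnn : ∀ q : ℕ, u X q ≤ (hi : ℝ) / 100000 →
            0 ≤ 1 / ((q : ℝ) * ((c : ℝ) / 100000 - u X q)) := by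
          intro q hq
          have h3R : (hi : ℝ) + 10000 ≤ c := by exact_mod_cast h3
          have h5 : 0 ≤ (c : ℝ) / 100000 - u X q := by linarith
          positivity
        have hwR : ((lo + w : ℕ) : ℝ) ≤ hi := by exact_mod_cast hw'
        have hsub : P X ((lo : ℝ) / 100000) ((hi : ℝ) / 100000) ⊆
            P X ((lo : ℝ) / 100000) (((lo + w : ℕ) : ℝ) / 100000) ∪
              P X (((lo + w : ℕ) : ℝ) / 100000) ((hi : ℝ) / 100000) := by
          intro q hq
          rw [Finset.mem_union]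
          unfold P at hq ⊢
          rw [Finset.mem_filter] at hq
          rw [Finset.mem_filter, Finset.mem_filter]
          rcases le_total (u X q) (((lo + w : ℕ) : ℝ) / 100000) with h5 | h5
          · exact Or.inl ⟨hq.1, hq.2.1, hq.2.2.1, h5⟩
          · exact Or.inr ⟨hq.1, hq.2.1, h5, hq.2.2.2⟩
        have hall : ∀ q ∈ P X ((lo : ℝ) / 100000) (((lo + w : ℕ) : ℝ) / 100000) ∪
              P X (((lo + w : ℕ) : ℝ) / 100000) ((hi : ℝ) / 100000),
            0 ≤ 1 / ((q : ℝ) * ((c : ℝ) / 100000 - u X q)) := by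
          intro q hq
          rcases Finset.mem_union.1 hq with h5 | h5
          · exact hnn q ((le_of_mem_P' h5).trans (by linarith))
          · exact hnn q (le_of_mem_P' h5)
        have g1 := Finset.sum_le_sum_of_subset_of_nonneg hsub (fun q hq _ => hall q hq)
        have g2 : ∑ q ∈ P X ((lo : ℝ) / 100000) (((lo + w : ℕ) : ℝ) / 100000) ∪
              P X (((lo + w : ℕ) : ℝ) / 100000) ((hi : ℝ) / 100000),
              1 / ((q : ℝ) * ((c : ℝ) / 100000 - u X q)) ≤
            ∑ q ∈ P X ((lo : ℝ) / 100000) (((lo + w : ℕ) : ℝ) / 100000),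
              1 / ((q : ℝ) * ((c : ℝ) / 100000 - u X q)) +
            ∑ q ∈ P X (((lo + w : ℕ) : ℝ) / 100000) ((hi : ℝ) / 100000),
              1 / ((q : ℝ) * ((c : ℝ) / 100000 - u X q)) := by
          rw [← Finset.sum_union_inter]
          have g3 : 0 ≤ ∑ q ∈ P X ((lo : ℝ) / 100000) (((lo + w : ℕ) : ℝ) / 100000) ∩
              P X (((lo + w : ℕ) : ℝ) / 100000) ((hi : ℝ) / 100000),
              1 / ((q : ℝ) * ((c : ℝ) / 100000 - u X q)) :=
            Finset.sum_nonneg fun q hq => hall q (Finset.mem_union_left _ (Finset.mem_inter.1 hq).1)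
          linarith
        rw [e2]
        push_cast at *
        have h7 : ((chiN lo (lo + w) c : ℝ) + (tr w n (lo + w) hi c : ℝ)) / 1000000000 =
            (chiN lo (lo + w) c : ℝ) / 1000000000 + (tr w n (lo + w) hi c : ℝ) / 1000000000 := by ring
        rw [h7]
        linarith
  intro w n lo hi c hn h1 h2 h3 h4
  have e1 := key n w lo hi c h1 h2 h3 h4
  have h5 : ((n : ℝ) + 1) * (C / Real.log X) ≤ 21 * C / Real.log X := by
    have h6 : (n : ℝ) ≤ 20 := by exact_mod_cast hn
    rw [mul_div_assoc]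
    exact mul_le_mul_of_nonneg_right (by linarith) (by positivity)
  linarith

end Pool.Agent.NUM
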