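import Pool.Agent.NUM.M1

/-!
# [NUM-T3] the mass of a cell
-/

set_option autoImplicit false

namespace Pool.Agent.NUM

open Finset

/-- [T3] Proof. For `q` in `P X lo (d / 2)`, `w = u X q`: the inner sum is `1 / q` times a sum over `P X (c - w) (d - w)`,
`c - w ≥ 1 / 10`, so by `last_upper` (`τ = c - w`, `η = d - c`) it is at most `(1 / q) ((d - c) / (c - w) + C / log X)`; then `P_mass`. -/
theorem Mc_le : ∃ C X0 : ℝ, 0 < C ∧ 2 ≤ X0 ∧ ∀ X : ℝ, X0 ≤ X → ∀ lo c d : ℝ, 1 / 10 ≤ lo → c ≤ d → d / 2 + 1 / 10 ≤ c →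
    d ≤ 2 →
    Mc X lo c d ≤ (d - c) * ∑ q ∈ P X lo (d / 2), 1 / ((q : ℝ) * (c - u X q)) + C / Real.log X := by
  obtain ⟨C1, X1, hC1, hX1, h1⟩ := last_upper
  obtain ⟨X2, hX2, h2⟩ := P_mass
  refine ⟨4 * C1, max X1 X2, by positivity, le_max_of_le_left hX1, ?_⟩
  intro X hX lo c d hlo hcd hdc hd
  have hXa : X1 ≤ X := (le_max_left _ _).trans hX
  have hXb : X2 ≤ X := (le_max_right _ _).trans hX
  have hl : 0 < Real.log X := Real.log_pos (by linarith)
  have hterm : ∀ q ∈ P X lo (d / 2), ∑ q' ∈ P X (c - u X q) (d - u X q), 1 / ((q : ℝ) * q') ≤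
      (d - c) * (1 / ((q : ℝ) * (c - u X q))) + C1 / Real.log X * (1 / (q : ℝ)) := by
    intro q hq
    have hw1 := le_of_mem_P hq
    have hw2 := le_of_mem_P' hq
    have hq0 : (0 : ℝ) < q := by exact_mod_cast (prime_of_mem_P hq).pos
    have hcw : 0 < c - u X q := by linarith
    have e1 : ∑ q' ∈ P X (c - u X q) (d - u X q), 1 / ((q : ℝ) * q') =
        1 / (q : ℝ) * ∑ q' ∈ P X (c - u X q) (d - u X q), 1 / (q' : ℝ) := by
      rw [Finset.mul_sum]
      refine Finset.sum_congr rfl fun q' _ => ?_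
      rw [one_div_mul_one_div]
    have e2 := h1 X hXa (d - c) (c - u X q) (by linarith) (by linarith) (by linarith)
    have e3 : c - u X q + (d - c) = d - u X q := by ring
    rw [e3] at e2
    rw [e1]
    refine (mul_le_mul_of_nonneg_left e2 (by positivity)).trans (le_of_eq ?_)
    field_simp
  unfold Mc
  refine (Finset.sum_le_sum hterm).trans ?_
  rw [Finset.sum_add_distrib, ← Finset.mul_sum, ← Finset.mul_sum]
  refine add_le_add le_rfl ?_
  have h3 := h2 X hXb lo (d / 2) hlo (by linarith)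
  have h4 : C1 / Real.log X * ∑ q ∈ P X lo (d / 2), 1 / (q : ℝ) ≤ C1 / Real.log X * 4 :=
    mul_le_mul_of_nonneg_left h3 (by positivity)
  refine h4.trans (le_of_eq ?_)
  ring

end Pool.Agent.NUM
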