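import Pool.Agent.NUM.B0

/-!
# [NUM-T4] covering the pairs of primes by cells
-/

set_option autoImplicit false

namespace Pool.Agent.NUM

open Finset

/-- left end of the cell `j`, first part (`0.666 .. 0.875`) -/
noncomputable def c1 (j : ℕ) : ℝ := (66600 + 50 * (j : ℝ)) / 100000

/-- left end of the cell `j`, second part (`0.9999 .. 1.3334`) -/
noncomputable def c2 (j : ℕ) : ℝ := (99990 + 50 * (j : ℝ)) / 100000

/-- [T4] a covering lemma: if every `t ∈ T` with `0 < f t` is in some `Tj j`, `j < N`, with `f t ≤ g j t`. -/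
theorem cover {ι : Type*} [DecidableEq ι] (T : Finset ι) (N : ℕ) (Tj : ℕ → Finset ι) (f : ι → ℝ) (g : ℕ → ι → ℝ)
    (hg : ∀ j < N, ∀ t ∈ Tj j, 0 ≤ g j t)
    (H : ∀ t ∈ T, 0 < f t → ∃ j < N, t ∈ Tj j ∧ f t ≤ g j t) :
    ∑ t ∈ T, f t ≤ ∑ j ∈ range N, ∑ t ∈ Tj j, g j t := by
  have key : ∀ t ∈ T, f t ≤ ∑ j ∈ range N, (if t ∈ Tj j then g j t else 0) := by
    intro t ht
    have hnn : ∀ j ∈ range N, 0 ≤ (if t ∈ Tj j then g j t else 0) := by
      intro j hj
      split_ifs with h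
      · exact hg j (mem_range.1 hj) t h
      · exact le_rfl
    rcases le_or_gt (f t) 0 with h0 | h0
    · exact h0.trans (Finset.sum_nonneg hnn)
    · obtain ⟨j, hj, htj, hle⟩ := H t ht h0
      refine hle.trans ?_
      have := Finset.single_le_sum hnn (mem_range.2 hj)
      rwa [if_pos htj] at this
  calc ∑ t ∈ T, f t ≤ ∑ t ∈ T, ∑ j ∈ range N, (if t ∈ Tj j then g j t else 0) :=
        Finset.sum_le_sum key
    _ = ∑ j ∈ range N, ∑ t ∈ T, (if t ∈ Tj j then g j t else 0) := Finset.sum_comm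
    _ ≤ ∑ j ∈ range N, ∑ t ∈ Tj j, g j t := by
        refine Finset.sum_le_sum fun j hj => ?_
        rw [← Finset.sum_filter]
        exact Finset.sum_le_sum_of_subset_of_nonneg (fun t ht => (Finset.mem_filter.1 ht).2)
          (fun t ht _ => hg j (mem_range.1 hj) t ht)

/-- the covering lemma for the pairs of primes -/
theorem T4_cover2 {X : ℝ} (N : ℕ) (lo c d κ : ℕ → ℝ) (F : ℕ → ℕ → ℝ) (hκ : ∀ j < N, 0 ≤ κ j)
    (H : ∀ q q' : ℕ, q ∈ P X a0 1 → q' ∈ P X a0 1 → q < q' → 0 < F q q' →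
      ∃ j < N, q ∈ P X (lo j) (d j / 2) ∧ q' ∈ P X (c j - u X q) (d j - u X q) ∧ F q q' ≤ κ j) :
    ∑ q ∈ P X a0 1, ∑ q' ∈ (P X a0 1).filter (fun q' => q < q'), F q q' / ((q : ℝ) * q') ≤
      ∑ j ∈ range N, κ j * Mc X (lo j) (c j) (d j) := by
  classical
  have e : ∀ j, κ j * Mc X (lo j) (c j) (d j) =
      ∑ t ∈ (P X (lo j) (d j / 2)).sigma (fun q => P X (c j - u X q) (d j - u X q)),
        κ j * (1 / ((t.1 : ℝ) * t.2)) := by
    intro j
    unfold Mc
    rw [Finset.sum_sigma', Finset.mul_sum]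
  rw [Finset.sum_sigma', Finset.sum_congr rfl fun j _ => e j]
  refine cover _ N _ (fun t : (_ : ℕ) × ℕ => F t.1 t.2 / ((t.1 : ℝ) * t.2))
    (fun j t => κ j * (1 / ((t.1 : ℝ) * t.2))) ?_ ?_
  · intro j hj t _
    have := hκ j hj
    positivity
  · rintro ⟨q, q'⟩ ht hpos
    rw [Finset.mem_sigma, Finset.mem_filter] at ht
    obtain ⟨hq, hq', hlt⟩ := ht
    simp only at hq hq' hlt hpos ⊢
    have h1 : (0 : ℝ) < q := by exact_mod_cast (prime_of_mem_P hq).pos
    have h2 : (0 : ℝ) < q' := by exact_mod_cast (prime_of_mem_P hq').pos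
    have h3 : 0 < (q : ℝ) * q' := mul_pos h1 h2
    have h4 : 0 < F q q' := by
      have := mul_pos hpos h3
      rwa [div_mul_cancel₀ _ h3.ne'] at this
    obtain ⟨j, hj, ha, hb, hle⟩ := H q q' hq hq' hlt h4
    refine ⟨j, hj, ?_, ?_⟩
    · rw [Finset.mem_sigma]
      exact ⟨ha, hb⟩
    · rw [mul_one_div]
      exact div_le_div_of_nonneg_right hle h3.le

theorem T4_c1 (j : ℕ) : c1 j = 333 / 500 + (j : ℝ) / 2000 := by
  unfold c1
  ring

theorem T4_c2 (j : ℕ) : c2 j = 9999 / 10000 + (j : ℝ) / 2000 := by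
  unfold c2
  ring

theorem T4_lt {j N : ℕ} (h : j < N) : (j : ℝ) + 1 ≤ N := by exact_mod_cast h

/-- the cell of a pair in the first part -/
theorem T4_cell1 {X : ℝ} (hX : 1 < X) {q q' : ℕ} (hq : q ∈ P X a0 1) (hq' : q' ∈ P X a0 1)
    (hlt : q < q') (hr : 0 < rho (u X q + u X q')) :
    ∃ j < 418, (c1 j ≤ u X q + u X q' ∧ u X q + u X q' ≤ c1 (j + 1)) ∧
      q ∈ P X a0 (c1 (j + 1) / 2) ∧ q' ∈ P X (c1 j - u X q) (c1 (j + 1) - u X q) := by
  have h1 := le_of_mem_P hq
  have h2 := le_of_mem_P hq'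
  have h3 := u_le hX hlt.le
  obtain ⟨v, hv⟩ : ∃ v, v = u X q + u X q' := ⟨_, rfl⟩
  rw [← hv] at hr ⊢
  have hv1 : v < 7 / 8 := by
    by_contra hc
    have : rho v = 0 := by
      unfold rho
      exact max_eq_left (by linarith)
    linarith
  have ha : a0 = 333 / 1000 := rfl
  have hv0 : 333 / 500 ≤ v := by
    rw [hv]
    linarith
  have hx : 0 ≤ (v - 333 / 500) * 2000 := by nlinarith
  refine ⟨⌊(v - 333 / 500) * 2000⌋₊, ?_, ?_⟩
  · rw [Nat.floor_lt hx]
    push_cast
    linarith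
  have f1 := Nat.floor_le hx
  have f2 := Nat.lt_floor_add_one ((v - 333 / 500) * 2000)
  obtain ⟨j, hj⟩ : ∃ j, j = ⌊(v - 333 / 500) * 2000⌋₊ := ⟨_, rfl⟩
  rw [← hj] at f1 f2 ⊢
  have hj1 : (j : ℝ) < 418 := by linarith
  have b1 : c1 j ≤ v := by
    rw [T4_c1]
    linarith
  have b2 : v ≤ c1 (j + 1) := by
    rw [T4_c1]
    push_cast
    linarith
  have b3 : c1 (j + 1) ≤ 1 := by
    rw [T4_c1]
    push_cast
    linarith
  refine ⟨⟨b1, b2⟩, ?_, ?_⟩
  · rw [mem_P hX (by linarith)]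
    exact ⟨prime_of_mem_P hq, h1, by linarith⟩
  · rw [mem_P hX (by linarith)]
    exact ⟨prime_of_mem_P hq', by linarith, by linarith⟩

theorem T4_rho_le {v c : ℝ} (h : c ≤ v) (h' : 0 ≤ 7 - 8 * c) : rho v ≤ 7 - 8 * c := by
  unfold rho
  exact max_le h' (by linarith)

/-- [T4] Proof. Write `F3 = F3a + F3b` (the two summands) and apply `cover` to each (as sums over pairs, `Finset.sum_sigma'` or products):
for `q < q'` in `P X a0 1` with exponents `w < w'`, `v = w + w'`: if `rho v > 0` then `0.666 ≤ v < 0.875`, take `j = ⌊(v - 0.666) / 0.0005⌋₊`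
(`j < 418`), `c1 j ≤ v ≤ c1 (j + 1)`; `q ∈ P X a0 (c1 (j + 1) / 2)` (`w ≤ v / 2`), `q' ∈ P X (c1 j - w) (c1 (j + 1) - w)`,
`rho v ≤ 7 - 8 c1 j`. If the second summand is positive: `0.9999 ≤ v`, `w + 2 w' ≤ 2` gives `w ≥ 2 v - 2` and `3 v / 2 ≤ 2` (as `w ≤ v / 2`), so `v ≤ 1.3334`
and `j = ⌊(v - 0.9999) / 0.0005⌋₊ < 667`. -/
theorem S3_cells {X : ℝ} (hX : 1 < X) : S3 X ≤
    ∑ j ∈ range 418, (7 - 8 * c1 j) / (2 - 2 / 100000 - c1 (j + 1)) * Mc X a0 (c1 j) (c1 (j + 1)) +
    ∑ j ∈ range 667, 2 / (2 - 2 / 100000 - c2 (j + 1)) * Mc X (max a0 (2 * c2 j - 2)) (c2 j) (c2 (j + 1)) := by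
  have e : S3 X = (∑ q ∈ P X a0 1, ∑ q' ∈ (P X a0 1).filter (fun q' => q < q'),
        (rho (u X q + u X q') / (2 - 2 / 100000 - (u X q + u X q'))) / ((q : ℝ) * q')) +
      ∑ q ∈ P X a0 1, ∑ q' ∈ (P X a0 1).filter (fun q' => q < q'),
        (if 9999 / 10000 ≤ u X q + u X q' ∧ u X q + 2 * u X q' ≤ 2 then
          2 / (2 - 2 / 100000 - (u X q + u X q')) else 0) / ((q : ℝ) * q') := by
    unfold S3 F3
    rw [← Finset.sum_add_distrib]
    refine Finset.sum_congr rfl fun q _ => ?_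
    rw [← Finset.sum_add_distrib]
    exact Finset.sum_congr rfl fun q' _ => add_div _ _ _
  rw [e]
  refine add_le_add ?_ ?_
  · refine T4_cover2 418 (fun _ => a0) c1 (fun j => c1 (j + 1))
      (fun j => (7 - 8 * c1 j) / (2 - 2 / 100000 - c1 (j + 1)))
      (fun q q' => rho (u X q + u X q') / (2 - 2 / 100000 - (u X q + u X q'))) ?_ ?_
    · intro j hj
      have hj' := T4_lt hj
      push_cast at hj'
      refine div_nonneg ?_ ?_
      · rw [T4_c1]
        linarith
      · rw [T4_c1]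
        push_cast
        linarith
    · intro q q' hq hq' hlt hpos
      have hr : 0 < rho (u X q + u X q') := by
        rcases (rho_nonneg (u X q + u X q')).lt_or_eq with h | h
        · exact h
        · rw [← h, zero_div] at hpos
          exact absurd hpos (lt_irrefl _)
      obtain ⟨j, hj, ⟨b1, b2⟩, h1, h2⟩ := T4_cell1 hX hq hq' hlt hr
      refine ⟨j, hj, h1, h2, ?_⟩
      have hj' := T4_lt hj
      push_cast at hj'
      have h3 : 0 ≤ 7 - 8 * c1 j := by
        rw [T4_c1]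
        linarith
      have h4 : 0 < 2 - 2 / 100000 - c1 (j + 1) := by
        rw [T4_c1]
        push_cast
        linarith
      exact div_le_div₀ h3 (T4_rho_le b1 h3) h4 (by linarith)
  · refine T4_cover2 667 (fun j => max a0 (2 * c2 j - 2)) c2 (fun j => c2 (j + 1))
      (fun j => 2 / (2 - 2 / 100000 - c2 (j + 1)))
      (fun q q' => if 9999 / 10000 ≤ u X q + u X q' ∧ u X q + 2 * u X q' ≤ 2 then
          2 / (2 - 2 / 100000 - (u X q + u X q')) else 0) ?_ ?_
    · intro j hj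
      have hj' := T4_lt hj
      push_cast at hj'
      refine div_nonneg (by norm_num) ?_
      rw [T4_c2]
      push_cast
      linarith
    · intro q q' hq hq' hlt hpos
      by_cases hc : 9999 / 10000 ≤ u X q + u X q' ∧ u X q + 2 * u X q' ≤ 2
      swap
      · rw [if_neg hc] at hpos
        exact absurd hpos (lt_irrefl _)
      obtain ⟨g1, g2⟩ := hc
      have h1 := le_of_mem_P hq
      have h2 := le_of_mem_P hq'
      have h3 := u_le hX hlt.le
      have hx : 0 ≤ (u X q + u X q' - 9999 / 10000) * 2000 := by linarith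
      have f1 := Nat.floor_le hx
      have f2 := Nat.lt_floor_add_one ((u X q + u X q' - 9999 / 10000) * 2000)
      have f3 : ⌊(u X q + u X q' - 9999 / 10000) * 2000⌋₊ < 667 := by
        rw [Nat.floor_lt hx]
        push_cast
        linarith
      obtain ⟨j, hj⟩ : ∃ j, j = ⌊(u X q + u X q' - 9999 / 10000) * 2000⌋₊ := ⟨_, rfl⟩
      rw [← hj] at f1 f2 f3
      have hj' := T4_lt f3
      push_cast at hj'
      have b1 : c2 j ≤ u X q + u X q' := by
        rw [T4_c2]
        linarith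
      have b2 : u X q + u X q' ≤ c2 (j + 1) := by
        rw [T4_c2]
        push_cast
        linarith
      have b3 : c2 (j + 1) ≤ 14 / 10 := by
        rw [T4_c2]
        push_cast
        linarith
      refine ⟨j, f3, ?_, ?_, ?_⟩
      · rw [mem_P hX (by linarith)]
        exact ⟨prime_of_mem_P hq, max_le h1 (by linarith), by linarith⟩
      · have h0 := u_nonneg hX q
        rw [mem_P hX (by linarith)]
        exact ⟨prime_of_mem_P hq', by linarith, by linarith⟩
      · rw [if_pos ⟨g1, g2⟩]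
        exact div_le_div_of_nonneg_left (by norm_num) (by linarith) (by linarith)

/-- [T4] Proof. As the first part of `S3_cells`; for `c1 j ≤ v ≤ c1 (j + 1)` one has
`BX X v ≤ ∑ q ∈ P X a0 ((2 - c1 j) / 2), 1 / (q (2 - 2 / 100000 - c1 (j + 1) - u X q))` (larger range, smaller positive denominator). -/
theorem S4_cells {X : ℝ} (hX : 1 < X) : S4 X ≤
    ∑ j ∈ range 418, (7 - 8 * c1 j) *
      (∑ q ∈ P X a0 ((2 - c1 j) / 2), 1 / ((q : ℝ) * (2 - 2 / 100000 - c1 (j + 1) - u X q))) *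
        Mc X a0 (c1 j) (c1 (j + 1)) := by
  have hB : ∀ j < 418, ∀ q ∈ P X a0 ((2 - c1 j) / 2), 0 < 2 - 2 / 100000 - c1 (j + 1) - u X q := by
    intro j hj q hq
    have hj' := T4_lt hj
    push_cast at hj'
    have h1 := le_of_mem_P' hq
    rw [T4_c1] at h1 ⊢
    push_cast
    linarith
  have hBn : ∀ j < 418, 0 ≤ ∑ q ∈ P X a0 ((2 - c1 j) / 2),
      1 / ((q : ℝ) * (2 - 2 / 100000 - c1 (j + 1) - u X q)) := by
    intro j hj
    refine Finset.sum_nonneg fun q hq => ?_
    have := hB j hj q hq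
    positivity
  have hc : ∀ j < 418, 0 ≤ 7 - 8 * c1 j := by
    intro j hj
    have hj' := T4_lt hj
    push_cast at hj'
    rw [T4_c1]
    linarith
  unfold S4 F4
  refine T4_cover2 418 (fun _ => a0) c1 (fun j => c1 (j + 1))
    (fun j => (7 - 8 * c1 j) *
      (∑ q ∈ P X a0 ((2 - c1 j) / 2), 1 / ((q : ℝ) * (2 - 2 / 100000 - c1 (j + 1) - u X q))))
    (fun q q' => rho (u X q + u X q') * BX X (u X q + u X q')) ?_ ?_
  · intro j hj
    exact mul_nonneg (hc j hj) (hBn j hj)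
  · intro q q' hq hq' hlt hpos
    have hr : 0 < rho (u X q + u X q') := by
      rcases (rho_nonneg (u X q + u X q')).lt_or_eq with h | h
      · exact h
      · rw [← h, zero_mul] at hpos
        exact absurd hpos (lt_irrefl _)
    obtain ⟨j, hj, ⟨b1, b2⟩, h1, h2⟩ := T4_cell1 hX hq hq' hlt hr
    refine ⟨j, hj, h1, h2, ?_⟩
    have hsub : P X a0 ((2 - (u X q + u X q')) / 2) ⊆ P X a0 ((2 - c1 j) / 2) :=
      P_subset le_rfl (by linarith)
    have h3 : BX X (u X q + u X q') ≤ ∑ q ∈ P X a0 ((2 - c1 j) / 2),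
        1 / ((q : ℝ) * (2 - 2 / 100000 - c1 (j + 1) - u X q)) := by
      unfold BX
      refine (Finset.sum_le_sum fun x hx => ?_).trans
        (Finset.sum_le_sum_of_subset_of_nonneg hsub fun x hx _ => ?_)
      · have h4 := hB j hj x (hsub hx)
        have h5 : (0 : ℝ) < x := by exact_mod_cast (prime_of_mem_P hx).pos
        exact div_le_div_of_nonneg_left (by norm_num) (mul_pos h5 h4)
          (mul_le_mul_of_nonneg_left (by linarith) h5.le)
      · have h4 := hB j hj x hx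
        positivity
    have h6 : 0 ≤ BX X (u X q + u X q') := by
      unfold BX
      refine Finset.sum_nonneg fun x hx => ?_
      have h4 := hB j hj x (hsub hx)
      have h5 : 0 < 2 - 2 / 100000 - (u X q + u X q') - u X x := by linarith
      positivity
    exact mul_le_mul (T4_rho_le b1 (hc j hj)) h3 h6 (hc j hj)

end Pool.Agent.NUM
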