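import Pool.Agent.NUM.T2

/-!
# [NUM-T5] the numeric check
-/

set_option autoImplicit false

namespace Pool.Agent.NUM

/-- the value of the cell `j` of the first part, in units `10 ^ (-9)`, rounded up -/
def val1 (j : ℕ) : ℕ :=
  (700000 - 8 * (66600 + 50 * j)) *
    (100000000000000 / (199998 - (66650 + 50 * j)) + 1 +
      tr 10000 5 33300 ((133400 - 50 * j) / 2) (199998 - (66650 + 50 * j))) *
    50 * tr 5000 5 33300 ((66650 + 50 * j) / 2) (66600 + 50 * j) / 10000000000000000000 + 1

/-- the value of the cell `j` of the second part, in units `10 ^ (-9)`, rounded up -/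
def val2 (j : ℕ) : ℕ :=
  if max 33300 (100 * j - 20) ≤ (100040 + 50 * j) / 2 then
    (200000000000000 / (199998 - (100040 + 50 * j)) + 1) * 50 *
      tr 5000 10 (max 33300 (100 * j - 20)) ((100040 + 50 * j) / 2) (99990 + 50 * j) / 100000000000000 + 1
  else 0

/-- `f 0 + ... + f (n - 1)` -/
def sumTo (f : ℕ → ℕ) : ℕ → ℕ
  | 0 => 0
  | n + 1 => sumTo f n + f n

theorem sumTo_eq (f : ℕ → ℕ) (n : ℕ) : sumTo f n = ∑ j ∈ Finset.range n, f j := by
  induction n with
  | zero => rfl
  | succ n ih => rw [Finset.sum_range_succ, ← ih, sumTo]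

set_option maxRecDepth 100000 in
theorem check1 : sumTo val1 418 ≤ 68340000 := by decide +kernel

set_option maxRecDepth 100000 in
theorem check2 : sumTo val2 667 ≤ 423160000 := by decide +kernel

/-- the numeric check, by evaluation in the kernel -/
theorem check : sumTo val1 418 + sumTo val2 667 ≤ 491500000 :=
  (Nat.add_le_add check1 check2).trans (by norm_num)

end Pool.Agent.NUM
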