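import Pool.Agent.NUM.T2
import Pool.Agent.NUM.T3
import Pool.Agent.NUM.T4
import Pool.Agent.NUM.T5

/-!
# [NUM-T6] the pair sums
-/

set_option autoImplicit false

namespace Pool.Agent.NUM

open Finset

private theorem t6_div (n d : ℕ) (hd : 0 < d) : (n : ℝ) / d ≤ ((n / d + 1 : ℕ) : ℝ) := by
  have h := Nat.lt_mul_div_succ n hd
  have h1 : (n : ℝ) < ((d * (n / d + 1) : ℕ) : ℝ) := by exact_mod_cast h
  have hd' : (0 : ℝ) < d := by exact_mod_cast hd
  rw [div_le_iff₀ hd']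
  rw [Nat.cast_mul] at h1
  linarith [mul_comm (d : ℝ) ((n / d + 1 : ℕ) : ℝ)]

private theorem t6_prod {L x y a m E E' : ℝ} (hL : 1 / 2 ≤ L) (hx : 0 ≤ x) (hm : 0 ≤ m)
    (_ha : 0 ≤ a) (hE : 0 ≤ E) (hE' : 0 ≤ E') (h1 : x ≤ a + E / L) (h2 : y ≤ m + E' / L) :
    x * y ≤ a * m + (a * E' + m * E + 2 * E * E') / L := by
  have hL0 : 0 < L := by linarith
  have hEL : 0 ≤ E / L := div_nonneg hE hL0.le
  have hEL' : 0 ≤ E' / L := div_nonneg hE' hL0.le
  have h3 : x * y ≤ (a + E / L) * (m + E' / L) :=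
    (mul_le_mul_of_nonneg_left h2 hx).trans
      (mul_le_mul_of_nonneg_right h1 (add_nonneg hm hEL'))
  have h4 : E / L * (E' / L) ≤ 2 * E * E' / L := by
    rw [div_mul_div_comm, div_le_div_iff₀ (by positivity) hL0]
    have : 0 ≤ E * E' * L * (2 * L - 1) := by
      apply mul_nonneg (mul_nonneg (mul_nonneg hE hE') hL0.le)
      linarith
    nlinarith [this]
  calc x * y ≤ (a + E / L) * (m + E' / L) := h3
    _ = a * m + (a * E' / L + m * E / L) + E / L * (E' / L) := by ring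
    _ ≤ a * m + (a * E' / L + m * E / L) + 2 * E * E' / L := by linarith
    _ = _ := by ring

private theorem t6_Mc_nonneg {X : ℝ} (lo c d : ℝ) : 0 ≤ Mc X lo c d := by
  unfold Mc
  exact Finset.sum_nonneg fun q _ => Finset.sum_nonneg fun q' _ => by positivity

/-- the bound for the mass of a cell in integers -/
private theorem t6_Mc : ∃ C X0 : ℝ, 0 < C ∧ 2 ≤ X0 ∧ ∀ X : ℝ, X0 ≤ X → ∀ n lo hi c : ℕ, n ≤ 20 →
    10000 ≤ lo → lo ≤ hi → hi + 10000 ≤ c → c ≤ 2 * hi → 2 * hi ≤ c + 50 → 2 * hi ≤ 200000 →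
    Mc X ((lo : ℝ) / 100000) ((c : ℝ) / 100000) (((2 * hi : ℕ) : ℝ) / 100000) ≤
      50 / 100000 * ((tr 5000 n lo hi c : ℝ) / 1000000000) + C / Real.log X := by
  obtain ⟨C1, X1, hC1, hX1, h1⟩ := Mc_le
  obtain ⟨C2, X2, hC2, hX2, h2⟩ := tr_sound
  refine ⟨C1 + C2, max X1 X2, by linarith, le_max_of_le_left hX1, ?_⟩
  intro X hX n lo hi c hn hlo hlh hhc hc2 hc3 hc4
  have hXa : X1 ≤ X := (le_max_left _ _).trans hX
  have hXb : X2 ≤ X := (le_max_right _ _).trans hX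
  have hL : 0 < Real.log X := Real.log_pos (by linarith)
  have r1 : (10000 : ℝ) ≤ lo := by exact_mod_cast hlo
  have r2 : (lo : ℝ) ≤ hi := by exact_mod_cast hlh
  have r3 : (hi : ℝ) + 10000 ≤ c := by exact_mod_cast hhc
  have r4 : (c : ℝ) ≤ 2 * hi := by exact_mod_cast hc2
  have r5 : 2 * (hi : ℝ) ≤ c + 50 := by exact_mod_cast hc3
  have r6 : 2 * (hi : ℝ) ≤ 200000 := by exact_mod_cast hc4
  have hc6 : c ≤ 200000 := hc2.trans hc4
  have e1 : (((2 * hi : ℕ) : ℝ) / 100000) / 2 = (hi : ℝ) / 100000 := by push_cast; ring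
  have h3 := h1 X hXa ((lo : ℝ) / 100000) ((c : ℝ) / 100000) (((2 * hi : ℕ) : ℝ) / 100000)
    (by linarith) (by push_cast; linarith) (by rw [e1]; linarith) (by push_cast; linarith)
  rw [e1] at h3
  have h4 := h2 X hXb 5000 n lo hi c hn hlo hlh hhc hc6
  have hd : (((2 * hi : ℕ) : ℝ) / 100000) - (c : ℝ) / 100000 ≤ 50 / 100000 := by
    push_cast; linarith
  have hd0 : 0 ≤ (((2 * hi : ℕ) : ℝ) / 100000) - (c : ℝ) / 100000 := by push_cast; linarith
  have hs0 : 0 ≤ ∑ q ∈ P X ((lo : ℝ) / 100000) ((hi : ℝ) / 100000),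
      1 / ((q : ℝ) * ((c : ℝ) / 100000 - u X q)) := by
    refine Finset.sum_nonneg fun q hq => ?_
    have h5 := le_of_mem_P' hq
    have h6 : 0 ≤ (c : ℝ) / 100000 - u X q := by linarith
    positivity
  have h5 : 0 ≤ C2 / Real.log X := by positivity
  calc Mc X ((lo : ℝ) / 100000) ((c : ℝ) / 100000) (((2 * hi : ℕ) : ℝ) / 100000)
      ≤ ((((2 * hi : ℕ) : ℝ) / 100000) - (c : ℝ) / 100000) *
        ∑ q ∈ P X ((lo : ℝ) / 100000) ((hi : ℝ) / 100000),
          1 / ((q : ℝ) * ((c : ℝ) / 100000 - u X q)) + C1 / Real.log X := h3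
    _ ≤ 50 / 100000 * ((tr 5000 n lo hi c : ℝ) / 1000000000 + C2 / Real.log X) +
          C1 / Real.log X := by
        have h6 := mul_le_mul hd h4 hs0 (by norm_num : (0 : ℝ) ≤ 50 / 100000)
        linarith
    _ ≤ 50 / 100000 * ((tr 5000 n lo hi c : ℝ) / 1000000000) + (C1 + C2) / Real.log X := by
        rw [add_div, mul_add]
        linarith

private theorem t6_num1 (K A t : ℕ) :
    (K : ℝ) / 100000 * (((A : ℝ) / 1000000000) * (50 / 100000 * ((t : ℝ) / 1000000000))) ≤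
      ((K * A * 50 * t / 10000000000000000000 + 1 : ℕ) : ℝ) / 1000000000 := by
  have h := t6_div (K * A * 50 * t) 10000000000000000000 (by norm_num)
  have e : ((K * A * 50 * t : ℕ) : ℝ) = (K : ℝ) * A * 50 * t := by push_cast; ring
  rw [e] at h
  have e2 : ((10000000000000000000 : ℕ) : ℝ) = 10000000000000000000 := by norm_num
  rw [e2] at h
  have e3 : (K : ℝ) / 100000 * (((A : ℝ) / 1000000000) * (50 / 100000 * ((t : ℝ) / 1000000000))) =
      (K : ℝ) * A * 50 * t / 10000000000000000000 / 1000000000 := by ring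
  rw [e3]
  exact div_le_div_of_nonneg_right h (by norm_num)

private theorem t6_num2 (A t : ℕ) :
    ((A : ℝ) / 1000000000) * (50 / 100000 * ((t : ℝ) / 1000000000)) ≤
      ((A * 50 * t / 100000000000000 + 1 : ℕ) : ℝ) / 1000000000 := by
  have h := t6_div (A * 50 * t) 100000000000000 (by norm_num)
  have e : ((A * 50 * t : ℕ) : ℝ) = (A : ℝ) * 50 * t := by push_cast; ring
  rw [e] at h
  have e2 : ((100000000000000 : ℕ) : ℝ) = 100000000000000 := by norm_num
  rw [e2] at h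
  have e3 : ((A : ℝ) / 1000000000) * (50 / 100000 * ((t : ℝ) / 1000000000)) =
      (A : ℝ) * 50 * t / 100000000000000 / 1000000000 := by ring
  rw [e3]
  exact div_le_div_of_nonneg_right h (by norm_num)

/-- the first part, one cell -/
private theorem t6_cell1 (j : ℕ) (hj : j < 418) : ∃ E X0 : ℝ, 0 ≤ E ∧ 2 ≤ X0 ∧ ∀ X : ℝ, X0 ≤ X →
    (7 - 8 * c1 j) / (2 - 2 / 100000 - c1 (j + 1)) * Mc X a0 (c1 j) (c1 (j + 1)) +
      (7 - 8 * c1 j) *
      (∑ q ∈ P X a0 ((2 - c1 j) / 2), 1 / ((q : ℝ) * (2 - 2 / 100000 - c1 (j + 1) - u X q))) *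
        Mc X a0 (c1 j) (c1 (j + 1)) ≤ (val1 j : ℝ) / 1000000000 + E / Real.log X := by
  obtain ⟨C1, X1, hC1, hX1, h1⟩ := t6_Mc
  obtain ⟨C2, X2, hC2, hX2, h2⟩ := tr_sound
  -- the integers
  obtain ⟨hM, hhM⟩ : ∃ n : ℕ, n = (66650 + 50 * j) / 2 := ⟨_, rfl⟩
  obtain ⟨hB, hhB⟩ : ∃ n : ℕ, n = (133400 - 50 * j) / 2 := ⟨_, rfl⟩
  obtain ⟨cM, hcM⟩ : ∃ n : ℕ, n = 66600 + 50 * j := ⟨_, rfl⟩
  obtain ⟨cB, hcB⟩ : ∃ n : ℕ, n = 199998 - (66650 + 50 * j) := ⟨_, rfl⟩
  obtain ⟨K, hK⟩ : ∃ n : ℕ, n = 700000 - 8 * (66600 + 50 * j) := ⟨_, rfl⟩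
  obtain ⟨tM, htM⟩ : ∃ n : ℕ, n = tr 5000 5 33300 hM cM := ⟨_, rfl⟩
  obtain ⟨tB, htB⟩ : ∃ n : ℕ, n = tr 10000 5 33300 hB cB := ⟨_, rfl⟩
  obtain ⟨A, hA⟩ : ∃ n : ℕ, n = 100000000000000 / cB + 1 + tB := ⟨_, rfl⟩
  have hval : val1 j = K * A * 50 * tM / 10000000000000000000 + 1 := by
    rw [hA, htM, htB, hhM, hhB, hcM, hcB, hK]
    rfl
  -- casts
  have n1 : 2 * hM = 66650 + 50 * j := by omega
  have n2 : 2 * hB + 50 * j = 133400 := by omega
  have n3 : cB + (66650 + 50 * j) = 199998 := by omega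
  have n4 : K + 8 * (66600 + 50 * j) = 700000 := by omega
  have r1 : 2 * (hM : ℝ) = 66650 + 50 * j := by exact_mod_cast n1
  have r2 : 2 * (hB : ℝ) + 50 * j = 133400 := by exact_mod_cast n2
  have r3 : (cB : ℝ) + (66650 + 50 * j) = 199998 := by exact_mod_cast n3
  have r4 : (K : ℝ) + 8 * (66600 + 50 * j) = 700000 := by exact_mod_cast n4
  have r5 : (cM : ℝ) = 66600 + 50 * j := by rw [hcM]; push_cast; ring
  have hcB0 : 0 < cB := by omega
  have hcB0' : (0 : ℝ) < cB := by exact_mod_cast hcB0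
  have a1 : a0 = ((33300 : ℕ) : ℝ) / 100000 := by unfold a0; norm_num
  have a2 : c1 j = (cM : ℝ) / 100000 := by unfold c1; rw [r5]
  have a3 : c1 (j + 1) = ((2 * hM : ℕ) : ℝ) / 100000 := by
    unfold c1; push_cast; linarith
  have a4 : (2 - c1 j) / 2 = (hB : ℝ) / 100000 := by unfold c1; linarith
  have a5 : 2 - 2 / 100000 - c1 (j + 1) = (cB : ℝ) / 100000 := by
    unfold c1; push_cast; linarith
  have a6 : 7 - 8 * c1 j = (K : ℝ) / 100000 := by unfold c1; linarith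
  refine ⟨(K : ℝ) / 100000 * ((A : ℝ) / 1000000000 * C1 +
    50 / 100000 * ((tM : ℝ) / 1000000000) * C2 + 2 * C2 * C1), max X1 X2, by positivity,
    le_max_of_le_left hX1, ?_⟩
  intro X hX
  have hXa : X1 ≤ X := (le_max_left _ _).trans hX
  have hXb : X2 ≤ X := (le_max_right _ _).trans hX
  have hX2' : 2 ≤ X := hX1.trans hXa
  have hL := half_le_log hX2'
  have hL0 : 0 < Real.log X := by linarith
  have b1 := h1 X hXa 5 33300 hM cM (by norm_num) (by norm_num) (by omega) (by omega) (by omega)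
    (by omega) (by omega)
  rw [← htM, ← a1, ← a2, ← a3] at b1
  have b2 := h2 X hXb 10000 5 33300 hB cB (by norm_num) (by norm_num) (by omega) (by omega)
    (by omega)
  rw [← htB, ← a1, ← a4, ← a5] at b2
  set Mj := Mc X a0 (c1 j) (c1 (j + 1)) with hMj
  set Bj := ∑ q ∈ P X a0 ((2 - c1 j) / 2),
    1 / ((q : ℝ) * (2 - 2 / 100000 - c1 (j + 1) - u X q)) with hBj
  have hMj0 : 0 ≤ Mj := t6_Mc_nonneg _ _ _
  have hBj0 : 0 ≤ Bj := by
    refine Finset.sum_nonneg fun q hq => ?_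
    have h5 := le_of_mem_P' hq
    have h6 : 0 ≤ 2 - 2 / 100000 - c1 (j + 1) - u X q := by
      rw [a4] at h5
      rw [a5]
      have h7 : (hB : ℝ) ≤ cB := by
        have : hB ≤ cB := by omega
        exact_mod_cast this
      linarith
    positivity
  have b3 : 1 / (2 - 2 / 100000 - c1 (j + 1)) ≤
      ((100000000000000 / cB + 1 : ℕ) : ℝ) / 1000000000 := by
    rw [a5, one_div_div]
    have h5 := t6_div 100000000000000 cB hcB0
    have e2 : ((100000000000000 : ℕ) : ℝ) = 100000 * 1000000000 := by norm_num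
    rw [e2] at h5
    rw [le_div_iff₀ (by norm_num : (0 : ℝ) < 1000000000)]
    refine le_trans (le_of_eq ?_) h5
    ring
  have b3' : 0 ≤ 1 / (2 - 2 / 100000 - c1 (j + 1)) := by rw [a5]; positivity
  have b4 : 1 / (2 - 2 / 100000 - c1 (j + 1)) + Bj ≤ (A : ℝ) / 1000000000 + C2 / Real.log X := by
    have e : (A : ℝ) = ((100000000000000 / cB + 1 : ℕ) : ℝ) + tB := by
      rw [hA, Nat.cast_add]
    rw [e, add_div]
    linarith
  have b5 := t6_prod hL (add_nonneg b3' hBj0) (by positivity :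
    (0 : ℝ) ≤ 50 / 100000 * ((tM : ℝ) / 1000000000)) (by positivity :
    (0 : ℝ) ≤ (A : ℝ) / 1000000000) hC2.le hC1.le b4 b1
  have hK0 : (0 : ℝ) ≤ (K : ℝ) / 100000 := by positivity
  have b6 := mul_le_mul_of_nonneg_left b5 hK0
  have b7 := t6_num1 K A tM
  rw [hval, a6]
  have e1 : (K : ℝ) / 100000 / (2 - 2 / 100000 - c1 (j + 1)) * Mj + (K : ℝ) / 100000 * Bj * Mj =
      (K : ℝ) / 100000 * ((1 / (2 - 2 / 100000 - c1 (j + 1)) + Bj) * Mj) := by ring
  rw [e1]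
  refine b6.trans ?_
  have e2 : (K : ℝ) / 100000 * ((A : ℝ) / 1000000000 * (50 / 100000 * ((tM : ℝ) / 1000000000)) +
      ((A : ℝ) / 1000000000 * C1 + 50 / 100000 * ((tM : ℝ) / 1000000000) * C2 + 2 * C2 * C1) /
        Real.log X) = (K : ℝ) / 100000 * ((A : ℝ) / 1000000000 *
          (50 / 100000 * ((tM : ℝ) / 1000000000))) +
      (K : ℝ) / 100000 * ((A : ℝ) / 1000000000 * C1 +
        50 / 100000 * ((tM : ℝ) / 1000000000) * C2 + 2 * C2 * C1) / Real.log X := by ring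
  rw [e2]
  linarith

/-- the second part, one cell -/
private theorem t6_cell2 (j : ℕ) (hj : j < 667) : ∃ E X0 : ℝ, 0 ≤ E ∧ 2 ≤ X0 ∧ ∀ X : ℝ, X0 ≤ X →
    2 / (2 - 2 / 100000 - c2 (j + 1)) * Mc X (max a0 (2 * c2 j - 2)) (c2 j) (c2 (j + 1)) ≤
      (val2 j : ℝ) / 1000000000 + E / Real.log X := by
  obtain ⟨C1, X1, hC1, hX1, h1⟩ := t6_Mc
  obtain ⟨lo, hlo⟩ : ∃ n : ℕ, n = max 33300 (100 * j - 20) := ⟨_, rfl⟩
  obtain ⟨hi, hhi⟩ : ∃ n : ℕ, n = (100040 + 50 * j) / 2 := ⟨_, rfl⟩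
  obtain ⟨cM, hcM⟩ : ∃ n : ℕ, n = 99990 + 50 * j := ⟨_, rfl⟩
  obtain ⟨cB, hcB⟩ : ∃ n : ℕ, n = 199998 - (100040 + 50 * j) := ⟨_, rfl⟩
  have n1 : 2 * hi = 100040 + 50 * j := by omega
  have n3 : cB + (100040 + 50 * j) = 199998 := by omega
  have r1 : 2 * (hi : ℝ) = 100040 + 50 * j := by exact_mod_cast n1
  have r3 : (cB : ℝ) + (100040 + 50 * j) = 199998 := by exact_mod_cast n3
  have r5 : (cM : ℝ) = 99990 + 50 * j := by rw [hcM]; push_cast; ring
  have hcB0 : 0 < cB := by omega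
  have a1 : max a0 (2 * c2 j - 2) = (lo : ℝ) / 100000 := by
    unfold a0 c2
    rcases Nat.lt_or_ge (100 * j) 33320 with hlt | hge
    · have e : lo = 33300 := by omega
      rw [e]
      have h5 : (100 * (j : ℝ)) < 33320 := by exact_mod_cast hlt
      rw [max_eq_left (by linarith)]
      norm_num
    · have e : lo + 20 = 100 * j := by omega
      have e' : (lo : ℝ) + 20 = 100 * j := by exact_mod_cast e
      have h5 : (33320 : ℝ) ≤ 100 * (j : ℝ) := by exact_mod_cast hge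
      rw [max_eq_right (by linarith)]
      linarith
  have a2 : c2 j = (cM : ℝ) / 100000 := by unfold c2; rw [r5]
  have a3 : c2 (j + 1) = ((2 * hi : ℕ) : ℝ) / 100000 := by
    unfold c2; push_cast; linarith
  have a5 : 2 - 2 / 100000 - c2 (j + 1) = (cB : ℝ) / 100000 := by
    unfold c2; push_cast; linarith
  rcases Nat.lt_or_ge hi lo with hlt | hle
  · refine ⟨0, 2, le_rfl, le_rfl, fun X hX => ?_⟩
    have hz : Mc X (max a0 (2 * c2 j - 2)) (c2 j) (c2 (j + 1)) = 0 := by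
      unfold Mc
      refine Finset.sum_eq_zero fun q hq => ?_
      exfalso
      have h5 := le_of_mem_P hq
      have h6 := le_of_mem_P' hq
      rw [a1] at h5
      rw [a3] at h6
      push_cast at h6
      have h7 : (hi : ℝ) < lo := by exact_mod_cast hlt
      linarith
    rw [hz, mul_zero, zero_div, add_zero]
    positivity
  · obtain ⟨tM, htM⟩ : ∃ n : ℕ, n = tr 5000 10 lo hi cM := ⟨_, rfl⟩
    obtain ⟨A, hA⟩ : ∃ n : ℕ, n = 200000000000000 / cB + 1 := ⟨_, rfl⟩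
    have hval : val2 j = A * 50 * tM / 100000000000000 + 1 := by
      have h5 : max 33300 (100 * j - 20) ≤ (100040 + 50 * j) / 2 := by
        rw [← hlo, ← hhi]; exact hle
      rw [val2, if_pos h5, hA, htM, hlo, hhi, hcM, hcB]
    refine ⟨(A : ℝ) / 1000000000 * C1, X1, by positivity, hX1, ?_⟩
    intro X hX
    have hX2' : 2 ≤ X := hX1.trans hX
    have hL := half_le_log hX2'
    have hL0 : 0 < Real.log X := by linarith
    have b1 := h1 X hX 10 lo hi cM (by norm_num) (by omega) hle (by omega) (by omega)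
      (by omega) (by omega)
    rw [← htM, ← a1, ← a2, ← a3] at b1
    have b3 : 2 / (2 - 2 / 100000 - c2 (j + 1)) ≤ (A : ℝ) / 1000000000 := by
      rw [a5]
      have h5 := t6_div 200000000000000 cB hcB0
      rw [← hA] at h5
      have e2 : ((200000000000000 : ℕ) : ℝ) = 2 * 100000 * 1000000000 := by norm_num
      rw [e2] at h5
      rw [le_div_iff₀ (by norm_num : (0 : ℝ) < 1000000000)]
      refine le_trans (le_of_eq ?_) h5
      have hcB0' : (cB : ℝ) ≠ 0 := by exact_mod_cast hcB0.ne'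
      field_simp
    have b4 := mul_le_mul b3 b1 (t6_Mc_nonneg _ _ _) (by positivity : (0 : ℝ) ≤ (A : ℝ) / 1000000000)
    refine b4.trans ?_
    rw [hval]
    have b7 := t6_num2 A tM
    have e2 : (A : ℝ) / 1000000000 * (50 / 100000 * ((tM : ℝ) / 1000000000) + C1 / Real.log X) =
        (A : ℝ) / 1000000000 * (50 / 100000 * ((tM : ℝ) / 1000000000)) +
          (A : ℝ) / 1000000000 * C1 / Real.log X := by ring
    rw [e2]
    linarith

/-- finite sums of bounds -/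
private theorem t6_sum (N : ℕ) (f : ℕ → ℝ → ℝ) (v : ℕ → ℕ)
    (h : ∀ j, j < N → ∃ E X0 : ℝ, 0 ≤ E ∧ 2 ≤ X0 ∧ ∀ X : ℝ, X0 ≤ X →
      f j X ≤ (v j : ℝ) / 1000000000 + E / Real.log X) :
    ∃ E X0 : ℝ, 0 ≤ E ∧ 2 ≤ X0 ∧ ∀ X : ℝ, X0 ≤ X →
      ∑ j ∈ range N, f j X ≤ (sumTo v N : ℝ) / 1000000000 + E / Real.log X := by
  induction N with
  | zero => exact ⟨0, 2, le_rfl, le_rfl, fun X _ => by simp [sumTo]⟩
  | succ N ih =>
    obtain ⟨E, X0, hE, hX0, h1⟩ := ih fun j hj => h j (by omega)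
    obtain ⟨E', X0', hE', hX0', h2⟩ := h N (by omega)
    refine ⟨E + E', max X0 X0', by linarith, le_max_of_le_left hX0, fun X hX => ?_⟩
    have h3 := h1 X ((le_max_left _ _).trans hX)
    have h4 := h2 X ((le_max_right _ _).trans hX)
    rw [Finset.sum_range_succ, sumTo, Nat.cast_add, add_div, add_div]
    linarith

/-- [T6] Proof. Combine `S3_cells`, `S4_cells` with `Mc_le`, `tr_sound` and `check`. For the cell `j` of the first part let
`M = Mc X a0 (c1 j) (c1 (j + 1)) ≤ (50 / 10 ^ 5) (tr .. / 10 ^ 9 + C / log X) + C / log X` (with `lo = 33300`, `hi = (66650 + 50 j) / 2`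
exactly, `c = 66600 + 50 j`), and `B ≤ tr .. / 10 ^ 9 + C / log X` with `hi = (133400 - 50 j) / 2`, `c = 199998 - (66650 + 50 j)`. The product is at most
`val1 j / 10 ^ 9 + C' / log X` (all factors are bounded by 10). Same for the second part (if `max a0 (2 c2 j - 2) > c2 (j + 1) / 2`, then `Mc = 0`). -/
theorem S_bound : ∃ C X0 : ℝ, 0 < C ∧ 2 ≤ X0 ∧ ∀ X : ℝ, X0 ≤ X → S3 X + S4 X ≤ 4915 / 10000 + C / Real.log X := by
  obtain ⟨E, X1, hE, hX1, h1⟩ := t6_sum 418 _ val1 t6_cell1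
  obtain ⟨E', X2, hE', hX2, h2⟩ := t6_sum 667 _ val2 t6_cell2
  refine ⟨E + E' + 1, max X1 X2, by linarith, le_max_of_le_left hX1, fun X hX => ?_⟩
  have h3 := h1 X ((le_max_left _ _).trans hX)
  have h4 := h2 X ((le_max_right _ _).trans hX)
  have hX2' : 2 ≤ X := hX1.trans ((le_max_left _ _).trans hX)
  have hL := half_le_log hX2'
  have hL0 : 0 < Real.log X := by linarith
  have h5 := S3_cells (X := X) (by linarith)
  have h6 := S4_cells (X := X) (by linarith)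
  have hc : ((sumTo val1 418 : ℕ) : ℝ) + ((sumTo val2 667 : ℕ) : ℝ) ≤ 491500000 := by
    exact_mod_cast check
  rw [Finset.sum_add_distrib] at h3
  have h7 : 0 ≤ 1 / Real.log X := by positivity
  rw [add_div, add_div]
  linarith

end Pool.Agent.NUM
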