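import Pool.Agent.NUM.G5w
import Pool.Agent.NUM.K1w
import Pool.Agent.NUM.K3w
import Pool.Agent.NUM.K4w
import Pool.Agent.NUM.K5w
import Pool.Agent.NUM.T6

/-!
# [NUM-Zw] the lower bound for the sum of the sieve weight, general windows
-/

set_option autoImplicit false

namespace Pool.Agent.NUM

open Finset

/-- splitting `AW` by the number of prime factors -/
theorem sum_AW {X T1 T2 : ℝ} (hX : 1 < X) (hT1 : 1 ≤ T1) (hT2 : T2 ≤ 2) (f : ℕ → ℝ) :
    ∑ n ∈ AW X T1 T2, f n = ∑ n ∈ AkW X T1 T2 1, f n + ∑ n ∈ AkW X T1 T2 2, f n + ∑ n ∈ AkW X T1 T2 3, f n +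
      ∑ n ∈ AkW X T1 T2 4, f n + ∑ n ∈ AkW X T1 T2 5, f n + ∑ n ∈ AkW X T1 T2 6, f n := by
  classical
  have h : ∑ n ∈ AW X T1 T2, f n = ∑ k ∈ Finset.Icc 1 6, ∑ n ∈ (AW X T1 T2).filter (fun n => n.primeFactors.card = k), f n :=
    (Finset.sum_fiberwise_of_maps_to (fun n hn => Finset.mem_Icc.2 (card_boundsW hX hT1 hT2 hn)) f).symm
  rw [h, show Finset.Icc 1 6 = {1, 2, 3, 4, 5, 6} from by decide]
  rw [Finset.sum_insert (by decide), Finset.sum_insert (by decide), Finset.sum_insert (by decide),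
    Finset.sum_insert (by decide), Finset.sum_insert (by decide), Finset.sum_singleton]
  have h' : ∀ k, ∑ n ∈ (AW X T1 T2).filter (fun n => n.primeFactors.card = k), f n = ∑ n ∈ AkW X T1 T2 k, f n := by
    intro k
    refine Finset.sum_congr ?_ (fun _ _ => rfl)
    ext n
    rw [mem_AkW, Finset.mem_filter]
  rw [h', h', h', h', h', h']
  ring

/-- The lower bound, in terms of exponents; `c0 = 1 / 500`, `e0 = 1 / 25000`. -/
theorem numW_exp : ∃ C X0 : ℝ, 0 < C ∧ 2 ≤ X0 ∧ ∀ X : ℝ, X0 ≤ X → ∀ e T1 T2 : ℝ, 0 < e → e ≤ 1 / 25000 →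
    2 - e / 2 ≤ T1 → T1 ≤ T2 → T2 ≤ 2 →
    1 / 500 * (T2 - T1) - C / Real.log X ≤ ∑ n ∈ AW X T1 T2, (G X e n - gapI X e n) / (n : ℝ) := by
  obtain ⟨C1, X1, hC1, hX1, H1⟩ := k1W
  obtain ⟨C3, X3, hC3, hX3, H3⟩ := k3W
  obtain ⟨C4, X4, hC4, hX4, H4⟩ := k4W
  obtain ⟨C5, X5, hC5, hX5, H5⟩ := k5W
  obtain ⟨C6, X6, hC6, hX6, H6⟩ := k6W
  obtain ⟨CS, XS, hCS, hXS, HS⟩ := S_bound
  refine ⟨C1 + C3 + C4 + C5 + C6 + CS, max (max (max X1 X3) (max X4 X5)) (max X6 XS), by positivity, ?_,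
    fun X hX e T1 T2 he he' hT1 hT hT2 => ?_⟩
  · exact hX1.trans (le_trans (le_trans (le_max_left _ _) (le_max_left _ _)) (le_max_left _ _))
  have hXX1 : X1 ≤ X := le_trans (le_trans (le_trans (le_max_left _ _) (le_max_left _ _)) (le_max_left _ _)) hX
  have hXX3 : X3 ≤ X := le_trans (le_trans (le_trans (le_max_right _ _) (le_max_left _ _)) (le_max_left _ _)) hX
  have hXX4 : X4 ≤ X := le_trans (le_trans (le_trans (le_max_left _ _) (le_max_right _ _)) (le_max_left _ _)) hX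
  have hXX5 : X5 ≤ X := le_trans (le_trans (le_trans (le_max_right _ _) (le_max_right _ _)) (le_max_left _ _)) hX
  have hXX6 : X6 ≤ X := le_trans (le_trans (le_max_left _ _) (le_max_right _ _)) hX
  have hXXS : XS ≤ X := le_trans (le_trans (le_max_right _ _) (le_max_right _ _)) hX
  have hX1' : 1 < X := by linarith
  have hlog0 : 0 < Real.log X := log_pos' hX1'
  obtain ⟨η, hηd⟩ : ∃ η : ℝ, η = T2 - T1 := ⟨_, rfl⟩
  have hη : 0 ≤ η := by linarith
  have hη1 : η ≤ 1 := by linarith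
  have hC' : (C1 + C3 + C4 + C5 + C6 + CS) / Real.log X = C1 / Real.log X + C3 / Real.log X + C4 / Real.log X +
      C5 / Real.log X + C6 / Real.log X + CS / Real.log X := by
    ring
  rw [sum_AW hX1' (by linarith) hT2]
  have h1 := H1 X hXX1 e T1 T2 he he' hT1 hT hT2
  have h2 := k2W hX1' he he' hT1 hT2
  have neg : ∀ k, ∑ n ∈ AkW X T1 T2 k, (G X e n - gapI X e n) / (n : ℝ) =
      -∑ n ∈ AkW X T1 T2 k, (gapI X e n - G X e n) / (n : ℝ) := by
    intro k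
    rw [← Finset.sum_neg_distrib]
    refine Finset.sum_congr rfl (fun n _ => ?_)
    ring
  have h3 := H3 X hXX3 e T1 T2 he he' hT1 hT hT2
  have h4 := H4 X hXX4 e T1 T2 he he' hT1 hT hT2
  have h5 := H5 X hXX5 e T1 T2 he he' hT1 hT hT2
  have h6 := H6 X hXX6 e T1 T2 he he' hT1 hT hT2
  have hS := HS X hXXS
  rw [neg 3, neg 4, neg 5, neg 6, h2, hC']
  rw [← hηd] at h1 h3 h4 h5 h6 ⊢
  have hCSpos : 0 ≤ CS / Real.log X := by positivity
  have hηS : η * (S3 X + S4 X) ≤ η * (4915 / 10000) + CS / Real.log X := by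
    have := mul_le_mul_of_nonneg_left hS hη
    have h7 : η * (CS / Real.log X) ≤ 1 * (CS / Real.log X) := mul_le_mul_of_nonneg_right hη1 hCSpos
    linarith
  have heη : e * η ≤ 1 / 25000 * η := mul_le_mul_of_nonneg_right he' hη
  have hηη : η * (S3 X + S4 X) = η * S3 X + η * S4 X := by ring
  linarith

open Classical in
/-- The lower bound for windows `(W1, W2]` with natural end points. -/
theorem numW : ∃ C X0 : ℝ, 0 < C ∧ 2 ≤ X0 ∧ ∀ X : ℝ, X0 ≤ X → ∀ e : ℝ, 0 < e → e ≤ 1 / 25000 → ∀ W1 W2 : ℕ,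
    X ^ (2 - e / 2) ≤ (W1 : ℝ) → W1 ≤ W2 → (W2 : ℝ) ≤ X ^ (2 : ℝ) →
    (1 / 500 * Real.log ((W2 : ℝ) / W1) - C) / Real.log X ≤
      ∑ n ∈ (Finset.Ioc W1 W2).filter (fun n => Squarefree n ∧ Rough X a0 n), (G X e n - gapI X e n) / (n : ℝ) := by
  obtain ⟨C, X0, hC, hX0, H⟩ := numW_exp
  refine ⟨C, X0, hC, hX0, fun X hX e he he' W1 W2 h1 h12 h2 => ?_⟩
  have hX1 : 1 < X := by linarith
  have hX0' : 0 < X := by linarith
  have hlog := log_pos' hX1
  have hW1 : (0 : ℝ) < W1 := lt_of_lt_of_le (Real.rpow_pos_of_pos hX0' _) h1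
  have hW1' : W1 ≠ 0 := by rintro rfl; simp at hW1
  have hW2' : W2 ≠ 0 := by omega
  have hW2 : (0 : ℝ) < W2 := by exact_mod_cast Nat.pos_of_ne_zero hW2'
  have hT1 := (rpow_le_iff hX1 hW1' _).1 h1
  have hT2 := (le_rpow_iff hX1 hW2' _).1 h2
  have hT := u_le hX1 h12
  have key := H X hX e (u X W1) (u X W2) he he' hT1 hT hT2
  have hpow : ∀ W : ℕ, W ≠ 0 → X ^ (u X W) = (W : ℝ) := by
    intro W hW
    have hW0 : (0 : ℝ) < W := by exact_mod_cast Nat.pos_of_ne_zero hW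
    rw [Real.rpow_def_of_pos hX0', u, mul_div_cancel₀ _ hlog.ne', Real.exp_log hW0]
  have hset : AW X (u X W1) (u X W2) = (Finset.Ioc W1 W2).filter (fun n => Squarefree n ∧ Rough X a0 n) := by
    unfold AW rngW
    rw [hpow W1 hW1', hpow W2 hW2', Nat.floor_natCast, Nat.floor_natCast]
  rw [hset] at key
  refine le_trans (le_of_eq ?_) key
  rw [Real.log_div hW2.ne' hW1.ne']
  unfold u
  field_simp

end Pool.Agent.NUM
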